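import Pool.Agent.R722.MK.Stm

/-!
MK-COUNT (MP_093cae_al)
-/

set_option autoImplicit false

namespace Pool.Agent.R722.MK

open CategoryTheory CategoryTheory.Limits MulAction

namespace CountAux

variable {G : Type} [Group G] [Finite G] {O : TransferSystem G} {X : GSet G}

/-- base point -/
def bp (K : Subgroup G) : orb K := ((1 : G) : G ⧸ K)

theorem exists_bp {K : Subgroup G} (x : orb K) : ∃ s : G, x = s • bp K := by
  obtain ⟨s, hs⟩ := QuotientGroup.mk_surjective (s := K) x
  refine ⟨s, ?_⟩
  rw [← hs]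
  show ((s : G) : G ⧸ K) = s • ((1 : G) : G ⧸ K)
  rw [MulAction.Quotient.smul_coe, smul_eq_mul, mul_one]

theorem exists_trans {K : Subgroup G} (x y : orb K) : ∃ s : G, y = s • x := by
  obtain ⟨a, rfl⟩ := exists_bp x
  obtain ⟨b, rfl⟩ := exists_bp y
  exact ⟨b * a⁻¹, by rw [smul_smul, inv_mul_cancel_right]⟩

theorem stab_bp (K : Subgroup G) : stabilizer G (bp K) = K := MulAction.stabilizer_quotient K

theorem st_eq {g f : Idx O X} (k : IsoSet g f) (x : orb g.K) :
    stabilizer G x = stabilizer G (k.1 x) := by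
  have hadm : Adm O k.1 := Adm.of_comp g.adm k.2.2
  exact (k.2.1 x).2 _ (hadm x) le_rfl

theorem inj {g f : Idx O X} (k : IsoSet g f) : Function.Injective k.1 := by
  intro x y h
  obtain ⟨s, rfl⟩ := exists_trans x y
  have h1 : s ∈ stabilizer G (k.1 x) := by
    rw [mem_stabilizer_iff, ← map_smul]
    exact h.symm
  rw [← st_eq] at h1
  exact (mem_stabilizer_iff.1 h1).symm

theorem surj {g f : Idx O X} (k : IsoSet g f) : Function.Surjective k.1 := by
  intro y
  obtain ⟨s, hs⟩ := exists_trans (k.1 (bp g.K)) y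
  exact ⟨s • bp g.K, by rw [map_smul, ← hs]⟩

/-- the inverse -/
noncomputable def inv {g f : Idx O X} (k : IsoSet g f) : IsoSet f g :=
  ⟨{ toFun := (Equiv.ofBijective k.1 ⟨inj k, surj k⟩).symm
     map_smul' := fun s y => by
      apply inj k
      have h1 := (Equiv.ofBijective k.1 ⟨inj k, surj k⟩).apply_symm_apply (s • y)
      have h2 := (Equiv.ofBijective k.1 ⟨inj k, surj k⟩).apply_symm_apply y
      refine h1.trans ?_
      exact (congrArg (s • ·) h2.symm).trans (map_smul k.1 s _).symm },
    fun y => by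
      obtain ⟨x, rfl⟩ := surj k y
      have h1 : (Equiv.ofBijective k.1 ⟨inj k, surj k⟩).symm (k.1 x) = x :=
        (Equiv.ofBijective k.1 ⟨inj k, surj k⟩).symm_apply_apply x
      show Dense O (stabilizer G (k.1 x))
        (stabilizer G ((Equiv.ofBijective k.1 ⟨inj k, surj k⟩).symm (k.1 x)))
      rw [h1, ← st_eq k x]
      exact Dense.refl _,
    fun y => by
      obtain ⟨x, rfl⟩ := surj k y
      have h1 : (Equiv.ofBijective k.1 ⟨inj k, surj k⟩).symm (k.1 x) = x :=
        (Equiv.ofBijective k.1 ⟨inj k, surj k⟩).symm_apply_apply x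
      show g.f ((Equiv.ofBijective k.1 ⟨inj k, surj k⟩).symm (k.1 x)) = f.f (k.1 x)
      rw [h1, k.2.2]⟩

theorem inv_left {g f : Idx O X} (k : IsoSet g f) (x : orb g.K) : (inv k).1 (k.1 x) = x :=
  (Equiv.ofBijective k.1 ⟨inj k, surj k⟩).symm_apply_apply x

theorem inv_right {g f : Idx O X} (k : IsoSet g f) (y : orb f.K) : k.1 ((inv k).1 y) = y :=
  (Equiv.ofBijective k.1 ⟨inj k, surj k⟩).apply_symm_apply y

theorem card_eq {g f : Idx O X} (k : IsoSet g f) : Nat.card g.K = Nat.card f.K := by
  have h1 : Nat.card (G ⧸ g.K) = Nat.card (G ⧸ f.K) :=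
    Nat.card_congr (Equiv.ofBijective k.1 ⟨inj k, surj k⟩)
  have h2 := Subgroup.card_eq_card_quotient_mul_card_subgroup g.K
  have h3 := Subgroup.card_eq_card_quotient_mul_card_subgroup f.K
  rw [h1] at h2
  have h4 : 0 < Nat.card (G ⧸ f.K) := Nat.card_pos
  rw [h3] at h2
  exact (Nat.eq_of_mul_eq_mul_left h4 h2).symm

theorem card_symm (g f : Idx O X) : Fintype.card (IsoSet g f) = Fintype.card (IsoSet f g) := by
  have h : ∀ g f : Idx O X, Fintype.card (IsoSet g f) ≤ Fintype.card (IsoSet f g) := by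
    intro g f
    refine Fintype.card_le_of_injective inv ?_
    intro k1 k2 h
    apply Subtype.ext
    refine MulActionHom.ext fun x => ?_
    have h1 : (inv k1).1 (k2.1 x) = x := by rw [h, inv_left]
    have h2 := congrArg k1.1 h1
    rw [inv_right] at h2
    exact h2.symm
  exact le_antisymm (h g f) (h f g)

/-- evaluation at the base point -/
def phi (f : Idx O X) (p : Σ g : Idx O X, IsoSet g f) : orb f.K := p.2.1 (bp p.1.K)

theorem phi_inj (f : Idx O X) : Function.Injective (phi f) := by
  rintro ⟨⟨K, a, ha⟩, k⟩ ⟨⟨K', a', ha'⟩, k'⟩ h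
  have h' : k.1 (bp K) = k'.1 (bp K') := h
  have e1 : K = stabilizer G (k.1 (bp K)) := by
    rw [← st_eq k (bp K)]
    exact (stab_bp K).symm
  have e2 : K' = stabilizer G (k'.1 (bp K')) := by
    rw [← st_eq k' (bp K')]
    exact (stab_bp K').symm
  have hK : K = K' := by rw [e1, h', ← e2]
  subst hK
  obtain ⟨k, hk⟩ := k
  obtain ⟨k', hk'⟩ := k'
  have hkk : k = k' := by
    refine MulActionHom.ext fun x => ?_
    obtain ⟨s, rfl⟩ := exists_bp (K := K) x
    rw [map_smul, map_smul]
    exact congrArg (s • ·) h'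
  subst hkk
  have haa : a = a' := by
    refine MulActionHom.ext fun x => ?_
    exact (hk.2 x).symm.trans (hk'.2 x)
  subst haa
  rfl

theorem phi_surj (f : Idx O X) : Function.Surjective (phi f) := by
  intro y
  let k : orb (stabilizer G y) →[G] orb f.K :=
    { toFun := fun q => ofQuotientStabilizer G y q
      map_smul' := fun s q => ofQuotientStabilizer_smul G y s q }
  have hkinj : Function.Injective k := injective_ofQuotientStabilizer G y
  have hst : ∀ x, stabilizer G x = stabilizer G (k x) := by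
    intro x
    ext s
    rw [mem_stabilizer_iff, mem_stabilizer_iff, ← map_smul]
    exact ⟨fun h => congrArg k h, fun h => hkinj h⟩
  have hadm : Adm O (f.f.comp k) := by
    intro x
    have := f.adm (k x)
    rw [← hst x] at this
    exact this
  refine ⟨⟨⟨stabilizer G y, f.f.comp k, hadm⟩, ⟨k, fun x => ?_, fun x => rfl⟩⟩, ?_⟩
  · rw [← hst x]
    exact Dense.refl _
  · show ofQuotientStabilizer G y ((1 : G) : G ⧸ stabilizer G y) = y
    rw [ofQuotientStabilizer_mk, one_smul]

theorem sum_in (f : Idx O X) :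
    ∑ g : Idx O X, (Fintype.card (IsoSet g f) : ℚ) * Nat.card f.K = Nat.card G := by
  have h1 : ∑ g : Idx O X, Fintype.card (IsoSet g f) = Nat.card (G ⧸ f.K) := by
    rw [← Fintype.card_sigma, ← Nat.card_eq_fintype_card]
    exact Nat.card_congr (Equiv.ofBijective (phi f) ⟨phi_inj f, phi_surj f⟩)
  rw [← Finset.sum_mul, ← Nat.cast_sum, h1, Subgroup.card_eq_card_quotient_mul_card_subgroup f.K,
    Nat.cast_mul]

theorem sum_out (g : Idx O X) :
    ∑ f : Idx O X, (Fintype.card (IsoSet g f) : ℚ) * Nat.card f.K = Nat.card G := by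
  rw [← sum_in g]
  refine Finset.sum_congr rfl fun f _ => ?_
  rw [card_symm g f]
  rcases isEmpty_or_nonempty (IsoSet f g) with h | ⟨⟨k⟩⟩
  · rw [Fintype.card_eq_zero]
    simp
  · rw [card_eq k]

end CountAux

open CountAux in
theorem count : stmCount := by
  intro G _ _ O X
  exact ⟨fun g f k => ⟨card_eq k, inv k, inv_left k, inv_right k⟩, sum_out, sum_in⟩

end Pool.Agent.R722.MK
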