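import Mathlib

/-!
# MP_093cae_al: global dimension of rational incomplete Mackey functors (project MK)

Definitions.  Statements of the pieces: `Stm.lean`; complete proofs: `notes.md`.
-/

set_option autoImplicit false

namespace Pool.Agent.R722.MK

open CategoryTheory CategoryTheory.Limits MulAction

/-- A transfer system for the group `G`. -/
structure TransferSystem (G : Type) [Group G] where
  rel : Subgroup G → Subgroup G → Prop
  refl : ∀ H, rel H H
  trans : ∀ {J K H : Subgroup G}, rel J K → rel K H → rel J H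
  le : ∀ {K H : Subgroup G}, rel K H → K ≤ H
  conj : ∀ {K H : Subgroup G} (g : G), rel K H →
    rel (K.map (MulAut.conj g).toMonoidHom) (H.map (MulAut.conj g).toMonoidHom)
  restrict : ∀ {K H L : Subgroup G}, rel K H → L ≤ H → rel (K ⊓ L) L

/-- A finite `G`-set. -/
structure GSet (G : Type) [Group G] where
  carrier : Type
  [fin : Finite carrier]
  [act : MulAction G carrier]

attribute [instance] GSet.fin GSet.act

variable {G : Type} [Group G]

instance : CoeSort (GSet G) Type := ⟨GSet.carrier⟩

/-- the set of `G`-maps between finite `G`-sets is finite -/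
noncomputable instance homFintype (X Y : GSet G) : Fintype (X →[G] Y) :=
  @Fintype.ofFinite _ (Finite.of_injective (fun f : X →[G] Y => (f : X → Y))
    (fun f g h => by ext x; exact congrFun h x))

/-- the disjoint union of a finite family of finite `G`-sets -/
def sigma (I : Type) [Finite I] (X : I → GSet G) : GSet G := ⟨Σ i, X i⟩

/-- the inclusion of a member of a family into the disjoint union -/
def incl {I : Type} [Finite I] (X : I → GSet G) (i : I) : X i →[G] sigma I X where
  toFun x := ⟨i, x⟩
  map_smul' _ _ := rfl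

/-- `f` is admissible: the stabilizer of every `x` is admissible in the stabilizer of `f x` -/
def Adm (O : TransferSystem G) {X Y : GSet G} (f : X →[G] Y) : Prop :=
  ∀ x, O.rel (stabilizer G x) (stabilizer G (f x))

/-- the square with `a : P → X`, `b : P → Y'`, `f : X → Y`, `g : Y' → Y` is a pullback of sets -/
def IsPB {P X Y' Y : GSet G} (a : P →[G] X) (b : P →[G] Y') (f : X →[G] Y) (g : Y' →[G] Y) : Prop :=
  (∀ p, f (a p) = g (b p)) ∧ ∀ x y, f x = g y → ∃! p, a p = x ∧ b p = y

/-- A rational `O`-Mackey functor (Dress's form): restrictions `pull f` for all maps `f` of finite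
`G`-sets, transfers `push f` for the admissible ones, with the base change formula for pullback
squares, turning finite disjoint unions into products. -/
structure Mackey (O : TransferSystem G) where
  M : GSet G → Type
  [grp : ∀ X, AddCommGroup (M X)]
  [mod : ∀ X, Module ℚ (M X)]
  pull : ∀ {X Y : GSet G}, (X →[G] Y) → (M Y →ₗ[ℚ] M X)
  push : ∀ {X Y : GSet G} (f : X →[G] Y), Adm O f → (M X →ₗ[ℚ] M Y)
  pull_id : ∀ (X : GSet G) (m : M X), pull (MulActionHom.id G) m = m
  pull_comp : ∀ {X Y Z : GSet G} (f : X →[G] Y) (g : Y →[G] Z) (m : M Z),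
    pull (g.comp f) m = pull f (pull g m)
  push_id : ∀ (X : GSet G) (h : Adm O (MulActionHom.id G : X →[G] X)) (m : M X),
    push (MulActionHom.id G) h m = m
  push_comp : ∀ {X Y Z : GSet G} (f : X →[G] Y) (g : Y →[G] Z) (hf : Adm O f) (hg : Adm O g)
    (hgf : Adm O (g.comp f)) (m : M X), push (g.comp f) hgf m = push g hg (push f hf m)
  base : ∀ {P X Y' Y : GSet G} (a : P →[G] X) (b : P →[G] Y') (f : X →[G] Y) (g : Y' →[G] Y),
    IsPB a b f g → ∀ (hf : Adm O f) (hb : Adm O b) (m : M X),
    pull g (push f hf m) = push b hb (pull a m)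
  add : ∀ (I : Type) [Finite I] (X : I → GSet G),
    Function.Bijective (fun (m : M (sigma I X)) (i : I) => pull (incl X i) m)

attribute [instance] Mackey.grp Mackey.mod

/-- A rational `O`-Mackey functor: a `ℚ`-linear functor on the `O`-Burnside category, given by its
values on the spans `X ← U → Y` with admissible right leg: isomorphic spans have the same value,
composition by pullbacks, disjoint unions go to sums. -/
structure SpanMackey (O : TransferSystem G) where
  M : GSet G → Type
  [grp : ∀ X, AddCommGroup (M X)]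
  [mod : ∀ X, Module ℚ (M X)]
  map : ∀ {X U Y : GSet G} (_ : U →[G] X) (r : U →[G] Y), Adm O r → (M X →ₗ[ℚ] M Y)
  map_iso : ∀ {X U V Y : GSet G} (l : U →[G] X) (r : U →[G] Y) (l' : V →[G] X) (r' : V →[G] Y)
    (hr : Adm O r) (hr' : Adm O r') (φ : U →[G] V), Function.Bijective φ →
    (∀ x, l' (φ x) = l x) → (∀ x, r' (φ x) = r x) → map l r hr = map l' r' hr'
  map_id : ∀ (X : GSet G) (h : Adm O (MulActionHom.id G : X →[G] X)) (m : M X),
    map (MulActionHom.id G) (MulActionHom.id G) h m = m
  map_comp : ∀ {X U Y V Z P : GSet G} (l : U →[G] X) (r : U →[G] Y) (l' : V →[G] Y)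
    (r' : V →[G] Z) (a : P →[G] U) (b : P →[G] V), IsPB a b r l' → ∀ (hr : Adm O r)
    (hr' : Adm O r') (h : Adm O (r'.comp b)) (m : M X),
    map (l.comp a) (r'.comp b) h m = map l' r' hr' (map l r hr m)
  map_add : ∀ {X Y : GSet G} (I : Type) [Fintype I] (U : I → GSet G) (l : sigma I U →[G] X)
    (r : sigma I U →[G] Y) (hr : Adm O r) (h : ∀ i, Adm O (r.comp (incl U i))) (m : M X),
    map l r hr m = ∑ i, map (l.comp (incl U i)) (r.comp (incl U i)) (h i) m

attribute [instance] SpanMackey.grp SpanMackey.mod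

/-- natural transformations -/
@[ext]
structure SpanMackey.Hom {O : TransferSystem G} (M N : SpanMackey O) where
  app : ∀ X : GSet G, M.M X →ₗ[ℚ] N.M X
  nat : ∀ {X U Y : GSet G} (l : U →[G] X) (r : U →[G] Y) (hr : Adm O r) (m : M.M X),
    app Y (M.map l r hr m) = N.map l r hr (app X m)

instance (O : TransferSystem G) : Category (SpanMackey O) where
  Hom M N := SpanMackey.Hom M N
  id M := ⟨fun _ => LinearMap.id, fun _ _ _ _ => rfl⟩
  comp φ ψ := ⟨fun X => (ψ.app X).comp (φ.app X), fun l r hr m => by simp [φ.nat, ψ.nat]⟩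

instance {O : TransferSystem G} (M N : SpanMackey O) : Zero (M ⟶ N) :=
  ⟨(⟨fun _ => 0, fun _ _ _ _ => by simp⟩ : SpanMackey.Hom M N)⟩

instance (O : TransferSystem G) : HasZeroMorphisms (SpanMackey O) where
  comp_zero φ N := by
    apply SpanMackey.Hom.ext; funext X; apply LinearMap.ext; intro m; rfl
  zero_comp M {N K} φ := by
    apply SpanMackey.Hom.ext; funext X; apply LinearMap.ext; intro m
    exact (φ.app X).map_zero

variable {O : TransferSystem G}

/-- natural transformations of Mackey functors -/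
@[ext]
structure Mackey.Hom (M N : Mackey O) where
  app : ∀ X : GSet G, M.M X →ₗ[ℚ] N.M X
  pull : ∀ {X Y : GSet G} (f : X →[G] Y) (m : M.M Y), app X (M.pull f m) = N.pull f (app Y m)
  push : ∀ {X Y : GSet G} (f : X →[G] Y) (hf : Adm O f) (m : M.M X),
    app Y (M.push f hf m) = N.push f hf (app X m)

instance : Category (Mackey O) where
  Hom M N := Mackey.Hom M N
  id M := ⟨fun _ => LinearMap.id, fun _ _ => rfl, fun _ _ _ => rfl⟩
  comp φ ψ := ⟨fun X => (ψ.app X).comp (φ.app X), fun f m => by simp [φ.pull, ψ.pull],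
    fun f hf m => by simp [φ.push, ψ.push]⟩

instance (M N : Mackey O) : Zero (M ⟶ N) :=
  ⟨(⟨fun _ => 0, fun _ _ => by simp, fun _ _ _ => by simp⟩ : Mackey.Hom M N)⟩

instance : HasZeroMorphisms (Mackey O) where
  comp_zero φ N := by
    apply Mackey.Hom.ext; funext X; apply LinearMap.ext; intro m; rfl
  zero_comp M {N K} φ := by
    apply Mackey.Hom.ext; funext X; apply LinearMap.ext; intro m
    exact (φ.app X).map_zero

/-- `X` has projective dimension at most `n`: there is an exact sequence
`0 ⟶ P_n ⟶ ⋯ ⟶ P_0 ⟶ X ⟶ 0` with projective `P_i`. -/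
def PdLE {C : Type*} [Category C] [HasZeroMorphisms C] : ℕ → C → Prop
  | 0, X => Projective X
  | n + 1, X => ∃ (K P : C) (i : K ⟶ P) (p : P ⟶ X) (w : i ≫ p = 0), Projective P ∧
      Nonempty (IsLimit (KernelFork.ofι i w)) ∧ Nonempty (IsColimit (CokernelCofork.ofπ p w)) ∧
      PdLE n K

/-- projective dimension -/
noncomputable def pd {C : Type*} [Category C] [HasZeroMorphisms C] (X : C) : ℕ∞ :=
  ⨅ n : {n : ℕ // PdLE n X}, ((n : ℕ) : ℕ∞)

/-- global dimension: the supremum of the projective dimensions -/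
noncomputable def gldim (C : Type*) [Category C] [HasZeroMorphisms C] : ℕ∞ := ⨆ X : C, pd X

/-! ### dense maps -/

/-- `K` is dense in `H`: `K ≤ H` and no proper admissible subgroup of `H` contains `K` -/
def Dense (O : TransferSystem G) (K H : Subgroup G) : Prop :=
  K ≤ H ∧ ∀ P, O.rel P H → K ≤ P → P = H

/-- dense maps of `G`-sets -/
def DMap (O : TransferSystem G) {X Y : GSet G} (f : X →[G] Y) : Prop :=
  ∀ x, Dense O (stabilizer G x) (stabilizer G (f x))

theorem Dense.refl (K : Subgroup G) : Dense O K K := ⟨le_rfl, fun _ h h' => le_antisymm (O.le h) h'⟩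

theorem Dense.trans {J K H : Subgroup G} (h1 : Dense O J K) (h2 : Dense O K H) : Dense O J H := by
  refine ⟨h1.1.trans h2.1, fun P hP hJ => ?_⟩
  have h3 : O.rel (P ⊓ K) K := O.restrict hP h2.1
  have h4 := h1.2 _ h3 (le_inf hJ h1.1)
  exact h2.2 P hP (inf_eq_right.mp h4)

theorem DMap.id (X : GSet G) : DMap O (MulActionHom.id G : X →[G] X) := fun _ => Dense.refl _

theorem DMap.comp {X Y Z : GSet G} {f : X →[G] Y} {g : Y →[G] Z} (hf : DMap O f) (hg : DMap O g) :
    DMap O (g.comp f) := fun x => (hf x).trans (hg (f x))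

theorem Adm.of_comp {Z X Y : GSet G} {f : Z →[G] X} {p : X →[G] Y} {g : Z →[G] Y} (hg : Adm O g)
    (h : ∀ x, p (f x) = g x) : Adm O f := by
  intro z
  have h1 : O.rel (stabilizer G z) (stabilizer G (p (f z))) := by rw [h]; exact hg z
  have h2 : stabilizer G (f z) ≤ stabilizer G (p (f z)) := by
    intro s hs
    rw [mem_stabilizer_iff] at hs ⊢
    rw [← map_smul, hs]
  have h3 : stabilizer G z ≤ stabilizer G (f z) := by
    intro s hs
    rw [mem_stabilizer_iff] at hs ⊢
    rw [← map_smul, hs]
  have h4 := O.restrict h1 h2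
  rwa [inf_eq_left.mpr h3] at h4

theorem Dense.mono {O' : TransferSystem G} (hO : ∀ K H, O.rel K H → O'.rel K H) {K H : Subgroup G}
    (h : Dense O' K H) : Dense O K H := ⟨h.1, fun P hP hK => h.2 P (hO _ _ hP) hK⟩

variable [Finite G]

/-- the orbit `G/K` -/
def orb (K : Subgroup G) : GSet G := ⟨G ⧸ K⟩

/-- the category of orbits and dense maps -/
structure Orb (O : TransferSystem G) where
  K : Subgroup G

instance : Category (Orb O) where
  Hom A B := {f : orb A.K →[G] orb B.K // DMap O f}
  id A := ⟨MulActionHom.id G, DMap.id _⟩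
  comp f g := ⟨g.1.comp f.1, f.2.comp g.2⟩

/-- coefficient systems on the dense maps -/
abbrev DFun (O : TransferSystem G) := (Orb O)ᵒᵖ ⥤ ModuleCat.{0} ℚ

/-- `V u` for a dense map `u : G/J → G/K` -/
noncomputable def DFun.res (V : DFun O) {J K : Subgroup G} (u : orb J →[G] orb K) (hu : DMap O u) :
    V.obj (Opposite.op ⟨K⟩) →ₗ[ℚ] V.obj (Opposite.op ⟨J⟩) :=
  (V.map (Quiver.Hom.op (⟨u, hu⟩ : (⟨J⟩ : Orb O) ⟶ ⟨K⟩))).hom

/-- the admissible maps from orbits to `X` -/
structure Idx (O : TransferSystem G) (X : GSet G) where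
  K : Subgroup G
  f : orb K →[G] X
  adm : Adm O f

noncomputable instance (X : GSet G) : Fintype (Idx O X) :=
  @Fintype.ofFinite _ (Finite.of_injective
    (fun i : Idx O X => (⟨i.K, i.f⟩ : Σ K : Subgroup G, (orb K →[G] X)))
    (fun i j h => by
      obtain ⟨K, f, hf⟩ := i
      obtain ⟨L, g, hg⟩ := j
      simp only [Sigma.mk.injEq] at h
      obtain ⟨rfl, h⟩ := h
      cases h
      rfl))

/-- the dense maps (these are isomorphisms) between two admissible maps from orbits to `X` -/
def IsoSet {X : GSet G} (g f : Idx O X) : Type :=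
  {k : orb g.K →[G] orb f.K // DMap O k ∧ ∀ x, f.f (k x) = g.f x}

open Classical in
noncomputable instance {X : GSet G} (g f : Idx O X) : Fintype (IsoSet g f) :=
  inferInstanceAs (Fintype {k : orb g.K →[G] orb f.K // DMap O k ∧ ∀ x, f.f (k x) = g.f x})

/-- the sections of the map `p : X → Y` over `f : G/K → Y` -/
def Sect {K : Subgroup G} {X Y : GSet G} (p : X →[G] Y) (f : orb K →[G] Y) : Type :=
  {k : orb K →[G] X // ∀ x, p (k x) = f x}

open Classical in
noncomputable instance {K : Subgroup G} {X Y : GSet G} (p : X →[G] Y) (f : orb K →[G] Y) :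
    Fintype (Sect p f) := inferInstanceAs (Fintype {k : orb K →[G] X // ∀ x, p (k x) = f x})

/-- the inclusion of the orbit categories for `O ≤ O'` -/
def incO {O O' : TransferSystem G} (hO : ∀ K H, O.rel K H → O'.rel K H) : Orb O' ⥤ Orb O where
  obj A := ⟨A.K⟩
  map f := ⟨f.1, fun x => (f.2 x).mono hO⟩

/-- the value at `X` of the Mackey functor attached to `V`: compatible families -/
noncomputable def sec (V : DFun O) (X : GSet G) :
    Submodule ℚ (∀ i : Idx O X, V.obj (Opposite.op ⟨i.K⟩)) where
  carrier := {v | ∀ (i j : Idx O X) (a : orb i.K →[G] orb j.K) (ha : DMap O a),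
    (∀ x, j.f (a x) = i.f x) → V.res a ha (v j) = v i}
  zero_mem' := fun i j a ha _ => by simp
  add_mem' := fun {v w} hv hw i j a ha h => by
    simp only [Pi.add_apply, map_add]; rw [hv i j a ha h, hw i j a ha h]
  smul_mem' := fun c v hv i j a ha h => by
    simp only [Pi.smul_apply, map_smul]; rw [hv i j a ha h]

/-- the span of the transfers from properly smaller stabilizers -/
def nil (M : Mackey O) (X : GSet G) : Submodule ℚ (M.M X) :=
  Submodule.span ℚ {m | ∃ (Y : GSet G) (f : Y →[G] X) (hf : Adm O f),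
    (∀ y, stabilizer G y ≠ stabilizer G (f y)) ∧ ∃ n, M.push f hf n = m}

end Pool.Agent.R722.MK
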