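import Pool.Agent.R722.MK.Stm

/-!
# MP_093cae_al (project MK): the equivalence between Mackey functors and functors on dense maps
-/

set_option autoImplicit false
set_option linter.unusedSectionVars false

namespace Pool.Agent.R722.MK

open CategoryTheory CategoryTheory.Limits MulAction

variable {G : Type} [Group G] [Finite G] {O : TransferSystem G}

theorem hom_nil {M N : Mackey O} (φ : Mackey.Hom M N) (X : GSet G) (m : M.M X) (hm : m ∈ nil M X) :
    φ.app X m ∈ nil N X := by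
  unfold nil at hm
  induction hm using Submodule.span_induction with
  | mem x hx =>
    obtain ⟨Y, f, hf, h1, n, rfl⟩ := hx
    exact Submodule.subset_span ⟨Y, f, hf, h1, φ.app Y n, (φ.push f hf n).symm⟩
  | zero => rw [map_zero]; exact Submodule.zero_mem _
  | add x y _ _ hx hy => rw [map_add]; exact Submodule.add_mem _ hx hy
  | smul a x _ hx => rw [map_smul]; exact Submodule.smul_mem _ _ hx

/-- the functor on dense maps of a Mackey functor -/
noncomputable def EObj (hN : stmNil) (M : Mackey O) : DFun O where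
  obj A := ModuleCat.of ℚ (M.M (orb A.unop.K) ⧸ nil M (orb A.unop.K))
  map {A B} f := ModuleCat.ofHom (Submodule.mapQ (nil M (orb A.unop.K)) (nil M (orb B.unop.K))
    (M.pull f.unop.1)
    (fun m hm => (hN G O M (orb B.unop.K) (orb A.unop.K)).1 f.unop.1 f.unop.2 m hm))
  map_id A := by
    apply ModuleCat.hom_ext
    apply LinearMap.ext
    intro x
    obtain ⟨m, rfl⟩ := Submodule.mkQ_surjective _ x
    change Submodule.Quotient.mk (M.pull (MulActionHom.id G) m) = Submodule.Quotient.mk m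
    rw [M.pull_id]
  map_comp {A B C} f g := by
    apply ModuleCat.hom_ext
    apply LinearMap.ext
    intro x
    obtain ⟨m, rfl⟩ := Submodule.mkQ_surjective _ x
    change Submodule.Quotient.mk (M.pull (f.unop.1.comp g.unop.1) m) =
      Submodule.Quotient.mk (M.pull g.unop.1 (M.pull f.unop.1 m))
    rw [M.pull_comp]

/-- the class of an element -/
def mkE (hN : stmNil) (M : Mackey O) {K : Subgroup G} (m : M.M (orb K)) :
    (EObj hN M).obj (Opposite.op ⟨K⟩) := Submodule.Quotient.mk m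

theorem mkE_eq (hN : stmNil) (M : Mackey O) {K : Subgroup G} (m n : M.M (orb K)) :
    mkE hN M m = mkE hN M n ↔ m - n ∈ nil M (orb K) := Submodule.Quotient.eq _

theorem mkE_surj (hN : stmNil) (M : Mackey O) {K : Subgroup G}
    (x : (EObj hN M).obj (Opposite.op ⟨K⟩)) : ∃ m : M.M (orb K), mkE hN M m = x :=
  Submodule.mkQ_surjective _ x

theorem mkE_add (hN : stmNil) (M : Mackey O) {K : Subgroup G} (m n : M.M (orb K)) :
    mkE hN M (m + n) = mkE hN M m + mkE hN M n := rfl

theorem mkE_smul (hN : stmNil) (M : Mackey O) {K : Subgroup G} (c : ℚ) (n : M.M (orb K)) :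
    mkE hN M (c • n) = c • mkE hN M n := rfl

theorem mkE_sum (hN : stmNil) (M : Mackey O) {K : Subgroup G} {ι : Type} (s : Finset ι)
    (m : ι → M.M (orb K)) : mkE hN M (∑ i ∈ s, m i) = ∑ i ∈ s, mkE hN M (m i) :=
  map_sum (Submodule.mkQ (nil M (orb K))) m s

theorem mkE_res (hN : stmNil) (M : Mackey O) {J K : Subgroup G} (u : orb J →[G] orb K)
    (hu : DMap O u) (m : M.M (orb K)) :
    (EObj hN M).res u hu (mkE hN M m) = mkE hN M (M.pull u m) := rfl

/-- the functor -/
noncomputable def EFun (hN : stmNil) : Mackey O ⥤ DFun O where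
  obj := EObj hN
  map {M N} φ :=
    { app := fun A => ModuleCat.ofHom (Submodule.mapQ (nil M (orb A.unop.K)) (nil N (orb A.unop.K))
        (φ.app (orb A.unop.K)) (fun m hm => hom_nil φ _ m hm))
      naturality := fun A B f => by
        ext x
        obtain ⟨m, rfl⟩ := Submodule.mkQ_surjective _ x
        change Submodule.Quotient.mk (φ.app _ (M.pull f.unop.1 m)) =
          Submodule.Quotient.mk (N.pull f.unop.1 (φ.app _ m))
        rw [φ.pull] }
  map_id M := by
    ext A x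
    obtain ⟨m, rfl⟩ := Submodule.mkQ_surjective _ x
    rfl
  map_comp φ ψ := by
    ext A x
    obtain ⟨m, rfl⟩ := Submodule.mkQ_surjective _ x
    rfl

theorem comp_eq {X Y Z W : GSet G} (f : X →[G] Y) (g : Y →[G] Z) (f' : X →[G] W) (g' : W →[G] Z)
    (h : ∀ x, g (f x) = g' (f' x)) : g.comp f = g'.comp f' := by
  ext x; exact h x

theorem faithful (hN : stmNil) (hI : ∀ (M : Mackey O) (X : GSet G) (m : M.M X),
    (∀ i : Idx O X, M.pull i.f m ∈ nil M (orb i.K)) → m = 0) :
    (EFun (O := O) hN).Faithful where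
  map_injective {M N φ ψ} h := by
    apply Mackey.Hom.ext; funext X; apply LinearMap.ext; intro m
    rw [← sub_eq_zero]
    apply hI
    intro i
    rw [map_sub, ← φ.pull, ← ψ.pull]
    have h1 := congrArg (fun (η : EObj hN M ⟶ EObj hN N) =>
      (η.app (Opposite.op ⟨i.K⟩)).hom (mkE hN M (M.pull i.f m))) h
    exact (mkE_eq hN N _ _).mp h1

section full

variable (hN : stmNil) {M N : Mackey O} (θ : EObj hN M ⟶ EObj hN N)

/-- `n` is the image of `m` -/
def Rel (X : GSet G) (m : M.M X) (n : N.M X) : Prop :=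
  ∀ i : Idx O X, mkE hN N (N.pull i.f n) = (θ.app (Opposite.op ⟨i.K⟩)).hom (mkE hN M (M.pull i.f m))

theorem nat_res {J K : Subgroup G} (u : orb J →[G] orb K) (hu : DMap O u)
    (x : (EObj hN M).obj (Opposite.op ⟨K⟩)) :
    (θ.app (Opposite.op ⟨J⟩)).hom ((EObj hN M).res u hu x) =
      (EObj hN N).res u hu ((θ.app (Opposite.op ⟨K⟩)).hom x) := by
  have h := θ.naturality (Quiver.Hom.op (⟨u, hu⟩ : (⟨J⟩ : Orb O) ⟶ ⟨K⟩))
  have h2 := congrArg (fun (η : (EObj hN M).obj (Opposite.op ⟨K⟩) ⟶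
    (EObj hN N).obj (Opposite.op ⟨J⟩)) => η.hom x) h
  exact h2

theorem rel_exists (hS : ∀ (M : Mackey O) (X : GSet G) (v : ∀ i : Idx O X, M.M (orb i.K)),
    (∀ (i j : Idx O X) (a : orb i.K →[G] orb j.K), DMap O a → (∀ x, j.f (a x) = i.f x) →
      v i - M.pull a (v j) ∈ nil M (orb i.K)) → ∃ m : M.M X, ∀ i,
      M.pull i.f m - v i ∈ nil M (orb i.K)) (X : GSet G) (m : M.M X) : ∃ n, Rel hN θ X m n := by
  choose v hv using fun i : Idx O X => mkE_surj hN N
    ((θ.app (Opposite.op ⟨i.K⟩)).hom (mkE hN M (M.pull i.f m)))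
  obtain ⟨n, hn⟩ := hS N X v (by
    intro i j a ha h
    rw [← mkE_eq hN, ← mkE_res hN N a ha, hv, hv, ← nat_res hN θ a ha, mkE_res]
    have h2 : i.f = j.f.comp a := by ext x; exact (h x).symm
    rw [h2, M.pull_comp])
  refine ⟨n, fun i => ?_⟩
  rw [← hv]
  exact (mkE_eq hN N _ _).mpr (hn i)

theorem rel_unique (hI : ∀ (M : Mackey O) (X : GSet G) (m : M.M X),
    (∀ i : Idx O X, M.pull i.f m ∈ nil M (orb i.K)) → m = 0) {X : GSet G} {m : M.M X} {n n' : N.M X}
    (h : Rel hN θ X m n) (h' : Rel hN θ X m n') : n = n' := by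
  rw [← sub_eq_zero]
  apply hI
  intro i
  rw [map_sub, ← mkE_eq hN, h i, h' i]

theorem rel_add {X : GSet G} {m m' : M.M X} {n n' : N.M X} (h : Rel hN θ X m n)
    (h' : Rel hN θ X m' n') : Rel hN θ X (m + m') (n + n') := by
  intro i
  rw [map_add, map_add, mkE_add, mkE_add, h i, h' i, map_add]

theorem rel_smul {X : GSet G} {m : M.M X} {n : N.M X} (c : ℚ) (h : Rel hN θ X m n) :
    Rel hN θ X (c • m) (c • n) := by
  intro i
  rw [map_smul, map_smul, mkE_smul, mkE_smul, h i, map_smul]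

theorem rel_pull (hF : stmFac) {X Y : GSet G} (f : X →[G] Y) {m : M.M Y} {n : N.M Y}
    (h : Rel hN θ Y m n) : Rel hN θ X (M.pull f m) (N.pull f n) := by
  intro i
  obtain ⟨P, u, g, hu, hg, hh⟩ := (hF G O).1 i.K Y (f.comp i.f)
  have h1 : f.comp i.f = g.comp u := by ext x; exact (hh x).symm
  rw [← M.pull_comp, ← N.pull_comp, h1, M.pull_comp, N.pull_comp, ← mkE_res hN N u hu,
    ← mkE_res hN M u hu, nat_res hN θ u hu]
  rw [h ⟨P, g, hg⟩]

theorem rel_push (hR : ∀ (M : Mackey O)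
    (X Y : GSet G) (p : X →[G] Y) (hp : Adm O p) (K : Subgroup G) (f : orb K →[G] Y) (m : M.M X),
    M.pull f (M.push p hp m) - ∑ k : Sect p f, M.pull k.1 m ∈ nil M (orb K))
    {X Y : GSet G} (f : X →[G] Y) (hf : Adm O f) {m : M.M X} {n : N.M X}
    (h : Rel hN θ X m n) : Rel hN θ Y (M.push f hf m) (N.push f hf n) := by
  intro j
  rw [(mkE_eq hN N _ _).mpr (hR N X Y f hf j.K j.f n), (mkE_eq hN M _ _).mpr (hR M X Y f hf j.K j.f m),
    mkE_sum, mkE_sum, map_sum]
  refine Finset.sum_congr rfl fun k _ => ?_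
  exact h ⟨j.K, k.1, j.adm.of_comp k.2⟩

end full

theorem full (hN : stmNil) (hF : stmFac)
    (hI : ∀ (M : Mackey O) (X : GSet G) (m : M.M X),
      (∀ i : Idx O X, M.pull i.f m ∈ nil M (orb i.K)) → m = 0)
    (hS : ∀ (M : Mackey O) (X : GSet G) (v : ∀ i : Idx O X, M.M (orb i.K)),
      (∀ (i j : Idx O X) (a : orb i.K →[G] orb j.K), DMap O a → (∀ x, j.f (a x) = i.f x) →
      v i - M.pull a (v j) ∈ nil M (orb i.K)) → ∃ m : M.M X, ∀ i,
      M.pull i.f m - v i ∈ nil M (orb i.K))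
    (hR : ∀ (M : Mackey O)
      (X Y : GSet G) (p : X →[G] Y) (hp : Adm O p) (K : Subgroup G) (f : orb K →[G] Y) (m : M.M X),
      M.pull f (M.push p hp m) - ∑ k : Sect p f, M.pull k.1 m ∈ nil M (orb K)) :
    (EFun (O := O) hN).Full where
  map_surjective {M N} θ := by
    choose φ hφ using rel_exists hN θ hS
    let Φ : Mackey.Hom M N :=
      { app := fun X =>
          { toFun := φ X
            map_add' := fun m m' => rel_unique hN θ hI (hφ X _) (rel_add hN θ (hφ X m) (hφ X m'))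
            map_smul' := fun c m => rel_unique hN θ hI (hφ X _) (rel_smul hN θ c (hφ X m)) }
        pull := fun {X Y} f m => rel_unique hN θ hI (hφ X _) (rel_pull hN θ hF f (hφ Y m))
        push := fun {X Y} f hf m => rel_unique hN θ hI (hφ Y _) (rel_push hN θ hR f hf (hφ X m)) }
    refine ⟨Φ, ?_⟩
    apply NatTrans.ext
    funext A
    obtain ⟨⟨K⟩⟩ := A
    apply ModuleCat.hom_ext
    apply LinearMap.ext
    intro x
    obtain ⟨m, rfl⟩ := mkE_surj hN M x
    have h1 := hφ (orb K) m ⟨K, MulActionHom.id G, fun _ => O.refl _⟩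
    simp only at h1
    rw [N.pull_id, M.pull_id] at h1
    exact h1

theorem essSurj (hN : stmNil) (hE : ∀ (V : DFun O),
    ∃ (N : Mackey O) (π : ∀ K : Subgroup G, N.M (orb K) →ₗ[ℚ] V.obj (Opposite.op ⟨K⟩)),
    (∀ K, Function.Surjective (π K)) ∧ (∀ K, LinearMap.ker (π K) = nil N (orb K)) ∧
    ∀ (J K : Subgroup G) (u : orb J →[G] orb K) (hu : DMap O u) (m : N.M (orb K)),
      V.res u hu (π K m) = π J (N.pull u m)) :
    (EFun (O := O) hN).EssSurj where
  mem_essImage V := by
    obtain ⟨N, π, h1, h2, h3⟩ := hE V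
    refine ⟨N, ⟨NatIso.ofComponents (fun A => LinearEquiv.toModuleIso
      ((Submodule.quotEquivOfEq _ _ (h2 A.unop.K).symm).trans
        (LinearMap.quotKerEquivOfSurjective (π A.unop.K) (h1 A.unop.K)))) ?_⟩⟩
    intro A B f
    ext x
    obtain ⟨m, rfl⟩ := Submodule.mkQ_surjective _ x
    have h4 := h3 B.unop.K A.unop.K f.unop.1 f.unop.2 m
    exact h4.symm

theorem mackey_equiv (hN : stmNil) (hF : stmFac)
    (hI : ∀ (M : Mackey O) (X : GSet G) (m : M.M X),
      (∀ i : Idx O X, M.pull i.f m ∈ nil M (orb i.K)) → m = 0)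
    (hS : ∀ (M : Mackey O) (X : GSet G) (v : ∀ i : Idx O X, M.M (orb i.K)),
      (∀ (i j : Idx O X) (a : orb i.K →[G] orb j.K), DMap O a → (∀ x, j.f (a x) = i.f x) →
      v i - M.pull a (v j) ∈ nil M (orb i.K)) → ∃ m : M.M X, ∀ i,
      M.pull i.f m - v i ∈ nil M (orb i.K))
    (hR : ∀ (M : Mackey O)
      (X Y : GSet G) (p : X →[G] Y) (hp : Adm O p) (K : Subgroup G) (f : orb K →[G] Y) (m : M.M X),
      M.pull f (M.push p hp m) - ∑ k : Sect p f, M.pull k.1 m ∈ nil M (orb K))
    (hE : ∀ (V : DFun O),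
      ∃ (N : Mackey O) (π : ∀ K : Subgroup G, N.M (orb K) →ₗ[ℚ] V.obj (Opposite.op ⟨K⟩)),
      (∀ K, Function.Surjective (π K)) ∧ (∀ K, LinearMap.ker (π K) = nil N (orb K)) ∧
      ∀ (J K : Subgroup G) (u : orb J →[G] orb K) (hu : DMap O u) (m : N.M (orb K)),
        V.res u hu (π K m) = π J (N.pull u m)) :
    Nonempty (Mackey O ≌ DFun O) := by
  have := faithful hN hI
  have := full hN hF hI hS hR
  have := essSurj hN hE
  have : (EFun (O := O) hN).IsEquivalence := {}
  exact ⟨(EFun (O := O) hN).asEquivalence⟩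

end Pool.Agent.R722.MK
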