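import Pool.Agent.R722.MK.Stm

/-!
MK-EPS (MP_093cae_al)
-/

set_option autoImplicit false

namespace Pool.Agent.R722.MK

open CategoryTheory CategoryTheory.Limits MulAction

namespace EpsAux

variable {G : Type} [Group G] [Finite G] {O : TransferSystem G}

theorem res_comp (V : DFun O) {J K L : Subgroup G} (a : orb J →[G] orb K) (ha : DMap O a)
    (b : orb K →[G] orb L) (hb : DMap O b) (m : V.obj (Opposite.op ⟨L⟩)) :
    V.res a ha (V.res b hb m) = V.res (b.comp a) (ha.comp hb) m := by
  have h := congrArg (fun φ => φ.hom m) (V.map_comp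
    (Quiver.Hom.op (⟨b, hb⟩ : (⟨K⟩ : Orb O) ⟶ ⟨L⟩))
    (Quiver.Hom.op (⟨a, ha⟩ : (⟨J⟩ : Orb O) ⟶ ⟨K⟩)))
  exact h.symm

theorem res_id (V : DFun O) {K : Subgroup G} (m : V.obj (Opposite.op ⟨K⟩)) :
    V.res (MulActionHom.id G) (DMap.id _) m = m := by
  show (V.map (𝟙 (Opposite.op (⟨K⟩ : Orb O)))).hom m = m
  rw [V.map_id]
  rfl

theorem res_congr (V : DFun O) {J K : Subgroup G} {a b : orb J →[G] orb K} (h : a = b)
    (ha : DMap O a) (hb : DMap O b) (m : V.obj (Opposite.op ⟨K⟩)) : V.res a ha m = V.res b hb m := by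
  subst h
  rfl

theorem dense_up {K P H : Subgroup G} (h : Dense O K H) (h1 : K ≤ P) (h2 : P ≤ H) :
    Dense O P H := ⟨h2, fun R hR hP => h.2 R hR (h1.trans hP)⟩

theorem st_le {X Y : GSet G} (f : X →[G] Y) (x : X) : stabilizer G x ≤ stabilizer G (f x) := by
  intro s hs
  rw [mem_stabilizer_iff] at hs ⊢
  rw [← map_smul, hs]

open Classical in
/-- the concentrated section -/
noncomputable def conc (hs : ∀ (K P : Subgroup G) (f : orb K →[G] orb P), Function.Surjective f)
    (V : DFun O) (K : Subgroup G) (b : V.obj (Opposite.op ⟨K⟩)) : sec V (orb K) :=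
  ⟨fun i => if h : DMap O i.f then V.res i.f h b else 0, by
    intro i j a ha hx
    have hia : i.f = j.f.comp a := MulActionHom.ext fun x => (hx x).symm
    show V.res a ha (if h : DMap O j.f then V.res j.f h b else 0) =
      (if h : DMap O i.f then V.res i.f h b else 0)
    by_cases hj : DMap O j.f
    · have hi : DMap O i.f := by
        rw [hia]
        exact ha.comp hj
      rw [dif_pos hj, dif_pos hi, res_comp]
      exact res_congr V hia.symm _ _ b
    · have hi : ¬ DMap O i.f := fun hi => hj fun y => by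
        obtain ⟨x, rfl⟩ := hs _ _ a y
        have h1 := hi x
        rw [← hx x] at h1
        exact dense_up h1 (st_le a x) (st_le j.f (a x))
      rw [dif_neg hj, dif_neg hi, map_zero]⟩

theorem conc_pos (hs : ∀ (K P : Subgroup G) (f : orb K →[G] orb P), Function.Surjective f)
    (V : DFun O) (K : Subgroup G) (b : V.obj (Opposite.op ⟨K⟩)) (i : Idx O (orb K))
    (h : DMap O i.f) : (conc hs V K b).1 i = V.res i.f h b := dif_pos h

theorem conc_neg (hs : ∀ (K P : Subgroup G) (f : orb K →[G] orb P), Function.Surjective f)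
    (V : DFun O) (K : Subgroup G) (b : V.obj (Opposite.op ⟨K⟩)) (i : Idx O (orb K))
    (h : ¬ DMap O i.f) : (conc hs V K b).1 i = 0 := dif_neg h

theorem conc_zero (hs : ∀ (K P : Subgroup G) (f : orb K →[G] orb P), Function.Surjective f)
    (V : DFun O) (K : Subgroup G) : conc hs V K 0 = 0 := by
  apply Subtype.ext
  funext i
  by_cases h : DMap O i.f
  · rw [conc_pos hs V K 0 i h, map_zero]
    rfl
  · rw [conc_neg hs V K 0 i h]
    rfl

/-- the index of the identity -/
abbrev idI (O : TransferSystem G) (K : Subgroup G) : Idx O (orb K) :=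
  ⟨K, MulActionHom.id G, fun _ => O.refl _⟩

/-- evaluation of a section -/
noncomputable def ev (V : DFun O) {X : GSet G} (i : Idx O X) :
    sec V X →ₗ[ℚ] V.obj (Opposite.op ⟨i.K⟩) :=
  (LinearMap.proj i).comp (sec V X).subtype

theorem ev_apply (V : DFun O) {X : GSet G} (i : Idx O X) (s : sec V X) : ev V i s = s.1 i := rfl

/-- the dense sections -/
def isoEquiv {X : GSet G} (g f : Idx O X) :
    {k : Sect f.f g.f // DMap O k.1} ≃ IsoSet g f where
  toFun k := ⟨k.1.1, k.2, k.1.2⟩
  invFun k := ⟨⟨k.1, k.2.2⟩, k.2.1⟩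
  left_inv _ := rfl
  right_inv _ := rfl

theorem sum_conc (hs : ∀ (K P : Subgroup G) (f : orb K →[G] orb P), Function.Surjective f)
    (V : DFun O) {X : GSet G} (v : sec V X) (g f : Idx O X) :
    ∑ k : Sect f.f g.f, (conc hs V f.K (v.1 f)).1 ⟨g.K, k.1, g.adm.of_comp k.2⟩ =
      (Fintype.card (IsoSet g f) : ℚ) • v.1 g := by
  classical
  have h1 : ∀ k : Sect f.f g.f, (conc hs V f.K (v.1 f)).1 ⟨g.K, k.1, g.adm.of_comp k.2⟩ =
      if DMap O k.1 then v.1 g else 0 := by
    intro k
    by_cases h : DMap O k.1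
    · rw [conc_pos hs V f.K (v.1 f) ⟨g.K, k.1, g.adm.of_comp k.2⟩ h, if_pos h]
      exact v.2 g f k.1 h k.2
    · rw [conc_neg hs V f.K (v.1 f) ⟨g.K, k.1, g.adm.of_comp k.2⟩ h, if_neg h]
  rw [Finset.sum_congr rfl fun k _ => h1 k, ← Finset.sum_filter, Finset.sum_const,
    ← Fintype.card_subtype, Fintype.card_congr (isoEquiv g f), Nat.cast_smul_eq_nsmul]

/-- base point -/
def bp (K : Subgroup G) : orb K := ((1 : G) : G ⧸ K)

theorem exists_trans {K : Subgroup G} (x y : orb K) : ∃ s : G, y = s • x := by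
  have h : ∀ x : orb K, ∃ s : G, x = s • bp K := by
    intro x
    obtain ⟨s, hs⟩ := QuotientGroup.mk_surjective (s := K) x
    refine ⟨s, ?_⟩
    rw [← hs]
    show ((s : G) : G ⧸ K) = s • ((1 : G) : G ⧸ K)
    rw [MulAction.Quotient.smul_coe, smul_eq_mul, mul_one]
  obtain ⟨a, rfl⟩ := h x
  obtain ⟨b, rfl⟩ := h y
  exact ⟨b * a⁻¹, by rw [smul_smul, inv_mul_cancel_right]⟩

theorem proper_of {X : GSet G} {K : Subgroup G} (f : orb K →[G] X) (h : ¬ DMap O f) :
    ∀ y, stabilizer G y ≠ stabilizer G (f y) := by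
  intro y hy
  apply h
  intro x
  obtain ⟨s, rfl⟩ := exists_trans y x
  rw [map_smul, stabilizer_smul_eq_stabilizer_map_conj, stabilizer_smul_eq_stabilizer_map_conj, hy]
  exact Dense.refl _

end EpsAux

open EpsAux in
theorem eps : stmEps := by
  intro hfac hmv hcount G _ _ O V
  have hs : ∀ (K P : Subgroup G) (f : orb K →[G] orb P), Function.Surjective f := (hfac G O).2.2
  obtain ⟨N, e, hpull, hpush⟩ := hmv G O V
  have hG : (Nat.card G : ℚ) ≠ 0 := Nat.cast_ne_zero.2 Nat.card_pos.ne'
  have key : ∀ (X : GSet G) (m : N.M X), m = ∑ f : Idx O X, ((Nat.card f.K : ℚ) / Nat.card G) •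
      N.push f.f f.adm ((e (orb f.K)).symm (conc hs V f.K ((e X m).1 f))) := by
    intro X m
    apply (e X).injective
    apply Subtype.ext
    funext g
    show ev V g (e X m) = ev V g (e X _)
    rw [map_sum, map_sum]
    have h1 : ∀ f : Idx O X, ev V g (e X (((Nat.card f.K : ℚ) / Nat.card G) •
        N.push f.f f.adm ((e (orb f.K)).symm (conc hs V f.K ((e X m).1 f))))) =
        (((Fintype.card (IsoSet g f) : ℚ) * Nat.card f.K) / Nat.card G) • (e X m).1 g := by
      intro f
      rw [map_smul, map_smul, ev_apply, hpush, LinearEquiv.apply_symm_apply, sum_conc, smul_smul]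
      congr 1
      ring
    rw [Finset.sum_congr rfl fun f _ => h1 f, ← Finset.sum_smul, ← Finset.sum_div,
      ((hcount G O X).2.1 g), div_self hG, one_smul]
    rfl
  let π : ∀ K : Subgroup G, N.M (orb K) →ₗ[ℚ] V.obj (Opposite.op ⟨K⟩) :=
    fun K => (ev V (idI O K)).comp (e (orb K)).toLinearMap
  have hπ : ∀ K m, π K m = (e (orb K) m).1 (idI O K) := fun _ _ => rfl
  refine ⟨N, π, fun K b => ?_, fun K => ?_, fun J K u hu m => ?_⟩
  · refine ⟨(e (orb K)).symm (conc hs V K b), ?_⟩
    rw [hπ, LinearEquiv.apply_symm_apply, conc_pos hs V K b (idI O K) (DMap.id _)]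
    exact res_id V b
  · apply le_antisymm
    · intro m hm
      have hm' : (e (orb K) m).1 (idI O K) = 0 := hm
      rw [key (orb K) m]
      refine Submodule.sum_mem _ fun f _ => Submodule.smul_mem _ _ ?_
      by_cases hf : DMap O f.f
      · have h1 := (e (orb K) m).2 f (idI O K) f.f hf fun x => rfl
        rw [hm', map_zero] at h1
        rw [← h1, conc_zero, map_zero, map_zero]
        exact Submodule.zero_mem _
      · exact Submodule.subset_span ⟨orb f.K, f.f, f.adm, proper_of f.f hf, _, rfl⟩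
    · refine Submodule.span_le.2 ?_
      rintro m ⟨Y, f, hf, hprop, n, rfl⟩
      show π K _ = 0
      rw [hπ, hpush]
      have hemp : IsEmpty (Sect f (idI O K).f) := by
        constructor
        intro k
        have h1 := st_le k.1 (bp K)
        have h2 := st_le f (k.1 (bp K))
        have h3 : f (k.1 (bp K)) = bp K := k.2 _
        apply hprop (k.1 (bp K))
        refine le_antisymm h2 ?_
        rw [h3]
        exact h1
      exact Finset.sum_of_isEmpty _
  · exact (hpull (orb J) (orb K) u m (idI O J) (idI O K) u hu fun x => rfl).symm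

end Pool.Agent.R722.MK
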