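import Pool.Agent.R722.MK.Stm

/-! Piece MK-FAC. -/

set_option autoImplicit false

namespace Pool.Agent.R722.MK

open MulAction

namespace FacAux

variable {G : Type} [Group G]

theorem map_map_conj (K : Subgroup G) (g h : G) :
    (K.map (MulAut.conj g).toMonoidHom).map (MulAut.conj h).toMonoidHom =
      K.map (MulAut.conj (h * g)).toMonoidHom := by
  rw [Subgroup.map_map]
  congr 1
  ext x
  simp

theorem map_conj_one (K : Subgroup G) : K.map (MulAut.conj (1 : G)).toMonoidHom = K := by
  ext x
  simp [Subgroup.mem_map]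

theorem dense_conj {O : TransferSystem G} {K H : Subgroup G} (g : G) (h : Dense O K H) :
    Dense O (K.map (MulAut.conj g).toMonoidHom) (H.map (MulAut.conj g).toMonoidHom) := by
  refine ⟨Subgroup.map_mono h.1, fun P hP hK => ?_⟩
  have h1 := O.conj g⁻¹ hP
  rw [map_map_conj, inv_mul_cancel, map_conj_one] at h1
  have h2 : K ≤ P.map (MulAut.conj g⁻¹).toMonoidHom := by
    have h3 := Subgroup.map_mono (f := (MulAut.conj g⁻¹).toMonoidHom) hK
    rw [map_map_conj, inv_mul_cancel, map_conj_one] at h3
    exact h3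
  have h4 := h.2 _ h1 h2
  rw [← h4, map_map_conj, mul_inv_cancel, map_conj_one]

theorem stab_le {X Y : GSet G} (f : X →[G] Y) (x : X) : stabilizer G x ≤ stabilizer G (f x) := by
  intro s hs
  rw [mem_stabilizer_iff] at hs ⊢
  rw [← map_smul, hs]

theorem stab_smul {X : GSet G} (g : G) (x : X) :
    stabilizer G (g • x) = (stabilizer G x).map (MulAut.conj g).toMonoidHom :=
  stabilizer_smul_eq_stabilizer_map_conj g x

variable [Finite G]

/-- the base point -/
def bp (K : Subgroup G) : orb K := ((1 : G) : G ⧸ K)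

theorem stab_bp (K : Subgroup G) : stabilizer G (bp K) = K := stabilizer_quotient K

theorem ex_smul {K : Subgroup G} (x y : orb K) : ∃ g : G, g • x = y :=
  MulAction.exists_smul_eq (M := G) (α := G ⧸ K) x y

/-- the map out of an orbit given by a point -/
def mk (P : Subgroup G) {Z : GSet G} (z : Z) (hz : P ≤ stabilizer G z) : orb P →[G] Z where
  toFun := fun x => Quotient.liftOn' (s₁ := QuotientGroup.leftRel P) x (fun g : G => g • z) (by
    intro a b hab
    rw [QuotientGroup.leftRel_apply] at hab
    have h := hz hab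
    rw [mem_stabilizer_iff, mul_smul] at h
    change a • z = b • z
    rw [← h, smul_inv_smul, h])
  map_smul' := by
    intro g x
    induction x using Quotient.inductionOn' with
    | h a =>
      change (g * a) • z = g • (a • z)
      rw [mul_smul]

theorem mk_bp (P : Subgroup G) {Z : GSet G} (z : Z) (hz : P ≤ stabilizer G z) :
    mk P z hz (bp P) = z := one_smul G z

end FacAux

open FacAux

theorem fac : stmFac := by
  intro G _ _ O
  have h3 : ∀ (K P : Subgroup G) (f : orb K →[G] orb P), Function.Surjective f := by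
    intro K P f y
    obtain ⟨g, hg⟩ := ex_smul (f (bp K)) y
    exact ⟨g • bp K, by rw [map_smul, hg]⟩
  refine ⟨?_, ?_, h3⟩
  · intro K Z f
    set x0 := f (bp K) with hx0
    have hK : K ≤ stabilizer G x0 := by
      have := stab_le f (bp K)
      rwa [stab_bp] at this
    have hfin : {P : Subgroup G | O.rel P (stabilizer G x0) ∧ K ≤ P}.Finite := Set.toFinite _
    obtain ⟨P, ⟨hP1, hP2⟩, hPmin⟩ := hfin.exists_minimal ⟨stabilizer G x0, O.refl _, hK⟩
    have hdense : Dense O K P := by
      refine ⟨hP2, fun R hR hKR => ?_⟩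
      exact le_antisymm (O.le hR) (hPmin ⟨O.trans hR hP1, hKR⟩ (O.le hR))
    refine ⟨P, mk K (bp P) (by rw [stab_bp]; exact hP2), mk P x0 (O.le hP1), ?_, ?_, ?_⟩
    · intro x
      obtain ⟨g, rfl⟩ := ex_smul (bp K) x
      rw [map_smul, mk_bp, stab_smul, stab_smul, stab_bp, stab_bp]
      exact dense_conj g hdense
    · intro y
      obtain ⟨g, rfl⟩ := ex_smul (bp P) y
      rw [map_smul, mk_bp, stab_smul, stab_smul, stab_bp]
      exact O.conj g hP1
    · intro x
      obtain ⟨g, rfl⟩ := ex_smul (bp K) x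
      rw [map_smul, mk_bp, map_smul, mk_bp, map_smul]
  · intro K P Y Z u h u' h' hu hh' hcomm
    have h1 := hh' (u' (bp K))
    rw [← hcomm] at h1
    have h2 := O.restrict h1 (stab_le h (u (bp K)))
    have h4 := (hu (bp K)).2 _ h2 (le_inf (stab_le u' _) (stab_le u _))
    have h5 : stabilizer G (u (bp K)) ≤ stabilizer G (u' (bp K)) := by
      rw [← h4]
      exact inf_le_left
    obtain ⟨p, hp⟩ := ex_smul (bp P) (u (bp K))
    have h6 : P ≤ stabilizer G (p⁻¹ • u' (bp K)) := by
      intro s hs
      have hs' : s ∈ stabilizer G (bp P) := by rwa [stab_bp]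
      have h7 : p * s * p⁻¹ ∈ stabilizer G (u (bp K)) := by
        rw [mem_stabilizer_iff] at hs' ⊢
        rw [← hp, mul_smul, mul_smul, inv_smul_smul, hs']
      have h8 := h5 h7
      rw [mem_stabilizer_iff] at h8 ⊢
      rw [mul_smul, mul_smul] at h8
      rw [eq_inv_smul_iff]
      exact h8
    have hau : ∀ x, mk P (p⁻¹ • u' (bp K)) h6 (u x) = u' x := by
      intro x
      obtain ⟨g, rfl⟩ := ex_smul (bp K) x
      rw [map_smul, ← hp, map_smul, map_smul, mk_bp, smul_inv_smul, map_smul]
    refine ⟨mk P (p⁻¹ • u' (bp K)) h6, hau, ?_⟩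
    intro y
    obtain ⟨x, rfl⟩ := h3 K P u y
    rw [hau, hcomm]

end Pool.Agent.R722.MK
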