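import Pool.Agent.R722.MK.Stm

/-!
# MP_093cae_al (project MK): piece MK-FILT
-/

set_option autoImplicit false

namespace Pool.Agent.R722.MK

open CategoryTheory CategoryTheory.Limits MulAction

namespace FiltP

section General

variable {C : Type} [Category.{0} C] (X : C ⥤ ModuleCat.{0} ℚ) (F : ∀ A : C, Submodule ℚ (X.obj A))
  (hF : ∀ {A B : C} (f : A ⟶ B), F A ≤ (F B).comap (X.map f).hom)

/-- subfunctor -/
noncomputable def subF : C ⥤ ModuleCat.{0} ℚ where
  obj A := ModuleCat.of ℚ (F A)
  map {A B} f := ModuleCat.ofHom ((X.map f).hom.restrict (fun _ hx => hF f hx))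
  map_id A := by
    ext x
    simp
  map_comp f g := by
    ext x
    simp

/-- quotient functor -/
noncomputable def quoF : C ⥤ ModuleCat.{0} ℚ where
  obj A := ModuleCat.of ℚ (X.obj A ⧸ F A)
  map {A B} f := ModuleCat.ofHom (Submodule.mapQ (F A) (F B) (X.map f).hom (hF f))
  map_id A := by
    apply ModuleCat.hom_ext
    apply Submodule.linearMap_qext
    ext x
    simp
  map_comp f g := by
    apply ModuleCat.hom_ext
    apply Submodule.linearMap_qext
    ext x
    simp

/-- inclusion -/
noncomputable def incF : subF X F hF ⟶ X where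
  app A := ModuleCat.ofHom (F A).subtype
  naturality A B f := by
    ext x
    rfl

/-- projection -/
noncomputable def proF : X ⟶ quoF X F hF where
  app A := ModuleCat.ofHom (F A).mkQ
  naturality A B f := by
    ext x
    rfl

theorem zeroF : incF X F hF ≫ proF X F hF = 0 := by
  ext A x
  show (F A).mkQ ((F A).subtype x) = 0
  rw [Submodule.mkQ_apply, Submodule.Quotient.mk_eq_zero]
  exact x.2

theorem shortExact : (ShortComplex.mk (incF X F hF) (proF X F hF) (zeroF X F hF)).ShortExact := by
  have hmono : Mono (incF X F hF) := by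
    have : ∀ A, Mono ((incF X F hF).app A) := fun A =>
      (ModuleCat.mono_iff_injective _).2 Subtype.val_injective
    exact NatTrans.mono_of_mono_app _
  have hepi : Epi (proF X F hF) := by
    have : ∀ A, Epi ((proF X F hF).app A) := fun A =>
      (ModuleCat.epi_iff_surjective _).2 (Submodule.mkQ_surjective _)
    exact NatTrans.epi_of_epi_app _
  refine ShortComplex.ShortExact.mk' ?_ hmono hepi
  apply ShortComplex.exact_of_f_is_kernel
  have hker : ∀ {Z : C ⥤ ModuleCat.{0} ℚ} (g : Z ⟶ X) (hg : g ≫ proF X F hF = 0) (A : C)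
      (z : Z.obj A), (g.app A).hom z ∈ F A := by
    intro Z g hg A z
    have h1 := congrArg (fun t : Z ⟶ quoF X F hF => (t.app A).hom z) hg
    have h2 : (F A).mkQ ((g.app A).hom z) = 0 := h1
    rwa [Submodule.mkQ_apply, Submodule.Quotient.mk_eq_zero] at h2
  refine KernelFork.IsLimit.ofι' (incF X F hF) (zeroF X F hF) fun {Z} g hg => ?_
  refine ⟨⟨fun A => ModuleCat.ofHom ((g.app A).hom.codRestrict (F A) (hker g hg A)), ?_⟩, ?_⟩
  · intro A B f
    ext z
    apply Subtype.ext
    have := congrArg (fun t : Z.obj A ⟶ X.obj B => t.hom z) (g.naturality f)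
    exact this
  · ext A z
    rfl

end General

variable {G : Type} [Group G] [Finite G]

theorem orb_surj {J K : Subgroup G} (u : orb J →[G] orb K) : Function.Surjective u := by
  intro y
  let e : orb J := (QuotientGroup.mk (1 : G) : G ⧸ J)
  obtain ⟨g, hg⟩ := MulAction.exists_smul_eq (M := G) (α := G ⧸ K) (u e) y
  exact ⟨g • e, by rw [map_smul]; exact hg⟩

theorem card_orb (J : Subgroup G) : Nat.card G = Nat.card (orb J) * Nat.card J :=
  Subgroup.card_eq_card_quotient_mul_card_subgroup J

theorem card_pos (J : Subgroup G) : 0 < Nat.card J := Nat.card_pos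

theorem card_le {J K : Subgroup G} (u : orb J →[G] orb K) : Nat.card J ≤ Nat.card K := by
  have h1 : Nat.card (orb K) ≤ Nat.card (orb J) := Nat.card_le_card_of_surjective u (orb_surj u)
  have h2 := card_orb J
  have h3 := card_orb K
  have h4 : 0 < Nat.card (orb J) := by
    rcases Nat.eq_zero_or_pos (Nat.card (orb J)) with h | h
    · rw [h, zero_mul] at h2
      exact absurd h2 Nat.card_pos.ne'
    · exact h
  by_contra hcon
  have h5 : Nat.card (orb K) * Nat.card K < Nat.card (orb J) * Nat.card J :=
    Nat.mul_lt_mul_of_le_of_lt h1 (not_le.1 hcon) h4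
  omega

theorem card_lt {J K : Subgroup G} (u : orb J →[G] orb K) (hu : ¬ Function.Bijective u) :
    Nat.card J < Nat.card K := by
  refine lt_of_le_of_ne (card_le u) fun h => hu ?_
  have h2 := card_orb J
  have h3 := card_orb K
  rw [h2, h] at h3
  have h4 : Nat.card (orb J) = Nat.card (orb K) :=
    Nat.eq_of_mul_eq_mul_right (card_pos K) h3
  exact (Nat.bijective_iff_surjective_and_card _).2 ⟨orb_surj u, h4⟩

omit [Finite G] in
theorem dmap_of_bij (O : TransferSystem G) {X Y : GSet G} (u : X →[G] Y)
    (hu : Function.Injective u) : DMap O u := by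
  intro x
  have h : stabilizer G (u x) = stabilizer G x := by
    ext g
    rw [mem_stabilizer_iff, mem_stabilizer_iff, ← map_smul]
    exact hu.eq_iff
  rw [h]
  exact Dense.refl _

section Ext

variable {O O' : TransferSystem G} (hO : ∀ K H, O.rel K H → O'.rel K H)

open Classical in
/-- the functor on the smaller category -/
noncomputable def ext (X : DFun O') : DFun O where
  obj A := X.obj (Opposite.op ⟨A.unop.K⟩)
  map {A B} f := if h : Function.Bijective f.unop.1 then
      X.map (Quiver.Hom.op (⟨f.unop.1, dmap_of_bij O' _ h.1⟩ :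
        (⟨B.unop.K⟩ : Orb O') ⟶ ⟨A.unop.K⟩))
    else 0
  map_id A := by
    have h : Function.Bijective (𝟙 A : A ⟶ A).unop.1 := Function.bijective_id
    rw [dif_pos h]
    exact X.map_id _
  map_comp {A B C} f g := by
    by_cases hf : Function.Bijective f.unop.1
    · by_cases hg : Function.Bijective g.unop.1
      · have h : Function.Bijective (f ≫ g).unop.1 := hf.comp hg
        rw [dif_pos hf, dif_pos hg, dif_pos h, ← X.map_comp]
        rfl
      · have h : ¬ Function.Bijective (f ≫ g).unop.1 := by
          intro h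
          apply hg
          have h1 : Function.Injective (f.unop.1 ∘ g.unop.1) := h.1
          exact ⟨h1.of_comp, orb_surj _⟩
        rw [dif_neg hg, dif_neg h, comp_zero]
    · have h : ¬ Function.Bijective (f ≫ g).unop.1 := by
        intro h
        apply hf
        have h1 : Function.Injective (f.unop.1 ∘ g.unop.1) := h.1
        refine ⟨?_, orb_surj _⟩
        intro a b hab
        obtain ⟨a', rfl⟩ := orb_surj g.unop.1 a
        obtain ⟨b', rfl⟩ := orb_surj g.unop.1 b
        rw [h1 hab]
      rw [dif_neg hf, dif_neg h, zero_comp]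

omit [Finite G] in
theorem ext_map_pos [Finite G] (X : DFun O') {A B : (Orb O)ᵒᵖ} (f : A ⟶ B)
    (h : Function.Bijective f.unop.1) : (ext (O := O) X).map f =
      X.map (Quiver.Hom.op (⟨f.unop.1, dmap_of_bij O' _ h.1⟩ :
        (⟨B.unop.K⟩ : Orb O') ⟶ ⟨A.unop.K⟩)) := dif_pos h

omit [Finite G] in
theorem ext_map_neg [Finite G] (X : DFun O') {A B : (Orb O)ᵒᵖ} (f : A ⟶ B)
    (h : ¬ Function.Bijective f.unop.1) : (ext (O := O) X).map f = 0 := dif_neg h

/-- a functor which vanishes on the maps which are not bijective is a restriction -/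
theorem iso_ext (X : DFun O') (hX : ∀ (A B : (Orb O')ᵒᵖ) (f : A ⟶ B),
    ¬ Function.Bijective f.unop.1 → X.map f = 0) :
    Nonempty ((incO hO).op ⋙ ext (O := O) X ≅ X) := by
  refine ⟨NatIso.ofComponents (fun A => Iso.refl _) ?_⟩
  intro A B f
  have h1 : ((incO hO).op ⋙ ext (O := O) X).map f = X.map f := by
    by_cases hf : Function.Bijective f.unop.1
    · exact ext_map_pos X ((incO hO).op.map f) hf
    · exact (ext_map_neg X ((incO hO).op.map f) hf).trans (hX A B f hf).symm
  exact (Category.comp_id _).trans (h1.trans (Category.id_comp _).symm)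

/-- the filtration -/
noncomputable def fil (X : DFun O') (k : ℕ) (A : (Orb O')ᵒᵖ) : Submodule ℚ (X.obj A) :=
  if Nat.card A.unop.K < k then ⊤ else ⊥

theorem fil_map (X : DFun O') (k : ℕ) {A B : (Orb O')ᵒᵖ} (f : A ⟶ B) :
    fil X k A ≤ (fil X k B).comap (X.map f).hom := by
  intro x hx
  by_cases hA : Nat.card A.unop.K < k
  · have hB : Nat.card B.unop.K < k := (card_le f.unop.1).trans_lt hA
    rw [Submodule.mem_comap, fil, if_pos hB]
    trivial
  · rw [fil, if_neg hA, Submodule.mem_bot] at hx
    rw [hx]
    exact Submodule.zero_mem _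

theorem main (Q : DFun O' → Prop) (hQ1 : ∀ X Y : DFun O', Nonempty (X ≅ Y) → Q X → Q Y)
    (hQ2 : ∀ S : ShortComplex (DFun O'), S.ShortExact → Q S.X₁ → Q S.X₃ → Q S.X₂)
    (hQ3 : ∀ W : DFun O, Q ((incO hO).op ⋙ W)) (k : ℕ) : ∀ X : DFun O',
    (∀ A : (Orb O')ᵒᵖ, k ≤ Nat.card A.unop.K → Subsingleton (X.obj A)) → Q X := by
  have hL : ∀ X : DFun O', (∀ (A B : (Orb O')ᵒᵖ) (f : A ⟶ B),
      ¬ Function.Bijective f.unop.1 → X.map f = 0) → Q X := fun X hX =>
    hQ1 _ _ (iso_ext hO X hX) (hQ3 _)
  induction k with
  | zero =>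
    intro X hX
    apply hL
    intro A B f _
    have := hX A (Nat.zero_le _)
    ext x
    rw [Subsingleton.elim x 0, map_zero, map_zero]
  | succ k ih =>
    intro X hX
    refine hQ2 _ (shortExact X (fil X k) (fun f => fil_map X k f)) ?_ ?_
    · apply ih
      intro A hA
      show Subsingleton (fil X k A)
      rw [fil, if_neg (not_lt.2 hA)]
      infer_instance
    · apply hL
      intro A B f hf
      have hlt := card_lt f.unop.1 hf
      show (quoF X (fil X k) (fun f => fil_map X k f)).map f = 0
      apply ModuleCat.hom_ext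
      apply LinearMap.ext
      intro x
      by_cases hA : k + 1 ≤ Nat.card A.unop.K
      · have h1 := hX A hA
        have h2 : Subsingleton ((quoF X (fil X k) (fun f => fil_map X k f)).obj A) :=
          inferInstanceAs (Subsingleton (X.obj A ⧸ fil X k A))
        rw [Subsingleton.elim x 0, map_zero, map_zero]
      · have hB : Nat.card B.unop.K < k := by omega
        have h2 : Subsingleton ((quoF X (fil X k) (fun f => fil_map X k f)).obj B) := by
          show Subsingleton (X.obj B ⧸ fil X k B)
          rw [Submodule.Quotient.subsingleton_iff, fil, if_pos hB]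
        exact Subsingleton.elim _ _

end Ext

end FiltP

theorem filt : stmFilt := by
  intro G _ _ O O' hO Q hQ1 hQ2 hQ3 X
  refine FiltP.main hO Q hQ1 hQ2 hQ3 (Nat.card G + 1) X fun A hA => ?_
  have := Subgroup.card_le_card_group A.unop.K
  omega

end Pool.Agent.R722.MK
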