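import Pool.Agent.R722.MK.Defs

/-!
# Rational incomplete Mackey functors as functors on spans (project MK)

The definition used in the final statement, and its equivalence with `SpanMackey`.
-/

set_option autoImplicit false

namespace Pool.Agent.R722.MK

open CategoryTheory CategoryTheory.Limits MulAction

variable {G : Type} [Group G]

/-- A map of finite `G`-sets. -/
structure GMap (X Y : GSet G) where
  f : X → Y
  equi : ∀ (g : G) (x : X), f (g • x) = g • f x

variable {O : TransferSystem G}

/-- A span `X ← U → Y` of finite `G`-sets whose right leg is admissible. -/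
structure Span (O : TransferSystem G) (X Y : GSet G) where
  U : GSet G
  l : GMap U X
  r : GMap U Y
  adm : ∀ u, O.rel (stabilizer G u) (stabilizer G (r.f u))

/-- The spans `S` and `T` are isomorphic. -/
def Span.Iso {X Y : GSet G} (S T : Span O X Y) : Prop :=
  ∃ φ : GMap S.U T.U, Function.Bijective φ.f ∧ (∀ u, T.l.f (φ.f u) = S.l.f u) ∧
    ∀ u, T.r.f (φ.f u) = S.r.f u

/-- `S` is (isomorphic to) the identity span `X ← X → X`. -/
def Span.IsId {X : GSet G} (S : Span O X X) : Prop :=
  Function.Bijective S.l.f ∧ ∀ u, S.r.f u = S.l.f u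

/-- `W` is the composite of `S` and `T`: its middle term is the pullback, with projections `a`
and `b`. -/
def Span.IsComp {X Y Z : GSet G} (S : Span O X Y) (T : Span O Y Z) (W : Span O X Z) : Prop :=
  ∃ (a : GMap W.U S.U) (b : GMap W.U T.U), (∀ w, W.l.f w = S.l.f (a.f w)) ∧
    (∀ w, W.r.f w = T.r.f (b.f w)) ∧ (∀ w, S.r.f (a.f w) = T.l.f (b.f w)) ∧
    ∀ s t, S.r.f s = T.l.f t → ∃! w, a.f w = s ∧ b.f w = t

/-- `W` is the disjoint union of the spans `S i`. -/
def Span.IsSum {X Y : GSet G} {I : Type} (S : I → Span O X Y) (W : Span O X Y) : Prop :=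
  ∃ e : ∀ i, GMap (S i).U W.U, (∀ i u, W.l.f ((e i).f u) = (S i).l.f u) ∧
    (∀ i u, W.r.f ((e i).f u) = (S i).r.f u) ∧ ∀ w, ∃! p : Σ i, (S i).U, (e p.1).f p.2 = w

/-- A rational `O`-Mackey functor: a `ℚ`-linear functor from the rational `O`-Burnside category to
`ℚ`-vector spaces, given by its values on spans: isomorphic spans have the same value, identities
and composites (pullbacks) are respected, and disjoint unions of spans go to sums. -/
structure RMackey (O : TransferSystem G) where
  M : GSet G → ModuleCat.{0} ℚ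
  map : ∀ {X Y : GSet G}, Span O X Y → (M X ⟶ M Y)
  map_iso : ∀ {X Y : GSet G} (S T : Span O X Y), S.Iso T → map S = map T
  map_id : ∀ {X : GSet G} (S : Span O X X), S.IsId → map S = 𝟙 (M X)
  map_comp : ∀ {X Y Z : GSet G} (S : Span O X Y) (T : Span O Y Z) (W : Span O X Z),
    S.IsComp T W → map W = map S ≫ map T
  map_sum : ∀ {X Y : GSet G} (I : Type) [Fintype I] (S : I → Span O X Y) (W : Span O X Y),
    Span.IsSum S W → map W = ∑ i, map (S i)

/-- Natural transformations of rational `O`-Mackey functors. -/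
@[ext]
structure RMackey.Hom (M N : RMackey O) where
  app : ∀ X : GSet G, M.M X ⟶ N.M X
  nat : ∀ {X Y : GSet G} (S : Span O X Y), M.map S ≫ app Y = app X ≫ N.map S

instance (O : TransferSystem G) : Category (RMackey O) where
  Hom M N := RMackey.Hom M N
  id M := ⟨fun X => 𝟙 (M.M X), fun _ => by simp⟩
  comp φ ψ := ⟨fun X => φ.app X ≫ ψ.app X, fun S => by
    rw [← Category.assoc, φ.nat, Category.assoc, ψ.nat, Category.assoc]⟩
  id_comp φ := by apply RMackey.Hom.ext; funext X; exact Category.id_comp _
  comp_id φ := by apply RMackey.Hom.ext; funext X; exact Category.comp_id _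
  assoc φ ψ χ := by apply RMackey.Hom.ext; funext X; exact Category.assoc _ _ _

instance {O : TransferSystem G} (M N : RMackey O) : Zero (M ⟶ N) :=
  ⟨(⟨fun _ => 0, fun _ => by simp⟩ : RMackey.Hom M N)⟩

instance (O : TransferSystem G) : HasZeroMorphisms (RMackey O) where
  comp_zero φ N := by
    apply RMackey.Hom.ext; funext X; exact Limits.comp_zero
  zero_comp M {N K} φ := by
    apply RMackey.Hom.ext; funext X; exact Limits.zero_comp

namespace Fun

/-- an equivariant map as a `GMap` -/
def of {X Y : GSet G} (f : X →[G] Y) : GMap X Y := ⟨f, fun g x => map_smul f g x⟩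

/-- a `GMap` as an equivariant map -/
def hom {X Y : GSet G} (f : GMap X Y) : X →[G] Y where
  toFun := f.f
  map_smul' := f.equi

/-- the span with legs `l` and `r` -/
def mk {X U Y : GSet G} (l : U →[G] X) (r : U →[G] Y) (hr : Adm O r) : Span O X Y :=
  ⟨U, of l, of r, hr⟩

/-- the associated `SpanMackey` -/
def toSpan (N : RMackey O) : SpanMackey O where
  M X := N.M X
  map l r hr := (N.map (mk l r hr)).hom
  map_iso {X U V Y} l r l' r' hr hr' φ h1 h2 h3 := by
    rw [N.map_iso (mk l r hr) (mk l' r' hr') ⟨of φ, h1, h2, h3⟩]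
  map_id X h m := by
    rw [N.map_id _ ⟨Function.bijective_id, fun _ => rfl⟩]
    rfl
  map_comp {X U Y V Z P} l r l' r' a b h hr hr' h' m := by
    rw [N.map_comp (mk l r hr) (mk l' r' hr') (mk (l.comp a) (r'.comp b) h')
      ⟨of a, of b, fun _ => rfl, fun _ => rfl, h.1, h.2⟩]
    rfl
  map_add {X Y} I _ U l r hr h m := by
    rw [N.map_sum I (fun i => mk (l.comp (incl U i)) (r.comp (incl U i)) (h i)) (mk l r hr)
      ⟨fun i => of (incl U i), fun _ _ => rfl, fun _ _ => rfl, fun w => ⟨w, rfl, fun p hp => hp⟩⟩]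
    rw [ModuleCat.hom_sum, LinearMap.sum_apply]

/-- the `RMackey` of a `SpanMackey` -/
def ofSpan (N : SpanMackey O) : RMackey O where
  M X := ModuleCat.of ℚ (N.M X)
  map S := ModuleCat.ofHom (N.map (hom S.l) (hom S.r) S.adm)
  map_iso S T h := by
    obtain ⟨φ, h1, h2, h3⟩ := h
    rw [N.map_iso (hom S.l) (hom S.r) (hom T.l) (hom T.r) S.adm T.adm (hom φ) h1 h2 h3]
  map_id {X} S h := by
    have hid : Adm O (MulActionHom.id G : X →[G] X) := fun x => O.refl _
    rw [N.map_iso (hom S.l) (hom S.r) (MulActionHom.id G) (MulActionHom.id G) S.adm hid (hom S.l)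
      h.1 (fun _ => rfl) (fun u => (h.2 u).symm)]
    ext m
    exact N.map_id X hid m
  map_comp S T W h := by
    obtain ⟨a, b, h1, h2, h3, h4⟩ := h
    have hadm : Adm O ((hom T.r).comp (hom b)) := by
      intro w
      have := W.adm w
      rw [h2 w] at this
      exact this
    rw [N.map_iso (hom W.l) (hom W.r) ((hom S.l).comp (hom a)) ((hom T.r).comp (hom b)) W.adm hadm
      (MulActionHom.id G) Function.bijective_id (fun w => (h1 w).symm) (fun w => (h2 w).symm)]
    ext m
    exact N.map_comp (hom S.l) (hom S.r) (hom T.l) (hom T.r) (hom a) (hom b) ⟨h3, h4⟩ S.adm T.adm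
      hadm m
  map_sum {X Y} I _ S W h := by
    obtain ⟨e, h1, h2, h3⟩ := h
    let φ : sigma I (fun i => (S i).U) →[G] W.U :=
      { toFun := fun p => (e p.1).f p.2
        map_smul' := fun g p => (e p.1).equi g p.2 }
    have hφ : Function.Bijective φ := by
      constructor
      · intro p q hpq
        exact (h3 (φ q)).unique hpq rfl
      · intro w
        obtain ⟨p, hp, -⟩ := h3 w
        exact ⟨p, hp⟩
    have hst : ∀ p, stabilizer G (φ p) = stabilizer G p := by
      intro p
      ext g
      rw [mem_stabilizer_iff, mem_stabilizer_iff, ← map_smul]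
      exact hφ.1.eq_iff
    have hadm : Adm O ((hom W.r).comp φ) := by
      intro p
      have := W.adm (φ p)
      rw [hst] at this
      exact this
    have hadm2 : ∀ i, Adm O (((hom W.r).comp φ).comp (incl (fun i => (S i).U) i)) := by
      intro i u
      have := (S i).adm u
      rw [← h2 i u] at this
      exact this
    rw [← N.map_iso ((hom W.l).comp φ) ((hom W.r).comp φ) (hom W.l) (hom W.r) hadm W.adm φ hφ
      (fun _ => rfl) (fun _ => rfl)]
    ext m
    rw [ModuleCat.hom_sum, LinearMap.sum_apply]
    refine (N.map_add I (fun i => (S i).U) ((hom W.l).comp φ) ((hom W.r).comp φ) hadm hadm2 m).trans ?_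
    refine Finset.sum_congr rfl fun i _ => ?_
    have := N.map_iso (((hom W.l).comp φ).comp (incl (fun i => (S i).U) i))
      (((hom W.r).comp φ).comp (incl (fun i => (S i).U) i)) (hom (S i).l) (hom (S i).r) (hadm2 i)
      (S i).adm (MulActionHom.id G) Function.bijective_id (fun u => (h1 i u).symm)
      (fun u => (h2 i u).symm)
    rw [this]
    rfl

/-- the functor to `SpanMackey` -/
def fwd (O : TransferSystem G) : RMackey O ⥤ SpanMackey O where
  obj N := toSpan N
  map {M N} φ := (⟨fun X => (φ.app X).hom, fun l r hr m => by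
    have := φ.nat (mk l r hr)
    exact congrArg (fun t => t.hom m) this⟩ : SpanMackey.Hom (toSpan M) (toSpan N))

instance (O : TransferSystem G) : (fwd O).Faithful where
  map_injective {M N} φ ψ h := by
    apply RMackey.Hom.ext
    funext X
    apply ModuleCat.hom_ext
    exact congrFun (congrArg SpanMackey.Hom.app h) X

instance (O : TransferSystem G) : (fwd O).Full where
  map_surjective {M N} φ := by
    refine ⟨(⟨fun X => ModuleCat.ofHom (φ.app X), fun {X Y} S => ?_⟩ : RMackey.Hom M N), rfl⟩
    ext m
    exact φ.nat (hom S.l) (hom S.r) S.adm m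

instance (O : TransferSystem G) : (fwd O).EssSurj where
  mem_essImage N := by
    refine ⟨ofSpan N, ⟨?_⟩⟩
    refine ⟨(⟨fun X => LinearMap.id, fun l r hr m => rfl⟩ : SpanMackey.Hom (toSpan (ofSpan N)) N),
      (⟨fun X => LinearMap.id, fun l r hr m => rfl⟩ : SpanMackey.Hom N (toSpan (ofSpan N))), ?_, ?_⟩
    · rfl
    · rfl

theorem equiv (O : TransferSystem G) : Nonempty (RMackey O ≌ SpanMackey O) := by
  have : (fwd O).IsEquivalence := {}
  exact ⟨(fwd O).asEquivalence⟩

end Fun

end Pool.Agent.R722.MK
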