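import Pool.Agent.R722.MK.E
import Pool.Agent.R722.MK.Fun

/-!
# MP_093cae_al (project MK): assembly for `RMackey`
-/

set_option autoImplicit false

namespace Pool.Agent.R722.MK

open CategoryTheory CategoryTheory.Limits MulAction

/-- the theorem -/
def stmMain2 : Prop := ∀ (G : Type) [Group G] [Finite G],
  (∀ O O' : TransferSystem G, (∀ K H, O.rel K H → O'.rel K H) →
    gldim (RMackey O') ≤ gldim (RMackey O)) ∧
  (∀ O : TransferSystem G, gldim (RMackey O) = 0 ↔ ∀ K H : Subgroup G, K ≤ H → O.rel K H)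

theorem final2 (hFac : stmFac) (hCount : stmCount) (hNil : stmNil) (hOrb : stmOrb) (hRes : stmRes)
    (hInj : stmInj) (hSurj : stmSurj) (hMV : stmMV) (hEps : stmEps) (hProj : stmProj)
    (hFilt : stmFilt) (hPdExt : stmPdExt) (hPdMap : stmPdMap) (hGl : stmGl) (hZero : stmZero)
    (hSpan : stmSpan) : stmMain2 := by
  intro G _ _
  have key : ∀ O : TransferSystem G, Nonempty (RMackey O ≌ DFun O) := by
    intro O
    obtain ⟨e0⟩ := Fun.equiv O
    obtain ⟨e1⟩ := hSpan G O
    obtain ⟨e2⟩ := mackey_equiv (O := O) hNil hFac (hInj hOrb hNil hRes hCount G O)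
      (hSurj hOrb hNil hRes hCount G O) (hRes hOrb G O) (hEps hFac (hMV hFac) hCount G O)
    exact ⟨e0.trans (e1.trans e2)⟩
  have gl : ∀ O : TransferSystem G, gldim (RMackey O) = gldim (DFun O) := fun O =>
    hGl.2.1 _ _ (key O)
  refine ⟨fun O O' hO => ?_, fun O => ?_⟩
  · rw [gl, gl]
    rcases eq_or_ne (gldim (DFun O)) ⊤ with h | h
    · rw [h]; exact le_top
    · obtain ⟨n, hn⟩ := ENat.ne_top_iff_exists.mp h
      rw [← hn]
      have h1 : ∀ X : DFun O, PdLE n X := (hGl.2.2 (DFun O) n).mp (by rw [← hn])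
      refine (hGl.2.2 (DFun O') n).mpr ?_
      exact hFilt G O O' hO (fun X => PdLE n X) (fun X Y hXY hX => hGl.1 _ X Y hXY n hX)
        (fun S hS h1 h3 => hPdExt G O' n S hS h1 h3)
        (fun W => hPdMap G O O' hO (fun P hP => hProj hFac G O O' hO P hP) n W (h1 W))
  · rw [gl, ← hZero hFac G O]
    have h := hGl.2.2 (DFun O) 0
    rw [Nat.cast_zero, nonpos_iff_eq_zero] at h
    exact h

end Pool.Agent.R722.MK
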