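import Pool.Agent.R722.MK.Stm

/-!
# Piece MK-GL: global dimensions and equivalences
-/

set_option autoImplicit false

namespace Pool.Agent.R722.MK

open CategoryTheory CategoryTheory.Limits

namespace GlAux

universe v u v' u'

section
variable {C : Type u} [Category.{v} C] [HasZeroMorphisms C]

theorem ker_iff {K P X : C} (i : K ⟶ P) (p : P ⟶ X) (w : i ≫ p = 0) :
    Nonempty (IsLimit (KernelFork.ofι i w)) ↔
      ∀ (T : C) (g : T ⟶ P), g ≫ p = 0 → ∃! l : T ⟶ K, l ≫ i = g := by
  constructor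
  · rintro ⟨h⟩ T g hg
    refine ⟨(KernelFork.IsLimit.lift' h g hg).1, (KernelFork.IsLimit.lift' h g hg).2, ?_⟩
    intro l hl
    refine Fork.IsLimit.hom_ext h ?_
    exact hl.trans (KernelFork.IsLimit.lift' h g hg).2.symm
  · intro h
    choose l hl hl2 using h
    exact ⟨KernelFork.IsLimit.ofι i w (fun g hg => l _ g hg) (fun g hg => hl _ g hg)
      (fun g hg m hm => hl2 _ g hg m hm)⟩

theorem cok_iff {K P X : C} (i : K ⟶ P) (p : P ⟶ X) (w : i ≫ p = 0) :
    Nonempty (IsColimit (CokernelCofork.ofπ p w)) ↔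
      ∀ (T : C) (g : P ⟶ T), i ≫ g = 0 → ∃! l : X ⟶ T, p ≫ l = g := by
  constructor
  · rintro ⟨h⟩ T g hg
    refine ⟨(CokernelCofork.IsColimit.desc' h g hg).1, (CokernelCofork.IsColimit.desc' h g hg).2, ?_⟩
    intro l hl
    refine Cofork.IsColimit.hom_ext h ?_
    exact hl.trans (CokernelCofork.IsColimit.desc' h g hg).2.symm
  · intro h
    choose l hl hl2 using h
    exact ⟨CokernelCofork.IsColimit.ofπ p w (fun g hg => l _ g hg) (fun g hg => hl _ g hg)
      (fun g hg m hm => hl2 _ g hg m hm)⟩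

theorem pdLE_iso {X Y : C} (e : X ≅ Y) (n : ℕ) (h : PdLE n X) : PdLE n Y := by
  cases n with
  | zero => exact Projective.of_iso e h
  | succ n =>
    obtain ⟨K, P, i, p, w, hP, hk, hc, hK⟩ := h
    rw [ker_iff] at hk
    rw [cok_iff] at hc
    have w' : i ≫ p ≫ e.hom = 0 := by rw [← Category.assoc, w, zero_comp]
    refine ⟨K, P, i, p ≫ e.hom, w', hP, (ker_iff _ _ w').2 ?_, (cok_iff _ _ w').2 ?_, hK⟩
    · intro T g hg
      refine hk T g ?_
      have : (g ≫ p ≫ e.hom) ≫ e.inv = 0 := by rw [hg, zero_comp]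
      simpa using this
    · intro T g hg
      obtain ⟨l, hl, hl2⟩ := hc T g hg
      refine ⟨e.inv ≫ l, by simpa using hl, ?_⟩
      intro m hm
      have := hl2 (e.hom ≫ m) (by simpa using hm)
      rw [← this]
      simp

theorem pd_iso {X Y : C} (e : X ≅ Y) : pd Y ≤ pd X := by
  unfold pd
  refine le_iInf fun n => ?_
  exact iInf_le (fun n : {n : ℕ // PdLE n Y} => ((n : ℕ) : ℕ∞)) ⟨n.1, pdLE_iso e n.1 n.2⟩

theorem pdLE_succ [HasZeroObject C] (n : ℕ) : ∀ X : C, PdLE n X → PdLE (n + 1) X := by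
  induction n with
  | zero =>
    intro X hX
    obtain ⟨Z, hZ⟩ := HasZeroObject.zero (C := C)
    have w : (0 : Z ⟶ X) ≫ 𝟙 X = 0 := zero_comp
    refine ⟨Z, X, 0, 𝟙 X, w, hX, (ker_iff _ _ w).2 ?_, (cok_iff _ _ w).2 ?_, ?_⟩
    · intro T g hg
      rw [Category.comp_id] at hg
      subst hg
      exact ⟨0, comp_zero, fun m _ => hZ.eq_of_tgt _ _⟩
    · intro T g _
      exact ⟨g, Category.id_comp g, fun m hm => by rw [← hm, Category.id_comp]⟩
    · show Projective Z
      refine ⟨fun f e _ => ⟨0, hZ.eq_of_src _ _⟩⟩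
  | succ n ih =>
    intro X hX
    obtain ⟨K, P, i, p, w, hP, hk, hc, hK⟩ := hX
    exact ⟨K, P, i, p, w, hP, hk, hc, ih K hK⟩

theorem pdLE_mono [HasZeroObject C] {m n : ℕ} (hmn : m ≤ n) (X : C) (h : PdLE m X) :
    PdLE n X := by
  induction n, hmn using Nat.le_induction with
  | base => exact h
  | succ n _ ih => exact pdLE_succ n X ih

theorem pd_le_iff [HasZeroObject C] (X : C) (n : ℕ) : pd X ≤ n ↔ PdLE n X := by
  constructor
  · intro h
    have h1 : pd X < ((n + 1 : ℕ) : ℕ∞) := by
      refine lt_of_le_of_lt h ?_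
      exact_mod_cast Nat.lt_succ_self n
    unfold pd at h1
    obtain ⟨m, hm⟩ := iInf_lt_iff.1 h1
    have hm' : m.1 < n + 1 := by exact_mod_cast hm
    exact pdLE_mono (Nat.lt_succ_iff.1 hm') X m.2
  · intro h
    exact iInf_le (fun n : {n : ℕ // PdLE n X} => ((n : ℕ) : ℕ∞)) ⟨n, h⟩

end

section
variable {C : Type u} [Category.{v} C] [HasZeroMorphisms C]
  {D : Type u'} [Category.{v'} D] [HasZeroMorphisms D]

theorem map_zero' (e : C ≌ D) (X Y : C) : e.functor.map (0 : X ⟶ Y) = 0 := by
  have h2 : (0 : X ⟶ Y) = 0 ≫ e.functor.preimage (0 : e.functor.obj Y ⟶ e.functor.obj Y) := by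
    rw [zero_comp]
  rw [h2, Functor.map_comp, Functor.map_preimage, comp_zero]

theorem pdLE_map (e : C ≌ D) (n : ℕ) : ∀ X : C, PdLE n X → PdLE n (e.functor.obj X) := by
  induction n with
  | zero => exact fun X hX => (e.map_projective_iff X).2 hX
  | succ n ih =>
    intro X hX
    obtain ⟨K, P, i, p, w, hP, hk, hc, hK⟩ := hX
    rw [ker_iff] at hk
    rw [cok_iff] at hc
    have w' : e.functor.map i ≫ e.functor.map p = 0 := by
      rw [← Functor.map_comp, w, map_zero' e]
    refine ⟨e.functor.obj K, e.functor.obj P, e.functor.map i, e.functor.map p, w',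
      (e.map_projective_iff P).2 hP, (ker_iff _ _ w').2 ?_, (cok_iff _ _ w').2 ?_, ih K hK⟩
    · intro T g hg
      let a : e.functor.obj (e.inverse.obj T) ≅ T := e.counitIso.app T
      let g' : e.inverse.obj T ⟶ P := e.functor.preimage (a.hom ≫ g)
      have hg' : e.functor.map g' = a.hom ≫ g := e.functor.map_preimage _
      have h0 : g' ≫ p = 0 := by
        apply e.functor.map_injective
        rw [Functor.map_comp, hg', Category.assoc, hg, comp_zero, map_zero' e]
      obtain ⟨l, hl, hl2⟩ := hk _ g' h0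
      refine ⟨a.inv ≫ e.functor.map l, ?_, ?_⟩
      · show (a.inv ≫ e.functor.map l) ≫ e.functor.map i = g
        rw [Category.assoc, ← Functor.map_comp, hl, hg']
        simp
      · intro m hm
        have h1 : e.functor.preimage (a.hom ≫ m) = l := by
          apply hl2
          apply e.functor.map_injective
          rw [Functor.map_comp, Functor.map_preimage, Category.assoc, hm, hg']
        rw [← h1, Functor.map_preimage]
        simp
    · intro T g hg
      let a : e.functor.obj (e.inverse.obj T) ≅ T := e.counitIso.app T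
      let g' : P ⟶ e.inverse.obj T := e.functor.preimage (g ≫ a.inv)
      have hg' : e.functor.map g' = g ≫ a.inv := e.functor.map_preimage _
      have h0 : i ≫ g' = 0 := by
        apply e.functor.map_injective
        rw [Functor.map_comp, hg', ← Category.assoc, hg, zero_comp, map_zero' e]
      obtain ⟨l, hl, hl2⟩ := hc _ g' h0
      refine ⟨e.functor.map l ≫ a.hom, ?_, ?_⟩
      · show e.functor.map p ≫ e.functor.map l ≫ a.hom = g
        rw [← Category.assoc, ← Functor.map_comp, hl, hg']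
        simp
      · intro m hm
        have h1 : e.functor.preimage (m ≫ a.inv) = l := by
          apply hl2
          apply e.functor.map_injective
          rw [Functor.map_comp, Functor.map_preimage, ← Category.assoc, hm, hg']
        rw [← h1, Functor.map_preimage]
        simp

theorem pd_map (e : C ≌ D) (X : C) : pd (e.functor.obj X) ≤ pd X := by
  unfold pd
  refine le_iInf fun n => ?_
  exact iInf_le (fun n : {n : ℕ // PdLE n (e.functor.obj X)} => ((n : ℕ) : ℕ∞))
    ⟨n.1, pdLE_map e n.1 X n.2⟩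

end

theorem gldim_le {C : Type u} [Category.{v} C] [HasZeroMorphisms C]
    {D : Type u'} [Category.{v'} D] [HasZeroMorphisms D] (e : C ≌ D) : gldim C ≤ gldim D := by
  unfold gldim
  refine iSup_le fun X => ?_
  calc pd X ≤ pd (e.inverse.obj (e.functor.obj X)) := pd_iso (e.unitIso.app X).symm
    _ ≤ pd (e.functor.obj X) := pd_map e.symm (e.functor.obj X)
    _ ≤ ⨆ Y : D, pd Y := le_iSup (fun Y : D => pd Y) (e.functor.obj X)

end GlAux

/-- Piece MK-GL. -/
theorem gl : stmGl := by
  refine ⟨?_, ?_, ?_⟩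
  · rintro C _ _ X Y ⟨e⟩ n h
    exact GlAux.pdLE_iso e n h
  · rintro C D _ _ _ _ ⟨e⟩
    exact le_antisymm (GlAux.gldim_le e) (GlAux.gldim_le e.symm)
  · intro C _ _ _ n
    unfold gldim
    rw [iSup_le_iff]
    exact forall_congr' fun X => GlAux.pd_le_iff X n

end Pool.Agent.R722.MK
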