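import Pool.Agent.R722.MK.Stm

/-! Piece MK-INJ: a Mackey functor element whose marks vanish is zero. -/

set_option autoImplicit false

namespace Pool.Agent.R722.MK

open CategoryTheory CategoryTheory.Limits MulAction

namespace InjP

variable {G : Type} [Group G]

lemma stab_le {X Y : GSet G} (f : X →[G] Y) (x : X) : stabilizer G x ≤ stabilizer G (f x) := by
  intro s hs
  rw [mem_stabilizer_iff] at hs ⊢
  rw [← map_smul, hs]

lemma stab_inj {X Y : GSet G} (f : X →[G] Y) (hf : Function.Injective f) (x : X) :
    stabilizer G x = stabilizer G (f x) := by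
  apply le_antisymm (stab_le f x)
  intro s hs
  rw [mem_stabilizer_iff] at hs ⊢
  apply hf
  rw [map_smul, hs]

lemma adm_comp {O : TransferSystem G} {X Y Z : GSet G} {f : X →[G] Y} {g : Y →[G] Z}
    (hf : Adm O f) (hg : Adm O g) : Adm O (g.comp f) := fun x => O.trans (hf x) (hg (f x))

variable [Finite G]

lemma card_smul {X : GSet G} (g : G) (x : X) :
    Nat.card (stabilizer G (g • x)) = Nat.card (stabilizer G x) := by
  rw [MulAction.stabilizer_smul_eq_stabilizer_map_conj]
  exact (Nat.card_congr ((stabilizer G x).equivMapOfInjective _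
    (MulAut.conj g).injective).toEquiv).symm

lemma orb_trans (K : Subgroup G) (x y : orb K) : ∃ g : G, g • x = y := by
  have h := MulAction.exists_smul_eq G (α := G ⧸ K) x y
  exact h

/-- base point -/
def bp (K : Subgroup G) : orb K := ((1 : G) : G ⧸ K)

lemma stab_bp (K : Subgroup G) : stabilizer G (bp K) = K := MulAction.stabilizer_quotient K

lemma card_st (K : Subgroup G) (x : orb K) : Nat.card (stabilizer G x) = Nat.card K := by
  obtain ⟨g, rfl⟩ := orb_trans K (bp K) x
  rw [card_smul, stab_bp]

lemma card_img {K : Subgroup G} {X : GSet G} (f : orb K →[G] X) (x y : orb K) :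
    Nat.card (stabilizer G (f x)) = Nat.card (stabilizer G (f y)) := by
  obtain ⟨g, rfl⟩ := orb_trans K x y
  rw [map_smul, card_smul]

lemma eq_of_card {X Y : GSet G} (f : X →[G] Y) (x : X)
    (h : Nat.card (stabilizer G (f x)) ≤ Nat.card (stabilizer G x)) :
    stabilizer G x = stabilizer G (f x) :=
  Subgroup.eq_of_le_of_card_ge (stab_le f x) h

lemma card_lt {X Y : GSet G} (f : X →[G] Y) (x : X)
    (h : stabilizer G x ≠ stabilizer G (f x)) :
    Nat.card (stabilizer G x) < Nat.card (stabilizer G (f x)) := by
  by_contra hc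
  exact h (eq_of_card f x (not_lt.1 hc))

lemma bij_of_card {K L : Subgroup G} (a : orb K →[G] orb L) (h : Nat.card L ≤ Nat.card K) :
    (∀ x, stabilizer G x = stabilizer G (a x)) ∧ Function.Bijective a := by
  have h1 : ∀ x, stabilizer G x = stabilizer G (a x) := by
    intro x
    apply eq_of_card
    rw [card_st, card_st]
    exact h
  refine ⟨h1, ?_, ?_⟩
  · intro x y hxy
    obtain ⟨g, rfl⟩ := orb_trans K x y
    rw [map_smul] at hxy
    have : g ∈ stabilizer G (a x) := by
      rw [mem_stabilizer_iff]
      exact hxy.symm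
    rw [← h1] at this
    exact (mem_stabilizer_iff.1 this).symm
  · intro y
    obtain ⟨g, hg⟩ := orb_trans L (a (bp K)) y
    refine ⟨g • bp K, ?_⟩
    rw [map_smul]
    exact hg

variable {O : TransferSystem G}

/-- proper indices -/
def Prp {X : GSet G} (j : Idx O X) : Prop := ∀ x, stabilizer G x ≠ stabilizer G (j.f x)

/-- transfers from proper indices of size at most `k` -/
def UU (M : Mackey O) (X : GSet G) (k : ℕ) : Submodule ℚ (M.M X) :=
  Submodule.span ℚ {m | ∃ j : Idx O X, Prp j ∧ Nat.card j.K ≤ k ∧ ∃ n, M.push j.f j.adm n = m}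

lemma UU_mono (M : Mackey O) (X : GSet G) {k l : ℕ} (h : k ≤ l) : UU M X k ≤ UU M X l := by
  apply Submodule.span_mono
  rintro m ⟨j, h1, h2, h3⟩
  exact ⟨j, h1, h2.trans h, h3⟩

lemma nil_le (hO : stmOrb) (M : Mackey O) (X : GSet G) (k : ℕ)
    (hk : ∀ j : Idx O X, Prp j → Nat.card j.K ≤ k) : nil M X ≤ UU M X k := by
  obtain ⟨_, _, _, _, he⟩ := hO G O M
  rw [nil, Submodule.span_le]
  rintro m ⟨Y, f, hf, hne, n, rfl⟩
  have h1 := he X Y f hf n
  refine (Submodule.span_le.2 ?_ : _ ≤ UU M X k) h1
  rintro m' ⟨j, c, hc, hinj, n', rfl⟩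
  have hj : Prp j := by
    intro x
    rw [← hc x, stab_inj c hinj x]
    exact hne (c x)
  exact Submodule.subset_span ⟨j, hj, hk j hj, n', rfl⟩

lemma push_nil (hO : stmOrb) (M : Mackey O) (X : GSet G) (g : Idx O X) (k : ℕ)
    (hk : Nat.card g.K ≤ k + 1) (m : M.M (orb g.K)) (hm : m ∈ nil M (orb g.K)) :
    M.push g.f g.adm m ∈ UU M X k := by
  have h1 : nil M (orb g.K) ≤ UU M (orb g.K) k := by
    apply nil_le hO
    intro j hj
    have h2 := card_lt j.f (bp j.K) (hj _)
    rw [card_st, card_st] at h2
    omega
  have h2 : UU M (orb g.K) k ≤ (UU M X k).comap (M.push g.f g.adm) := by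
    rw [UU, Submodule.span_le]
    rintro m' ⟨j, hj, hjk, n, rfl⟩
    have e := M.push_comp j.f g.f j.adm g.adm (adm_comp j.adm g.adm) n
    change M.push g.f g.adm (M.push j.f j.adm n) ∈ UU M X k
    rw [← e]
    refine Submodule.subset_span ⟨⟨j.K, g.f.comp j.f, adm_comp j.adm g.adm⟩, ?_, hjk, n, rfl⟩
    intro x heq
    have h3 := card_lt j.f x (hj x)
    have h4 : Nat.card (stabilizer G (j.f x)) ≤ Nat.card (stabilizer G (g.f (j.f x))) :=
      Subgroup.card_le_of_le (stab_le g.f (j.f x))
    have h5 : Nat.card (stabilizer G x) = Nat.card (stabilizer G (g.f (j.f x))) := by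
      rw [heq]
      rfl
    omega
  exact h2 (h1 hm)

lemma UU_rep (M : Mackey O) (X : GSet G) (k : ℕ) (m : M.M X) (hm : m ∈ UU M X k) :
    ∃ n : ∀ f : Idx O X, M.M (orb f.K), (∀ f, n f ≠ 0 → Prp f ∧ Nat.card f.K ≤ k) ∧
      m = ∑ f, M.push f.f f.adm (n f) := by
  classical
  rw [UU] at hm
  induction hm using Submodule.span_induction with
  | mem x hx =>
    obtain ⟨j, hj, hjk, n0, rfl⟩ := hx
    refine ⟨Pi.single j n0, ?_, ?_⟩
    · intro f hf
      by_cases h : f = j
      · subst h
        exact ⟨hj, hjk⟩
      · exact absurd (by rw [Pi.single_eq_of_ne h]) hf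
    · rw [Finset.sum_eq_single j]
      · rw [Pi.single_eq_same]
      · intro b _ hb
        rw [Pi.single_eq_of_ne hb, map_zero]
      · intro h
        exact absurd (Finset.mem_univ j) h
  | zero => exact ⟨fun _ => 0, fun f hf => absurd rfl hf, by simp⟩
  | add x y _ _ hx hy =>
    obtain ⟨n1, h1, rfl⟩ := hx
    obtain ⟨n2, h2, rfl⟩ := hy
    refine ⟨fun f => n1 f + n2 f, ?_, ?_⟩
    · intro f hf
      by_cases h : n1 f = 0
      · apply h2 f
        intro h'
        apply hf
        simp only [h, h', add_zero]
      · exact h1 f h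
    · rw [← Finset.sum_add_distrib]
      exact Finset.sum_congr rfl fun f _ => (map_add _ _ _).symm
  | smul c x _ hx =>
    obtain ⟨n1, h1, rfl⟩ := hx
    refine ⟨fun f => c • n1 f, ?_, ?_⟩
    · intro f hf
      apply h1 f
      intro h
      apply hf
      simp only [h, smul_zero]
    · rw [Finset.smul_sum]
      exact Finset.sum_congr rfl fun f _ => (map_smul _ _ _).symm

lemma step (hO : stmOrb) (hRes : stmRes) (hCt : stmCount) (M : Mackey O) (X : GSet G) (k : ℕ)
    (m : M.M X) (hm : m ∈ UU M X (k + 1))
    (h0 : ∀ g : Idx O X, Prp g → M.pull g.f m = 0) : m ∈ UU M X k := by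
  classical
  obtain ⟨n, hn, hmn⟩ := UU_rep M X (k + 1) m hm
  obtain ⟨hbij, _, _, _, _⟩ := hO G O M
  obtain ⟨hC1, _, hC3⟩ := hCt G O X
  -- for every proper g of size k + 1
  have key : ∀ g : Idx O X, Prp g → Nat.card g.K = k + 1 →
      ∑ f : Idx O X, (Fintype.card (IsoSet g f) : ℚ) • M.push f.f f.adm (n f) ∈ UU M X k := by
    intro g hg hgk
    have h1 : ∑ f : Idx O X, ∑ a : Sect f.f g.f, M.pull a.1 (n f) ∈ nil M (orb g.K) := by
      have h2 : ∑ f : Idx O X, (M.pull g.f (M.push f.f f.adm (n f)) -
          ∑ a : Sect f.f g.f, M.pull a.1 (n f)) ∈ nil M (orb g.K) :=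
        Submodule.sum_mem _ fun f _ => hRes hO G O M (orb f.K) X f.f f.adm g.K g.f (n f)
      rw [Finset.sum_sub_distrib, ← map_sum, ← hmn, h0 g hg, zero_sub] at h2
      exact (Submodule.neg_mem_iff _).1 h2
    have h3 : ∀ f : Idx O X, ∑ a : Sect f.f g.f, M.pull a.1 (n f) =
        ∑ a : IsoSet g f, M.pull a.1 (n f) := by
      intro f
      by_cases hf : n f = 0
      · simp [hf]
      · have hfk := (hn f hf).2
        have hcard : Nat.card f.K ≤ Nat.card g.K := by omega
        let e : Sect f.f g.f → IsoSet g f := fun a => ⟨a.1, by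
          intro x
          have := (bij_of_card a.1 hcard).1 x
          rw [this]
          exact Dense.refl _, a.2⟩
        have he : Function.Bijective e := by
          constructor
          · intro a b hab
            have : (e a).1 = (e b).1 := by rw [hab]
            exact Subtype.ext this
          · intro b
            exact ⟨⟨b.1, b.2.2⟩, rfl⟩
        exact Fintype.sum_bijective e he _ _ fun a => rfl
    rw [Finset.sum_congr rfl fun f _ => h3 f] at h1
    have h4 := push_nil hO M X g k hgk.le _ h1
    rw [map_sum] at h4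
    have h5 : ∀ f : Idx O X, M.push g.f g.adm (∑ a : IsoSet g f, M.pull a.1 (n f)) =
        (Fintype.card (IsoSet g f) : ℚ) • M.push f.f f.adm (n f) := by
      intro f
      rw [map_sum]
      have h6 : ∀ a : IsoSet g f, M.push g.f g.adm (M.pull a.1 (n f)) =
          M.push f.f f.adm (n f) := by
        intro a
        have hc := (hC1 g f a).1
        have hb := (bij_of_card a.1 hc.ge).2
        have ha : Adm O a.1 := g.adm.of_comp a.2.2
        have hcomp : f.f.comp a.1 = g.f := by
          ext x
          exact a.2.2 x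
        have hgadm : Adm O (f.f.comp a.1) := by rw [hcomp]; exact g.adm
        have h7 : ∀ (g' : orb g.K →[G] X) (hg' : Adm O g') (_ : f.f.comp a.1 = g'),
            M.push g' hg' (M.pull a.1 (n f)) = M.push f.f f.adm (n f) := by
          rintro g' hg' rfl
          rw [M.push_comp a.1 f.f ha f.adm hg', (hbij _ _ a.1 ha hb).1]
        exact h7 g.f g.adm hcomp
      rw [Finset.sum_congr rfl fun a _ => h6 a, Finset.sum_const, Finset.card_univ,
        ← Nat.cast_smul_eq_nsmul ℚ]
    rw [Finset.sum_congr rfl fun f _ => h5 f] at h4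
    exact h4
  -- sum over g
  have hsum : ∑ g : Idx O X, (if Prp g ∧ Nat.card g.K = k + 1 then
      ∑ f : Idx O X, (Fintype.card (IsoSet g f) : ℚ) • M.push f.f f.adm (n f) else 0) ∈
      UU M X k := by
    apply Submodule.sum_mem
    intro g _
    split_ifs with h
    · exact key g h.1 h.2
    · exact Submodule.zero_mem _
  have hswap : ∑ g : Idx O X, (if Prp g ∧ Nat.card g.K = k + 1 then
      ∑ f : Idx O X, (Fintype.card (IsoSet g f) : ℚ) • M.push f.f f.adm (n f) else 0) =
      ∑ f : Idx O X, (∑ g : Idx O X, if Prp g ∧ Nat.card g.K = k + 1 then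
        (Fintype.card (IsoSet g f) : ℚ) else 0) • M.push f.f f.adm (n f) := by
    have e1 : ∀ g : Idx O X, (if Prp g ∧ Nat.card g.K = k + 1 then
        ∑ f : Idx O X, (Fintype.card (IsoSet g f) : ℚ) • M.push f.f f.adm (n f) else 0) =
        ∑ f : Idx O X, (if Prp g ∧ Nat.card g.K = k + 1 then
        (Fintype.card (IsoSet g f) : ℚ) else 0) • M.push f.f f.adm (n f) := by
      intro g
      split_ifs
      · rfl
      · simp
    rw [Finset.sum_congr rfl fun g _ => e1 g, Finset.sum_comm]
    exact Finset.sum_congr rfl fun f _ => (Finset.sum_smul).symm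
  rw [hswap] at hsum
  -- the coefficient
  have hcoef : ∀ f : Idx O X, n f ≠ 0 → (∑ g : Idx O X, if Prp g ∧ Nat.card g.K = k + 1 then
        (Fintype.card (IsoSet g f) : ℚ) else 0) =
      if Nat.card f.K = k + 1 then (Nat.card G : ℚ) / (k + 1 : ℕ) else 0 := by
    intro f hf
    have hfp := (hn f hf).1
    have hzero : ∀ g : Idx O X, ¬ (Prp g ∧ Nat.card g.K = Nat.card f.K) →
        (Fintype.card (IsoSet g f) : ℚ) = 0 := by
      intro g hg
      have : IsEmpty (IsoSet g f) := by
        constructor
        intro a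
        apply hg
        have hc := (hC1 g f a).1
        refine ⟨?_, hc⟩
        intro x
        rw [(bij_of_card a.1 hc.ge).1 x, ← a.2.2 x]
        exact hfp (a.1 x)
      rw [Fintype.card_eq_zero]
      simp
    split_ifs with hfk
    · have h1 := hC3 f
      rw [← Finset.sum_mul] at h1
      have h2 : ∑ g : Idx O X, (if Prp g ∧ Nat.card g.K = k + 1 then
          (Fintype.card (IsoSet g f) : ℚ) else 0) = ∑ g : Idx O X,
          (Fintype.card (IsoSet g f) : ℚ) := by
        apply Finset.sum_congr rfl
        intro g _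
        split_ifs with h
        · rfl
        · rw [hzero g]
          rw [hfk]
          exact h
      rw [h2, eq_div_iff (by positivity), ← hfk]
      exact h1
    · apply Finset.sum_eq_zero
      intro g _
      split_ifs with h
      · apply hzero g
        rintro ⟨_, h2⟩
        exact hfk (h2.symm.trans h.2)
      · rfl
  have hG : (0 : ℚ) < Nat.card G := by exact_mod_cast Nat.card_pos
  have hsum2 : ((Nat.card G : ℚ) / (k + 1 : ℕ)) • ∑ f : Idx O X,
      (if Nat.card f.K = k + 1 then M.push f.f f.adm (n f) else 0) ∈ UU M X k := by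
    rw [Finset.smul_sum]
    have e : ∑ f : Idx O X, (∑ g : Idx O X, if Prp g ∧ Nat.card g.K = k + 1 then
        (Fintype.card (IsoSet g f) : ℚ) else 0) • M.push f.f f.adm (n f) =
        ∑ f : Idx O X, ((Nat.card G : ℚ) / (k + 1 : ℕ)) •
          (if Nat.card f.K = k + 1 then M.push f.f f.adm (n f) else 0) := by
      apply Finset.sum_congr rfl
      intro f _
      by_cases hf : n f = 0
      · rw [hf, map_zero]
        simp
      · rw [hcoef f hf]
        split_ifs
        · rfl
        · simp
    rw [e] at hsum
    exact hsum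
  have hne : ((Nat.card G : ℚ) / (k + 1 : ℕ)) ≠ 0 := by positivity
  have hsum3 := (Submodule.smul_mem_iff _ hne).1 hsum2
  have hsplit : m = (∑ f : Idx O X, (if Nat.card f.K = k + 1 then M.push f.f f.adm (n f) else 0)) +
      ∑ f : Idx O X, (if Nat.card f.K = k + 1 then 0 else M.push f.f f.adm (n f)) := by
    rw [hmn, ← Finset.sum_add_distrib]
    apply Finset.sum_congr rfl
    intro f _
    split_ifs <;> simp
  rw [hsplit]
  apply Submodule.add_mem _ hsum3
  apply Submodule.sum_mem
  intro f _
  split_ifs with h
  · exact Submodule.zero_mem _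
  · by_cases hf : n f = 0
    · rw [hf, map_zero]
      exact Submodule.zero_mem _
    · obtain ⟨h1, h2⟩ := hn f hf
      exact Submodule.subset_span ⟨f, h1, by omega, n f, rfl⟩

end InjP

open InjP

theorem inj : stmInj := by
  intro hO _ hRes hCt G _ _ O M
  obtain ⟨_, _, hc, hd, _⟩ := hO G O M
  have main : ∀ (N : ℕ) (X : GSet G), (∀ x : X, Nat.card (stabilizer G x) ≤ N) → ∀ m : M.M X,
      (∀ i : Idx O X, M.pull i.f m ∈ nil M (orb i.K)) → m = 0 := by
    intro N
    induction N with
    | zero =>
      intro X hX m _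
      apply hc X m
      intro i _
      exfalso
      have h1 := hX (i.f (bp i.K))
      have h2 : 0 < Nat.card (stabilizer G (i.f (bp i.K))) := Nat.card_pos
      omega
    | succ N ih =>
      intro X hX m hm
      have h1 : m ∈ nil M X := hd X m fun i _ => hm i
      have h2 : ∀ g : Idx O X, Prp g → M.pull g.f m = 0 := by
        intro g hg
        apply ih (orb g.K)
        · intro x
          have h3 := card_lt g.f x (hg x)
          have h4 := hX (g.f x)
          omega
        · intro i
          have h3 := hm ⟨i.K, g.f.comp i.f, adm_comp i.adm g.adm⟩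
          rw [← M.pull_comp]
          exact h3
      have h3 : m ∈ UU M X (Nat.card G) := by
        apply nil_le hO M X _ _ h1
        intro j _
        exact Nat.card_le_card_of_injective (fun x : j.K => (x : G)) Subtype.val_injective
      have h4 : ∀ k : ℕ, m ∈ UU M X k → m = 0 := by
        intro k
        induction k with
        | zero =>
          intro h5
          obtain ⟨n, hn, hmn⟩ := UU_rep M X 0 m h5
          rw [hmn]
          apply Finset.sum_eq_zero
          intro f _
          by_cases hf : n f = 0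
          · rw [hf, map_zero]
          · have h6 := (hn f hf).2
            have h7 : 0 < Nat.card f.K := Nat.card_pos
            omega
        | succ k ihk =>
          intro h5
          exact ihk (step hO hRes hCt M X k m h5 h2)
      exact h4 _ h3
  intro X m hm
  apply main (Nat.card G) X _ m hm
  intro x
  exact Nat.card_le_card_of_injective (fun y : stabilizer G x => (y : G)) Subtype.val_injective

end Pool.Agent.R722.MK
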