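import Pool.Agent.R722.MK.Stm

/-!
# Project MK: the Mackey functor of a dense coefficient system
-/

set_option autoImplicit false

namespace Pool.Agent.R722.MK

open CategoryTheory CategoryTheory.Limits MulAction

namespace MVP

variable {G : Type} [Group G] [Finite G] {O : TransferSystem G}

theorem res_id (V : DFun O) {K : Subgroup G} (h : DMap O (MulActionHom.id G : orb K →[G] orb K))
    (v : V.obj (Opposite.op ⟨K⟩)) : V.res (MulActionHom.id G) h v = v := by
  have e : (Quiver.Hom.op (⟨MulActionHom.id G, h⟩ : (⟨K⟩ : Orb O) ⟶ ⟨K⟩)) =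
      𝟙 (Opposite.op (⟨K⟩ : Orb O)) := rfl
  unfold DFun.res
  rw [e, V.map_id]
  rfl

theorem res_comp (V : DFun O) {J K L : Subgroup G} (u : orb J →[G] orb K) (hu : DMap O u)
    (w : orb K →[G] orb L) (hw : DMap O w) (h : DMap O (w.comp u))
    (v : V.obj (Opposite.op ⟨L⟩)) : V.res (w.comp u) h v = V.res u hu (V.res w hw v) := by
  let a : (⟨J⟩ : Orb O) ⟶ ⟨K⟩ := ⟨u, hu⟩
  let b : (⟨K⟩ : Orb O) ⟶ ⟨L⟩ := ⟨w, hw⟩
  have e : (⟨w.comp u, h⟩ : (⟨J⟩ : Orb O) ⟶ ⟨L⟩) = a ≫ b := rfl
  unfold DFun.res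
  rw [e, op_comp, V.map_comp]
  rfl

theorem res_congr (V : DFun O) {J K : Subgroup G} {u u' : orb J →[G] orb K} (h : ∀ x, u x = u' x)
    (hu : DMap O u) (hu' : DMap O u') (v : V.obj (Opposite.op ⟨K⟩)) :
    V.res u hu v = V.res u' hu' v := by
  have : u = u' := MulActionHom.ext h
  subst this
  rfl

/-- the conclusions of `stmFac` for `G`, `O` -/
structure Fac (O : TransferSystem G) : Prop where
  f1 : ∀ (K : Subgroup G) (Z : GSet G) (f : orb K →[G] Z),
    ∃ (P : Subgroup G) (u : orb K →[G] orb P) (h : orb P →[G] Z),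
      DMap O u ∧ Adm O h ∧ ∀ x, h (u x) = f x
  f2 : ∀ (K P : Subgroup G) (Y Z : GSet G) (u : orb K →[G] orb P) (h : orb P →[G] Z)
    (u' : orb K →[G] Y) (h' : Y →[G] Z), DMap O u → Adm O h' → (∀ x, h (u x) = h' (u' x)) →
    ∃ a : orb P →[G] Y, (∀ x, a (u x) = u' x) ∧ ∀ y, h' (a y) = h y
  f3 : ∀ (K P : Subgroup G) (f : orb K →[G] orb P), Function.Surjective f

omit [Finite G] in
theorem st_le {X Y : GSet G} (f : X →[G] Y) (x : X) : stabilizer G x ≤ stabilizer G (f x) := by
  intro s hs
  rw [mem_stabilizer_iff] at hs ⊢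
  rw [← map_smul, hs]

theorem dense_right (F : Fac O) {J K L : Subgroup G} (u : orb J →[G] orb K) (a : orb K →[G] orb L)
    (u' : orb J →[G] orb L) (h : ∀ x, a (u x) = u' x) (hu' : DMap O u') : DMap O a := by
  intro y
  obtain ⟨x, rfl⟩ := F.f3 J K u y
  refine ⟨st_le a _, fun P hP hK => ?_⟩
  have h1 := hu' x
  rw [← h] at h1
  exact h1.2 P hP ((st_le u x).trans hK)

/-- independence of the factorization -/
theorem indep (F : Fac O) (V : DFun O) {Y : GSet G} (v : sec V Y) {K : Subgroup G}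
    (j j' : Idx O Y) (u : orb K →[G] orb j.K) (u' : orb K →[G] orb j'.K) (hu : DMap O u)
    (hu' : DMap O u') (h : ∀ x, j.f (u x) = j'.f (u' x)) :
    V.res u hu (v.1 j) = V.res u' hu' (v.1 j') := by
  obtain ⟨a, ha1, ha2⟩ := F.f2 K j.K (orb j'.K) Y u j.f u' j'.f hu j'.adm h
  have had : DMap O a := dense_right F u a u' ha1 hu'
  have h1 := v.2 j j' a had ha2
  rw [← h1, ← res_comp V u hu a had (hu.comp had)]
  exact res_congr V ha1 _ _ _

theorem fac' (F : Fac O) (K : Subgroup G) (Z : GSet G) (f : orb K →[G] Z) :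
    ∃ (j : Idx O Z) (u : orb K →[G] orb j.K), DMap O u ∧ ∀ x, j.f (u x) = f x := by
  obtain ⟨P, u, h, hu, hh, e⟩ := F.f1 K Z f
  exact ⟨⟨P, h, hh⟩, u, hu, e⟩

/-- the chosen factorization -/
noncomputable def fj (F : Fac O) {K : Subgroup G} {Z : GSet G} (f : orb K →[G] Z) : Idx O Z :=
  (fac' F K Z f).choose

/-- the dense part -/
noncomputable def fu (F : Fac O) {K : Subgroup G} {Z : GSet G} (f : orb K →[G] Z) :
    orb K →[G] orb (fj F f).K := (fac' F K Z f).choose_spec.choose

theorem fu_dense (F : Fac O) {K : Subgroup G} {Z : GSet G} (f : orb K →[G] Z) :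
    DMap O (fu F f) := (fac' F K Z f).choose_spec.choose_spec.1

theorem fu_eq (F : Fac O) {K : Subgroup G} {Z : GSet G} (f : orb K →[G] Z) (x) :
    (fj F f).f (fu F f x) = f x := (fac' F K Z f).choose_spec.choose_spec.2 x

/-- value of a section -/
noncomputable def val {V : DFun O} {X : GSet G} (v : sec V X) (K : Subgroup G)
    (f : orb K →[G] X) (hf : Adm O f) : V.obj (Opposite.op ⟨K⟩) := v.1 ⟨K, f, hf⟩

/-- restriction -/
noncomputable def pull (F : Fac O) (V : DFun O) {X Y : GSet G} (h : X →[G] Y) :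
    sec V Y →ₗ[ℚ] sec V X where
  toFun v := ⟨fun i => V.res (fu F (h.comp i.f)) (fu_dense F _) (v.1 (fj F (h.comp i.f))), by
    intro i i' a ha hia
    have e := res_comp V a ha (fu F (h.comp i'.f)) (fu_dense F _) (ha.comp (fu_dense F _))
      (v.1 (fj F (h.comp i'.f)))
    rw [← e]
    apply indep F V v
    intro x
    rw [fu_eq]
    show (fj F (h.comp i'.f)).f (fu F (h.comp i'.f) (a x)) = h (i.f x)
    rw [fu_eq]
    show h (i'.f (a x)) = h (i.f x)
    rw [hia]⟩
  map_add' v w := by
    apply Subtype.ext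
    funext i
    exact map_add _ _ _
  map_smul' c v := by
    apply Subtype.ext
    funext i
    exact map_smul _ _ _

theorem pull_spec (F : Fac O) (V : DFun O) {X Y : GSet G} (h : X →[G] Y) (v : sec V Y)
    (i : Idx O X) (j : Idx O Y) (u : orb i.K →[G] orb j.K) (hu : DMap O u)
    (e : ∀ x, j.f (u x) = h (i.f x)) : (pull F V h v).1 i = V.res u hu (v.1 j) := by
  apply indep F V v
  intro x
  rw [fu_eq, e]
  rfl

/-- precomposition of sections with a dense map -/
def precomp {J K : Subgroup G} {X Y : GSet G} (p : X →[G] Y) {f : orb K →[G] Y} {g : orb J →[G] Y}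
    (a : orb J →[G] orb K) (h : ∀ x, f (a x) = g x) (k : Sect p f) : Sect p g :=
  ⟨k.1.comp a, fun x => by
    show p (k.1 (a x)) = g x
    rw [k.2, h]⟩

theorem precomp_bij (F : Fac O) {J K : Subgroup G} {X Y : GSet G} (p : X →[G] Y) (hp : Adm O p)
    {f : orb K →[G] Y} {g : orb J →[G] Y} (a : orb J →[G] orb K) (ha : DMap O a)
    (h : ∀ x, f (a x) = g x) : Function.Bijective (precomp p a h : Sect p f → Sect p g) := by
  constructor
  · intro k k' e
    apply Subtype.ext
    apply MulActionHom.ext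
    intro y
    obtain ⟨x, rfl⟩ := F.f3 J K a y
    have e1 := congrArg Subtype.val e
    exact DFunLike.congr_fun e1 x
  · intro k
    obtain ⟨b, hb1, hb2⟩ := F.f2 J K X Y a f k.1 p ha hp (fun x => by rw [h, k.2])
    refine ⟨⟨b, hb2⟩, ?_⟩
    apply Subtype.ext
    apply MulActionHom.ext
    intro x
    exact hb1 x

/-- transfer -/
noncomputable def push (F : Fac O) (V : DFun O) {X Y : GSet G} (p : X →[G] Y) (hp : Adm O p) :
    sec V X →ₗ[ℚ] sec V Y where
  toFun v := ⟨fun j => ∑ k : Sect p j.f, val v j.K k.1 (j.adm.of_comp k.2), by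
    intro j j' a ha h
    rw [map_sum]
    refine Fintype.sum_bijective (precomp p a h) (precomp_bij F p hp a ha h) _ _ fun k => ?_
    exact v.2 ⟨j.K, (precomp p a h k).1, j.adm.of_comp (precomp p a h k).2⟩
      ⟨j'.K, k.1, j'.adm.of_comp k.2⟩ a ha (fun x => rfl)⟩
  map_add' v w := by
    apply Subtype.ext
    funext i
    exact Finset.sum_add_distrib
  map_smul' c v := by
    apply Subtype.ext
    funext i
    exact (Finset.smul_sum (r := c) (s := Finset.univ) (f := fun k : Sect p i.f =>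
      val v i.K k.1 (i.adm.of_comp k.2))).symm

theorem push_spec (F : Fac O) (V : DFun O) {X Y : GSet G} (p : X →[G] Y) (hp : Adm O p)
    (v : sec V X) (j : Idx O Y) :
    (push F V p hp v).1 j = ∑ k : Sect p j.f, val v j.K k.1 (j.adm.of_comp k.2) := rfl

theorem sec_congr (V : DFun O) {X : GSet G} (v : sec V X) {K : Subgroup G} {f g : orb K →[G] X}
    (h : ∀ x, f x = g x) (hf : Adm O f) (hg : Adm O g) : v.1 ⟨K, f, hf⟩ = v.1 ⟨K, g, hg⟩ := by
  have : f = g := MulActionHom.ext h
  subst this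
  rfl

omit [Finite G] in
theorem adm_id (X : GSet G) : Adm O (MulActionHom.id G : X →[G] X) := fun _ => O.refl _

omit [Finite G] in
theorem adm_comp {X Y Z : GSet G} {f : X →[G] Y} {g : Y →[G] Z} (hf : Adm O f) (hg : Adm O g) :
    Adm O (g.comp f) := fun x => O.trans (hf x) (hg (f x))

/-! ### the axioms -/

theorem pull_id (F : Fac O) (V : DFun O) (X : GSet G) (m : sec V X) :
    pull F V (MulActionHom.id G) m = m := by
  apply Subtype.ext
  funext i
  rw [pull_spec F V (MulActionHom.id G) m i i (MulActionHom.id G) (DMap.id _) (fun x => rfl)]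
  exact res_id V _ _

theorem pull_comp (F : Fac O) (V : DFun O) {X Y Z : GSet G} (f : X →[G] Y) (g : Y →[G] Z)
    (m : sec V Z) : pull F V (g.comp f) m = pull F V f (pull F V g m) := by
  apply Subtype.ext
  funext i
  obtain ⟨j, u, hu, e⟩ := fac' F i.K Y (f.comp i.f)
  obtain ⟨l, w, hw, e'⟩ := fac' F j.K Z (g.comp j.f)
  rw [pull_spec F V f _ i j u hu (fun x => e x), pull_spec F V g m j l w hw (fun x => e' x),
    pull_spec F V (g.comp f) m i l (w.comp u) (hu.comp hw) (fun x => ?_)]
  · exact res_comp V u hu w hw _ _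
  · show l.f (w (u x)) = g (f (i.f x))
    rw [e']
    show g (j.f (u x)) = _
    rw [e]
    rfl

theorem push_id (F : Fac O) (V : DFun O) (X : GSet G)
    (h : Adm O (MulActionHom.id G : X →[G] X)) (m : sec V X) :
    push F V (MulActionHom.id G) h m = m := by
  apply Subtype.ext
  funext j
  rw [push_spec]
  let _ : Unique (Sect (MulActionHom.id G : X →[G] X) j.f) :=
    { default := ⟨j.f, fun x => rfl⟩
      uniq := fun k => by
        apply Subtype.ext
        apply MulActionHom.ext
        intro x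
        exact k.2 x }
  exact Fintype.sum_unique (fun k : Sect (MulActionHom.id G : X →[G] X) j.f =>
    val m j.K k.1 (j.adm.of_comp k.2))

/-- sections of a composition are pairs -/
def pairS {X Y Z : GSet G} (f : X →[G] Y) (g : Y →[G] Z) {K : Subgroup G} {h : orb K →[G] Z}
    (q : Σ k : Sect g h, Sect f k.1) : Sect (g.comp f) h :=
  ⟨q.2.1, fun x => by
    show g (f (q.2.1 x)) = h x
    rw [q.2.2, q.1.2]⟩

theorem pairS_bij {X Y Z : GSet G} (f : X →[G] Y) (g : Y →[G] Z) {K : Subgroup G}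
    {h : orb K →[G] Z} :
    Function.Bijective (pairS f g : (Σ k : Sect g h, Sect f k.1) → Sect (g.comp f) h) := by
  constructor
  · rintro ⟨k, k'⟩ ⟨l, l'⟩ e
    have e1 : k'.1 = l'.1 := congrArg Subtype.val e
    have e2 : k = l := by
      apply Subtype.ext
      apply MulActionHom.ext
      intro x
      rw [← k'.2 x, ← l'.2 x, e1]
    subst e2
    have e3 : k' = l' := Subtype.ext e1
    rw [e3]
  · intro q
    exact ⟨⟨⟨f.comp q.1, fun x => q.2 x⟩, ⟨q.1, fun x => rfl⟩⟩, rfl⟩

theorem push_comp (F : Fac O) (V : DFun O) {X Y Z : GSet G} (f : X →[G] Y) (g : Y →[G] Z)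
    (hf : Adm O f) (hg : Adm O g) (hgf : Adm O (g.comp f)) (m : sec V X) :
    push F V (g.comp f) hgf m = push F V g hg (push F V f hf m) := by
  apply Subtype.ext
  funext j
  refine Eq.trans ?_ (Fintype.sum_sigma' (fun (k : Sect g j.f) (k' : Sect f k.1) =>
    val m j.K k'.1 ((j.adm.of_comp k.2).of_comp k'.2)))
  symm
  exact Fintype.sum_bijective (pairS f g) (pairS_bij f g) _ _ (fun q => rfl)

/-! ### base change -/

section base

variable {P X Y' Y : GSet G} {a : P →[G] X} {b : P →[G] Y'} {f : X →[G] Y} {g : Y' →[G] Y}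

/-- the section of the pull-back defined by a section -/
noncomputable def baseS (h : IsPB a b f g) {K L : Subgroup G} {j : orb K →[G] Y'}
    {l : orb L →[G] Y} (u : orb K →[G] orb L) (e : ∀ x, l (u x) = g (j x)) (k : Sect f l) :
    Sect b j where
  val :=
    { toFun := fun x => (h.2 (k.1 (u x)) (j x) (by rw [k.2, e])).choose
      map_smul' := fun s x => by
        have h1 := (h.2 (k.1 (u x)) (j x) (by rw [k.2, e])).choose_spec.1
        have h2 := (h.2 (k.1 (u (s • x))) (j (s • x)) (by rw [k.2, e])).choose_spec.2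
        symm
        apply h2
        simp only [id]
        rw [map_smul, map_smul, map_smul, map_smul, map_smul, h1.1, h1.2]
        exact ⟨rfl, rfl⟩ }
  property := fun x => (h.2 (k.1 (u x)) (j x) (by rw [k.2, e])).choose_spec.1.2

theorem baseS_a (h : IsPB a b f g) {K L : Subgroup G} {j : orb K →[G] Y'}
    {l : orb L →[G] Y} (u : orb K →[G] orb L) (e : ∀ x, l (u x) = g (j x)) (k : Sect f l) (x) :
    a ((baseS h u e k).1 x) = k.1 (u x) :=
  (h.2 (k.1 (u x)) (j x) (by rw [k.2, e])).choose_spec.1.1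

theorem baseS_bij (F : Fac O) (h : IsPB a b f g) (hf : Adm O f) {K L : Subgroup G}
    {j : orb K →[G] Y'} {l : orb L →[G] Y} (u : orb K →[G] orb L) (hu : DMap O u)
    (e : ∀ x, l (u x) = g (j x)) : Function.Bijective (baseS h u e : Sect f l → Sect b j) := by
  constructor
  · intro k k' hk
    apply Subtype.ext
    apply MulActionHom.ext
    intro y
    obtain ⟨x, rfl⟩ := F.f3 K L u y
    rw [← baseS_a h u e k x, ← baseS_a h u e k' x, hk]
  · intro k
    obtain ⟨t, ht1, ht2⟩ := F.f2 K L X Y u l (a.comp k.1) f hu hf (fun x => by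
      rw [e]
      show _ = f (a (k.1 x))
      rw [h.1, k.2])
    refine ⟨⟨t, ht2⟩, ?_⟩
    apply Subtype.ext
    apply MulActionHom.ext
    intro x
    have h0 : f (t (u x)) = g (j x) := by rw [ht2, e]
    obtain ⟨p, -, hp⟩ := h.2 (t (u x)) (j x) h0
    have e1 := hp ((baseS h u e ⟨t, ht2⟩).1 x) ⟨baseS_a h u e ⟨t, ht2⟩ x,
      (baseS h u e ⟨t, ht2⟩).2 x⟩
    have e2 := hp (k.1 x) ⟨(ht1 x).symm, k.2 x⟩
    rw [e1, e2]

theorem base (F : Fac O) (V : DFun O) (h : IsPB a b f g) (hf : Adm O f) (hb : Adm O b)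
    (m : sec V X) : pull F V g (push F V f hf m) = push F V b hb (pull F V a m) := by
  apply Subtype.ext
  funext j
  obtain ⟨l, u, hu, e⟩ := fac' F j.K Y (g.comp j.f)
  have e' : ∀ x, l.f (u x) = g (j.f x) := e
  refine (pull_spec F V g _ j l u hu e').trans ?_
  refine (map_sum (V.res u hu) (fun k : Sect f l.f => val m l.K k.1 (l.adm.of_comp k.2))
    Finset.univ).trans ?_
  refine Fintype.sum_bijective (baseS h u e') (baseS_bij F h hf u hu e') _ _ fun k => ?_
  symm
  exact pull_spec F V a m ⟨j.K, (baseS h u e' k).1, j.adm.of_comp (baseS h u e' k).2⟩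
    ⟨l.K, k.1, l.adm.of_comp k.2⟩ u hu (fun x => (baseS_a h u e' k x).symm)

end base

/-! ### additivity -/

section add

variable {I : Type} [Finite I] {X : I → GSet G}

theorem decomp {K : Subgroup G} (f : orb K →[G] sigma I X) :
    ∃ (i : I) (k : orb K →[G] X i), ∀ x, f x = incl X i (k x) := by
  obtain ⟨i₀, hi⟩ : ∃ i₀ : I, ∀ x : orb K, (f x : Σ i, X i).1 = i₀ := by
    let e : orb K := ((1 : G) : G ⧸ K)
    refine ⟨(f e : Σ i, X i).1, fun x => ?_⟩
    obtain ⟨s, rfl⟩ : ∃ s : G, s • e = x := MulAction.exists_smul_eq G ((1 : G) : G ⧸ K) x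
    have h1 : f (s • e) = s • f e := map_smul f s e
    rw [h1]
    rfl
  have hex : ∀ x : orb K, ∃ y : X i₀, f x = incl X i₀ y := by
    intro x
    have h1 := hi x
    subst h1
    exact ⟨(f x : Σ i, X i).2, rfl⟩
  choose k hk using hex
  refine ⟨i₀, ⟨k, fun s x => ?_⟩, hk⟩
  have h1 : f (s • x) = s • f x := map_smul f s x
  rw [hk (s • x), hk x] at h1
  have h3 : (⟨i₀, k (s • x)⟩ : Σ i, X i) = ⟨i₀, s • k x⟩ := h1
  exact eq_of_heq (Sigma.mk.inj h3).2

theorem pull_incl (F : Fac O) (V : DFun O) (i : I) (m : sec V (sigma I X)) (k : Idx O (X i))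
    (hk : Adm O ((incl X i).comp k.f)) :
    (pull F V (incl X i) m).1 k = val m k.K ((incl X i).comp k.f) hk := by
  rw [pull_spec F V (incl X i) m k ⟨k.K, (incl X i).comp k.f, hk⟩ (MulActionHom.id G)
    (DMap.id _) (fun x => rfl)]
  exact res_id V _ _

theorem glue_aux (V : DFun O) (n : ∀ i, sec V (X i)) {K K' : Subgroup G} (i i' : I)
    (k : orb K →[G] X i) (k' : orb K' →[G] X i') (hk : Adm O k) (hk' : Adm O k')
    (a : orb K →[G] orb K') (ha : DMap O a)
    (h : ∀ x, incl X i' (k' (a x)) = incl X i (k x)) :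
    V.res a ha (val (n i') K' k' hk') = val (n i) K k hk := by
  have e : orb K := ((1 : G) : G ⧸ K)
  have h1 : (⟨i', k' (a e)⟩ : Σ i, X i) = ⟨i, k e⟩ := h e
  have h2 : i' = i := (Sigma.mk.inj h1).1
  subst h2
  exact (n i').2 ⟨K, k, hk⟩ ⟨K', k', hk'⟩ a ha (fun x => eq_of_heq (Sigma.mk.inj (h x)).2)

theorem add (F : Fac O) (V : DFun O) : Function.Bijective
    (fun (m : sec V (sigma I X)) (i : I) => pull F V (incl X i) m) := by
  constructor
  · intro m m' h
    apply Subtype.ext
    funext j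
    obtain ⟨i, k, hk⟩ := decomp j.f
    have hadm : Adm O k := j.adm.of_comp (p := incl X i) (fun x => (hk x).symm)
    have hadm' : Adm O ((incl X i).comp k) := adm_comp hadm (adm_incl O X i)
    have h1 : (pull F V (incl X i) m).1 ⟨j.K, k, hadm⟩ =
        (pull F V (incl X i) m').1 ⟨j.K, k, hadm⟩ :=
      congrArg (fun w : sec V (X i) => w.1 ⟨j.K, k, hadm⟩) (congrFun h i)
    have h2 := pull_incl F V i m ⟨j.K, k, hadm⟩ hadm'
    have h3 := pull_incl F V i m' ⟨j.K, k, hadm⟩ hadm'
    exact (sec_congr V m hk j.adm hadm').trans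
      ((h2.symm.trans (h1.trans h3)).trans (sec_congr V m' hk j.adm hadm').symm)
  · intro n
    choose di dk hdk using fun j : Idx O (sigma I X) => decomp j.f
    have hadm : ∀ j, Adm O (dk j) := fun j =>
      j.adm.of_comp (p := incl X (di j)) (fun x => (hdk j x).symm)
    refine ⟨⟨fun j => val (n (di j)) j.K (dk j) (hadm j), ?_⟩, ?_⟩
    · intro j j' a ha h
      exact glue_aux V n (di j) (di j') (dk j) (dk j') (hadm j) (hadm j') a ha
        (fun x => by rw [← hdk, ← hdk, h])
    · funext i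
      apply Subtype.ext
      funext k
      have hadm' : Adm O ((incl X i).comp k.f) := adm_comp k.adm (adm_incl O X i)
      refine (pull_incl F V i _ k hadm').trans ?_
      have h1 := glue_aux V n (K := k.K) (K' := k.K) i (di ⟨k.K, (incl X i).comp k.f, hadm'⟩) k.f
        (dk ⟨k.K, (incl X i).comp k.f, hadm'⟩) k.adm (hadm ⟨k.K, (incl X i).comp k.f, hadm'⟩)
        (MulActionHom.id G) (DMap.id _)
        (fun x => (hdk ⟨k.K, (incl X i).comp k.f, hadm'⟩ x).symm)
      exact (res_id V _ _).symm.trans h1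

end add

end MVP

theorem mv : stmMV := by
  intro h G _ _ O V
  have F : MVP.Fac O := ⟨(h G O).1, (h G O).2.1, (h G O).2.2⟩
  refine ⟨{ M := fun X => sec V X
            pull := fun f => MVP.pull F V f
            push := fun f hf => MVP.push F V f hf
            pull_id := fun X m => MVP.pull_id F V X m
            pull_comp := fun f g m => MVP.pull_comp F V f g m
            push_id := fun X h m => MVP.push_id F V X h m
            push_comp := fun f g hf hg hgf m => MVP.push_comp F V f g hf hg hgf m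
            base := fun a b f g h hf hb m => MVP.base F V h hf hb m
            add := fun I _ X => MVP.add F V }, fun X => LinearEquiv.refl ℚ _, ?_, ?_⟩
  · intro X Y h m i j u hu e
    exact MVP.pull_spec F V h m i j u hu e
  · intro X Y p hp m j
    exact MVP.push_spec F V p hp m j

end Pool.Agent.R722.MK
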