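import Pool.Agent.R722.MK.Stm

/-!
# MP_093cae_al, piece MK-NIL
-/

set_option autoImplicit false

namespace Pool.Agent.R722.MK

open CategoryTheory CategoryTheory.Limits MulAction

namespace NilP

variable {G : Type} [Group G]

/-- pull-back of `G`-sets -/
def pb {X Z Y : GSet G} (u : X →[G] Y) (f : Z →[G] Y) : GSet G where
  carrier := {p : X × Z // u p.1 = f p.2}
  fin := inferInstance
  act :=
    { smul := fun g p => ⟨(g • p.1.1, g • p.1.2), by
        show u (g • p.1.1) = f (g • p.1.2)
        rw [map_smul, map_smul, p.2]⟩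
      one_smul := fun p => Subtype.ext (Prod.ext (one_smul G p.1.1) (one_smul G p.1.2))
      mul_smul := fun g h p =>
        Subtype.ext (Prod.ext (mul_smul g h p.1.1) (mul_smul g h p.1.2)) }

/-- first projection -/
def pb1 {X Z Y : GSet G} (u : X →[G] Y) (f : Z →[G] Y) : pb u f →[G] X where
  toFun p := p.1.1
  map_smul' _ _ := rfl

/-- second projection -/
def pb2 {X Z Y : GSet G} (u : X →[G] Y) (f : Z →[G] Y) : pb u f →[G] Z where
  toFun p := p.1.2
  map_smul' _ _ := rfl

theorem isPB {X Z Y : GSet G} (u : X →[G] Y) (f : Z →[G] Y) : IsPB (pb2 u f) (pb1 u f) f u := by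
  refine ⟨fun p => p.2.symm, fun z x h => ⟨⟨(x, z), h.symm⟩, ⟨rfl, rfl⟩, ?_⟩⟩
  rintro ⟨⟨x', z'⟩, h'⟩ ⟨h1, h2⟩
  have e1 : z' = z := h1
  have e2 : x' = x := h2
  subst e1 e2
  rfl

theorem stab_pb {X Z Y : GSet G} (u : X →[G] Y) (f : Z →[G] Y) (p : pb u f) :
    stabilizer G p = stabilizer G (pb2 u f p) ⊓ stabilizer G (pb1 u f p) := by
  ext g
  rw [Subgroup.mem_inf, mem_stabilizer_iff, mem_stabilizer_iff, mem_stabilizer_iff]
  constructor
  · intro h
    rw [← map_smul, ← map_smul, h]
    exact ⟨rfl, rfl⟩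
  · rintro ⟨h1, h2⟩
    exact Subtype.ext (Prod.ext h2 h1)

theorem stab_le {X Y : GSet G} (f : X →[G] Y) (x : X) : stabilizer G x ≤ stabilizer G (f x) := by
  intro g hg
  rw [mem_stabilizer_iff] at hg ⊢
  rw [← map_smul, hg]

end NilP

open NilP

theorem nil_ : stmNil := by
  intro G _ _ O M X Y
  constructor
  · intro u hu
    have h : nil M Y ≤ (nil M X).comap (M.pull u) := by
      rw [nil, Submodule.span_le]
      rintro m ⟨Z, f, hf, hne, n, rfl⟩
      rw [SetLike.mem_coe, Submodule.mem_comap]
      have hb : Adm O (pb1 u f) := by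
        intro p
        rw [stab_pb]
        have h1 : O.rel (stabilizer G (pb2 u f p)) (stabilizer G (f (pb2 u f p))) := hf _
        apply O.restrict h1
        have h2 : f (pb2 u f p) = u (pb1 u f p) := p.2.symm
        rw [h2]
        exact stab_le u _
      rw [M.base (pb2 u f) (pb1 u f) f u (isPB u f) hf hb n]
      refine Submodule.subset_span ⟨pb u f, pb1 u f, hb, fun p hp => ?_, _, rfl⟩
      rw [stab_pb] at hp
      have h1 : stabilizer G (pb1 u f p) ≤ stabilizer G (pb2 u f p) := by
        rw [← hp]; exact inf_le_left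
      have h2 : f (pb2 u f p) = u (pb1 u f p) := p.2.symm
      apply hne (pb2 u f p)
      rw [h2]
      refine (hu (pb1 u f p)).2 _ ?_ h1
      rw [← h2]
      exact hf _
    exact fun m hm => h hm
  · intro f hf
    have h : nil M X ≤ (nil M Y).comap (M.push f hf) := by
      rw [nil, Submodule.span_le]
      rintro m ⟨Z, g, hg, hne, n, rfl⟩
      rw [SetLike.mem_coe, Submodule.mem_comap]
      have hfg : Adm O (f.comp g) := fun z => O.trans (hg z) (hf (g z))
      rw [← M.push_comp g f hg hf hfg n]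
      refine Submodule.subset_span ⟨Z, f.comp g, hfg, fun z hz => ?_, n, rfl⟩
      apply hne z
      refine le_antisymm (stab_le g z) ?_
      rw [hz]
      exact stab_le f (g z)
    exact fun m hm => h hm

end Pool.Agent.R722.MK
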