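import Pool.Agent.R722.MK.Stm

/-! MK-ORB: consequences of additivity. -/

set_option autoImplicit false

namespace Pool.Agent.R722.MK

open CategoryTheory CategoryTheory.Limits MulAction

namespace Orbs

variable {G : Type} [Group G] {O : TransferSystem G}

theorem adm_id (X : GSet G) : Adm O (MulActionHom.id G : X →[G] X) := fun _ => O.refl _

theorem stab_le {X Y : GSet G} (f : X →[G] Y) (x : X) :
    stabilizer G x ≤ stabilizer G (f x) := by
  intro s hs
  rw [mem_stabilizer_iff] at hs ⊢
  rw [← map_smul, hs]

theorem stab_inj {X Y : GSet G} (f : X →[G] Y) (hf : Function.Injective f) (x : X) :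
    stabilizer G x = stabilizer G (f x) := by
  apply le_antisymm (stab_le f x)
  intro s hs
  rw [mem_stabilizer_iff] at hs ⊢
  apply hf
  rw [map_smul, hs]

theorem adm_inj {X Y : GSet G} (f : X →[G] Y) (hf : Function.Injective f) : Adm O f := by
  intro x
  rw [← stab_inj f hf x]
  exact O.refl _

theorem adm_comp {X Y Z : GSet G} {f : X →[G] Y} {g : Y →[G] Z} (hf : Adm O f) (hg : Adm O g) :
    Adm O (g.comp f) := fun x => O.trans (hf x) (hg (f x))

theorem push_pull (M : Mackey O) {X Y : GSet G} (a : X →[G] Y) (ha : Adm O a)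
    (hb : Function.Bijective a) (m : M.M Y) : M.push a ha (M.pull a m) = m := by
  have hpb : IsPB a a (MulActionHom.id G : Y →[G] Y) (MulActionHom.id G) := by
    refine ⟨fun _ => rfl, ?_⟩
    intro x y hxy
    have hxy' : x = y := hxy
    subst hxy'
    obtain ⟨p, hp⟩ := hb.2 x
    exact ⟨p, ⟨hp, hp⟩, fun q hq => hb.1 (hq.1.trans hp.symm)⟩
  have h := M.base a a (MulActionHom.id G) (MulActionHom.id G) hpb (adm_id Y) ha m
  rw [M.push_id, M.pull_id] at h
  exact h.symm

theorem pull_push (M : Mackey O) {X Y : GSet G} (a : X →[G] Y) (ha : Adm O a)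
    (hb : Function.Injective a) (m : M.M X) : M.pull a (M.push a ha m) = m := by
  have hpb : IsPB (MulActionHom.id G : X →[G] X) (MulActionHom.id G) a a := by
    refine ⟨fun _ => rfl, ?_⟩
    intro x y hxy
    have := hb hxy
    subst this
    exact ⟨x, ⟨rfl, rfl⟩, fun q hq => hq.1⟩
  have h := M.base (MulActionHom.id G) (MulActionHom.id G) a a hpb ha (adm_id X) m
  rw [M.pull_id, M.push_id] at h
  exact h

/-- the empty `G`-set -/
def E0 (G : Type) [Group G] : GSet G := sigma Empty (fun e => e.elim)

/-- the empty map -/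
def fromE0 (X : GSet G) : E0 G →[G] X where
  toFun p := Empty.elim p.1
  map_smul' _ p := Empty.elim p.1

theorem E0_zero (M : Mackey O) (m : M.M (E0 G)) : m = 0 := by
  apply (M.add Empty (fun e => e.elim)).1
  funext i
  exact Empty.elim i

theorem incl_inj {I : Type} [Finite I] (X : I → GSet G) (i : I) :
    Function.Injective (incl X i) := by
  intro x y h
  have h' : (⟨i, x⟩ : Σ i, X i) = ⟨i, y⟩ := h
  simpa using h'

theorem pull_push_ne (M : Mackey O) {I : Type} [Finite I] (X : I → GSet G) (i j : I)
    (hij : i ≠ j) (m : M.M (X i)) :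
    M.pull (incl X j) (M.push (incl X i) (adm_incl O X i) m) = 0 := by
  have hpb : IsPB (fromE0 (X i)) (fromE0 (X j)) (incl X i) (incl X j) := by
    refine ⟨fun p => Empty.elim p.1, ?_⟩
    intro x y hxy
    exfalso
    apply hij
    have h' : (⟨i, x⟩ : Σ i, X i) = ⟨j, y⟩ := hxy
    exact congrArg Sigma.fst h'
  have hadm : Adm O (fromE0 (X j)) := fun p => Empty.elim p.1
  rw [M.base _ _ _ _ hpb (adm_incl O X i) hadm m, E0_zero M (M.pull (fromE0 (X i)) m), map_zero]

theorem additivity (M : Mackey O) (I : Type) [Fintype I] (X : I → GSet G)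
    (m : M.M (sigma I X)) :
    m = ∑ i, M.push (incl X i) (adm_incl O X i) (M.pull (incl X i) m) := by
  apply (M.add I X).1
  funext j
  change M.pull (incl X j) m
    = M.pull (incl X j) (∑ i, M.push (incl X i) (adm_incl O X i) (M.pull (incl X i) m))
  rw [map_sum, Finset.sum_eq_single j]
  · rw [pull_push M _ _ (incl_inj X j)]
  · intro i _ hij
    exact pull_push_ne M X i j hij _
  · intro h
    exact absurd (Finset.mem_univ j) h

variable [Finite G]

/-- the orbit map of a point -/
def om {X : GSet G} (x : X) : orb (stabilizer G x) →[G] X where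
  toFun := ofQuotientStabilizer G x
  map_smul' g y := ofQuotientStabilizer_smul G x g y

/-- the total orbit map -/
noncomputable def tot (X : GSet G) :
    sigma (Quotient (orbitRel G X)) (fun i => orb (stabilizer G (i.out : X))) →[G] X where
  toFun p := ofQuotientStabilizer G (p.1.out : X) p.2
  map_smul' g p := ofQuotientStabilizer_smul G (p.1.out : X) g p.2

theorem tot_bij (X : GSet G) : Function.Bijective (tot X) := by
  constructor
  · rintro ⟨i, y⟩ ⟨j, z⟩ h
    have h' : ofQuotientStabilizer G (i.out : X) y = ofQuotientStabilizer G (j.out : X) z := h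
    have hij : i = j := by
      have h1 : ofQuotientStabilizer G (i.out : X) y ∈ orbit G (i.out : X) :=
        ofQuotientStabilizer_mem_orbit G (i.out : X) y
      have h2 : ofQuotientStabilizer G (j.out : X) z ∈ orbit G (j.out : X) :=
        ofQuotientStabilizer_mem_orbit G (j.out : X) z
      rw [h'] at h1
      have h3 : (i.out : X) ∈ orbit G (j.out : X) := by
        have h4 := orbit_eq_iff.mpr h1
        have h5 := orbit_eq_iff.mpr h2
        rw [← orbit_eq_iff, ← h4, h5]
      have h6 : (⟦(i.out : X)⟧ : Quotient (orbitRel G X)) = ⟦(j.out : X)⟧ := Quotient.sound h3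
      rwa [Quotient.out_eq, Quotient.out_eq] at h6
    subst hij
    have := injective_ofQuotientStabilizer G (i.out : X) h'
    rw [this]
  · intro x
    have h1 := Quotient.mk_out (s := orbitRel G X) x
    have h2 : x ∈ orbit G ((⟦x⟧ : Quotient (orbitRel G X)).out : X) := by
      have h3 : ((⟦x⟧ : Quotient (orbitRel G X)).out : X) ∈ orbit G x := h1
      exact mem_orbit_symm.mp h3
    obtain ⟨g, hg⟩ := h2
    exact ⟨⟨⟦x⟧, (g : G ⧸ stabilizer G ((⟦x⟧ : Quotient (orbitRel G X)).out : X))⟩, hg⟩

/-- decomposition of a `G`-set into orbits -/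
theorem decomp (X : GSet G) : ∃ (I : Type) (_ : Fintype I) (K : I → Subgroup G)
    (k : ∀ i, orb (K i) →[G] X) (hk : ∀ i, Function.Injective (k i)),
    ∀ (M : Mackey O) (m : M.M X), m = ∑ i, M.push (k i) (adm_inj _ (hk i)) (M.pull (k i) m) := by
  classical
  let I := Quotient (orbitRel G X)
  have : Finite I := Quotient.finite _
  have : Fintype I := Fintype.ofFinite I
  let Y : I → GSet G := fun i => orb (stabilizer G (i.out : X))
  have hinj : ∀ i, Function.Injective ((tot X).comp (incl Y i)) := by
    intro i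
    exact (tot_bij X).1.comp (incl_inj Y i)
  refine ⟨I, inferInstance, fun i => stabilizer G (i.out : X), fun i => (tot X).comp (incl Y i),
    hinj, ?_⟩
  intro M m
  have hta : Adm O (tot X) := adm_inj _ (tot_bij X).1
  have h1 := push_pull M (tot X) hta (tot_bij X) m
  have h2 := additivity M I Y (M.pull (tot X) m)
  have h3 : M.push (tot X) hta (M.pull (tot X) m) = ∑ i, M.push ((tot X).comp (incl Y i))
      (adm_inj _ (hinj i)) (M.pull ((tot X).comp (incl Y i)) m) := by
    rw [h2, map_sum]
    apply Finset.sum_congr rfl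
    intro i _
    rw [M.push_comp (incl Y i) (tot X) (adm_incl O Y i) hta, M.pull_comp]
  rw [← h3, h1]

omit [Finite G] in
theorem push_nil (M : Mackey O) {X Y : GSet G} (f : X →[G] Y) (hf : Adm O f) (m : M.M X)
    (hm : m ∈ nil M X) : M.push f hf m ∈ nil M Y := by
  unfold nil at hm
  induction hm using Submodule.span_induction with
  | mem x hx =>
    obtain ⟨Z, g, hg, hst, n, rfl⟩ := hx
    apply Submodule.subset_span
    refine ⟨Z, f.comp g, adm_comp hg hf, ?_, n, ?_⟩
    · intro y h
      apply hst y
      apply le_antisymm (stab_le g y)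
      have h1 : stabilizer G (g y) ≤ stabilizer G (f (g y)) := stab_le f (g y)
      have h2 : stabilizer G y = stabilizer G (f (g y)) := h
      rw [h2]
      exact h1
    · exact M.push_comp g f hg hf (adm_comp hg hf) n
  | zero => rw [map_zero]; exact Submodule.zero_mem _
  | add x y _ _ hx hy => rw [map_add]; exact Submodule.add_mem _ hx hy
  | smul c x _ hx => rw [map_smul]; exact Submodule.smul_mem _ c hx

end Orbs

open Orbs in
theorem orbs : stmOrb := by
  intro G _ _ O M
  refine ⟨?_, ?_, ?_, ?_, ?_⟩
  · intro X Y a ha hb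
    exact ⟨push_pull M a ha hb, pull_push M a ha hb.1⟩
  · intro I _ X m
    exact additivity M I X m
  · intro X m hm
    obtain ⟨I, _, K, k, hk, h⟩ := decomp (O := O) X
    rw [h M m]
    apply Finset.sum_eq_zero
    intro i _
    rw [hm ⟨K i, k i, adm_inj _ (hk i)⟩ (hk i), map_zero]
  · intro X m hm
    obtain ⟨I, _, K, k, hk, h⟩ := decomp (O := O) X
    rw [h M m]
    apply Submodule.sum_mem
    intro i _
    exact push_nil M _ _ _ (hm ⟨K i, k i, adm_inj _ (hk i)⟩ (hk i))
  · intro X Z f hf n
    obtain ⟨I, _, K, k, hk, h⟩ := decomp (O := O) Z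
    have h1 : M.push f hf n = ∑ i, M.push f hf
        (M.push (k i) (adm_inj _ (hk i)) (M.pull (k i) n)) := by
      conv_lhs => rw [h M n]
      rw [map_sum]
    rw [h1]
    apply Submodule.sum_mem
    intro i _
    apply Submodule.subset_span
    refine ⟨⟨K i, f.comp (k i), adm_comp (adm_inj _ (hk i)) hf⟩, k i, fun _ => rfl, hk i,
      M.pull (k i) n, ?_⟩
    exact M.push_comp (k i) f (adm_inj _ (hk i)) hf _ _

end Pool.Agent.R722.MK
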