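import Pool.Agent.R722.MK.Stm

/-!
# MK-PDX: extensions and projective dimension (horseshoe lemma)
-/

set_option autoImplicit false

namespace Pool.Agent.R722.MK

open CategoryTheory CategoryTheory.Limits

namespace PDX

universe v u

theorem pdLE_of_iso {C : Type u} [Category.{v} C] [HasZeroMorphisms C] (n : ℕ) {X Y : C}
    (e : X ≅ Y) (h : PdLE n X) : PdLE n Y := by
  cases n with
  | zero => exact Projective.of_iso e h
  | succ n =>
    obtain ⟨K, P, i, p, w, hP, ⟨hK⟩, ⟨hX⟩, hn⟩ := h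
    have w' : i ≫ (p ≫ e.hom) = 0 := by rw [← Category.assoc, w, zero_comp]
    refine ⟨K, P, i, p ≫ e.hom, w', hP, ⟨?_⟩, ⟨?_⟩, hn⟩
    · exact isKernelCompMono hK e.hom rfl
    · refine IsColimit.ofIsoColimit hX (Cofork.ext e ?_)
      simp

variable {C : Type u} [Category.{v} C] [Abelian C]

/-- the snake input given by a morphism of short exact sequences -/
noncomputable def snake {L₁ L₂ : ShortComplex C} (φ : L₁ ⟶ L₂) (h1 : L₁.ShortExact)
    (h2 : L₂.ShortExact) : ShortComplex.SnakeInput C where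
  L₀ := kernel φ
  L₁ := L₁
  L₂ := L₂
  L₃ := cokernel φ
  v₀₁ := kernel.ι φ
  v₁₂ := φ
  v₂₃ := cokernel.π φ
  w₀₂ := kernel.condition φ
  w₁₃ := cokernel.condition φ
  h₀ := kernelIsKernel φ
  h₃ := cokernelIsCokernel φ
  L₁_exact := h1.exact
  epi_L₁_g := h1.epi_g
  L₂_exact := h2.exact
  mono_L₂_f := h2.mono_f

theorem isZero_of_epi_comp {X Y Z : C} (f : X ⟶ Y) (g : Y ⟶ Z) [Epi f] [Epi g] (w : f ≫ g = 0) :
    IsZero Z := by
  have h1 : g = 0 := by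
    rw [← cancel_epi f, w, comp_zero]
  have h2 : Epi (0 : Y ⟶ Z) := by rw [← h1]; infer_instance
  rw [IsZero.iff_id_eq_zero, ← cancel_epi (0 : Y ⟶ Z)]
  simp

theorem snake_epi {L₁ L₂ : ShortComplex C} (φ : L₁ ⟶ L₂) (h1 : L₁.ShortExact)
    (h2 : L₂.ShortExact) (e1 : Epi φ.τ₁) (e3 : Epi φ.τ₃) : Epi φ.τ₂ := by
  have hz1 : IsZero (snake φ h1 h2).L₃.X₁ := by
    have : Epi (snake φ h1 h2).v₁₂.τ₁ := e1
    exact isZero_of_epi_comp _ _ (snake φ h1 h2).w₁₃_τ₁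
  have hz3 : IsZero (snake φ h1 h2).L₃.X₃ := by
    have : Epi (snake φ h1 h2).v₁₂.τ₃ := e3
    exact isZero_of_epi_comp _ _ (snake φ h1 h2).w₁₃_τ₃
  have hz2 : IsZero (snake φ h1 h2).L₃.X₂ :=
    (snake φ h1 h2).L₃_exact.isZero_of_both_zeros (hz1.eq_of_src _ _) (hz3.eq_of_tgt _ _)
  have h4 := (snake φ h1 h2).exact_C₂_down
  exact h4.epi_f (hz2.eq_of_tgt _ _)

theorem snake_ker {L₁ L₂ : ShortComplex C} (φ : L₁ ⟶ L₂) (h1 : L₁.ShortExact)
    (h2 : L₂.ShortExact) (e1 : Epi φ.τ₁) : (snake φ h1 h2).L₀.ShortExact := by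
  have : Mono (snake φ h1 h2).L₁.f := h1.mono_f
  have hz1 : IsZero (snake φ h1 h2).L₃.X₁ := by
    have : Epi (snake φ h1 h2).v₁₂.τ₁ := e1
    exact isZero_of_epi_comp _ _ (snake φ h1 h2).w₁₃_τ₁
  exact
    { exact := (snake φ h1 h2).L₀_exact
      mono_f := inferInstance
      epi_g := (snake φ h1 h2).L₁'_exact.epi_f (hz1.eq_of_tgt _ _) }

theorem pdExt_abelian (n : ℕ) : ∀ (S : ShortComplex C), S.ShortExact → PdLE n S.X₁ →
    PdLE n S.X₃ → PdLE n S.X₂ := by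
  induction n with
  | zero =>
    intro S hS h1 h3
    have : Projective S.X₁ := h1
    have : Projective S.X₃ := h3
    have hs := hS.splittingOfProjective
    exact Projective.of_iso hs.isoBinaryBiproduct.symm inferInstance
  | succ n ih =>
    intro S hS h1 h3
    obtain ⟨K₁, P₁, i₁, p₁, w₁, hP₁, ⟨hK₁⟩, ⟨hX₁⟩, hn₁⟩ := h1
    obtain ⟨K₃, P₃, i₃, p₃, w₃, hP₃, ⟨hK₃⟩, ⟨hX₃⟩, hn₃⟩ := h3
    have := hS.epi_g
    have e1 : Epi p₁ := epi_of_isColimit_cofork hX₁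
    have e3 : Epi p₃ := epi_of_isColimit_cofork hX₃
    let s : P₃ ⟶ S.X₂ := Projective.factorThru p₃ S.g
    have hs : s ≫ S.g = p₃ := Projective.factorThru_comp p₃ S.g
    let L : ShortComplex C := ShortComplex.mk (biprod.inl : P₁ ⟶ P₁ ⊞ P₃) biprod.snd (by simp)
    have hL : L.ShortExact := (ShortComplex.Splitting.ofHasBinaryBiproduct P₁ P₃).shortExact
    let φ : L ⟶ S :=
      { τ₁ := p₁
        τ₂ := biprod.desc (p₁ ≫ S.f) s
        τ₃ := p₃
        comm₁₂ := by simp [L]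
        comm₂₃ := by
          simp only [L]
          ext
          · simp
          · simp [hs] }
    have hker : (snake φ hL hS).L₀.ShortExact := snake_ker φ hL hS e1
    have he2 : Epi φ.τ₂ := snake_epi φ hL hS e1 e3
    have he2' : Epi (snake φ hL hS).v₁₂.τ₂ := he2
    have k1 : PdLE n (snake φ hL hS).L₀.X₁ :=
      pdLE_of_iso n (IsLimit.conePointUniqueUpToIso hK₁ (snake φ hL hS).h₀τ₁) hn₁
    have k3 : PdLE n (snake φ hL hS).L₀.X₃ :=
      pdLE_of_iso n (IsLimit.conePointUniqueUpToIso hK₃ (snake φ hL hS).h₀τ₃) hn₃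
    refine ⟨(snake φ hL hS).L₀.X₂, P₁ ⊞ P₃, (snake φ hL hS).v₀₁.τ₂, φ.τ₂,
      (snake φ hL hS).w₀₂_τ₂, inferInstance, ⟨(snake φ hL hS).h₀τ₂⟩, ⟨?_⟩, ih _ hker k1 k3⟩
    exact Abelian.epiIsCokernelOfKernel (f := (snake φ hL hS).v₁₂.τ₂) _ (snake φ hL hS).h₀τ₂

end PDX

theorem pdExt : stmPdExt := by
  intro G _ _ O n S hS h1 h3
  exact PDX.pdExt_abelian n S hS h1 h3

end Pool.Agent.R722.MK
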