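import Pool.Agent.R722.MK.Stm

/-!
# MP_093cae_al, piece MK-PDM
-/

set_option autoImplicit false

namespace Pool.Agent.R722.MK

open CategoryTheory CategoryTheory.Limits MulAction

theorem pdMap : stmPdMap := by
  intro G _ _ O O' hO hproj n
  set F : DFun O ⥤ DFun O' := (Functor.whiskeringLeft _ _ (ModuleCat.{0} ℚ)).obj (incO hO).op with hF
  haveI : F.PreservesZeroMorphisms := ⟨fun X Y => rfl⟩
  induction n with
  | zero =>
    intro X hX
    exact hproj X hX
  | succ n ih =>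
    rintro X ⟨K, P, i, p, w, hP, ⟨h1⟩, ⟨h2⟩, hK⟩
    refine ⟨F.obj K, F.obj P, F.map i, F.map p, ?_, hproj P hP, ⟨?_⟩, ⟨?_⟩, ih K hK⟩
    · rw [← F.map_comp, w, F.map_zero]
    · exact KernelFork.mapIsLimit (KernelFork.ofι i w) h1 F
    · exact CokernelCofork.mapIsColimit (CokernelCofork.ofπ p w) h2 F

end Pool.Agent.R722.MK
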