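import Pool.Agent.R722.MK.Stm

/-!
# MP_093cae_al (project MK): restriction preserves projectives
-/

set_option autoImplicit false

namespace Pool.Agent.R722.MK

open CategoryTheory CategoryTheory.Limits MulAction Opposite

namespace PJ

variable {G : Type} [Group G] [Finite G]

lemma res_comp {O : TransferSystem G} (A : DFun O) {J K P : Subgroup G} (v : orb J →[G] orb K)
    (u : orb K →[G] orb P) (hv : DMap O v) (hu : DMap O u) (huv : DMap O (u.comp v))
    (x : A.obj (op ⟨P⟩)) : A.res (u.comp v) huv x = A.res v hv (A.res u hu x) := by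
  have h := A.map_comp (Quiver.Hom.op (⟨u, hu⟩ : (⟨K⟩ : Orb O) ⟶ ⟨P⟩))
    (Quiver.Hom.op (⟨v, hv⟩ : (⟨J⟩ : Orb O) ⟶ ⟨K⟩))
  exact congrArg (fun f => f.hom x) h

lemma res_id {O : TransferSystem G} (A : DFun O) {K : Subgroup G}
    (h : DMap O (MulActionHom.id G : orb K →[G] orb K)) (x : A.obj (op ⟨K⟩)) :
    A.res (MulActionHom.id G) h x = x := by
  have h1 := A.map_id (op (⟨K⟩ : Orb O))
  exact congrArg (fun f => f.hom x) h1

lemma res_congr {O : TransferSystem G} (A : DFun O) {J K : Subgroup G}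
    {u u' : orb J →[G] orb K} (hu : DMap O u) (hu' : DMap O u') (h : ∀ y, u y = u' y)
    (x : A.obj (op ⟨K⟩)) : A.res u hu x = A.res u' hu' x := by
  have : u = u' := MulActionHom.ext h
  subst this
  rfl

lemma res_nat {O : TransferSystem G} {A B : DFun O} (φ : A ⟶ B) {J K : Subgroup G}
    (u : orb J →[G] orb K) (hu : DMap O u) (x : A.obj (op ⟨K⟩)) :
    (φ.app (op ⟨J⟩)).hom (A.res u hu x) = B.res u hu ((φ.app (op ⟨K⟩)).hom x) := by
  have h := φ.naturality (Quiver.Hom.op (⟨u, hu⟩ : (⟨J⟩ : Orb O) ⟶ ⟨K⟩))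
  exact congrArg (fun f => f.hom x) h

/-- the dense maps to an orbit -/
structure Dx (O : TransferSystem G) (L : Subgroup G) where
  K : Subgroup G
  f : orb K →[G] orb L
  dm : DMap O f

/-- the values of the right adjoint -/
noncomputable def Jm (O : TransferSystem G) {O' : TransferSystem G} (A : DFun O')
    (L : Subgroup G) : Submodule ℚ (∀ i : Dx O L, A.obj (op ⟨i.K⟩)) where
  carrier := {a | ∀ (i j : Dx O L) (u : orb i.K →[G] orb j.K) (hu : DMap O' u),
    (∀ x, j.f (u x) = i.f x) → A.res u hu (a j) = a i}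
  zero_mem' := fun i j a ha _ => by simp
  add_mem' := fun {v w} hv hw i j a ha h => by
    simp only [Pi.add_apply, map_add]; rw [hv i j a ha h, hw i j a ha h]
  smul_mem' := fun c v hv i j a ha h => by
    simp only [Pi.smul_apply, map_smul]; rw [hv i j a ha h]

/-- the functoriality -/
noncomputable def Jres {O O' : TransferSystem G} (A : DFun O') {L M : Subgroup G}
    (h : orb L →[G] orb M) (hh : DMap O h) : Jm O A M →ₗ[ℚ] Jm O A L where
  toFun a := ⟨fun i => a.1 ⟨i.K, h.comp i.f, i.dm.comp hh⟩, fun i j u hu e =>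
    a.2 ⟨i.K, h.comp i.f, i.dm.comp hh⟩ ⟨j.K, h.comp j.f, j.dm.comp hh⟩ u hu
      (fun x => congrArg h (e x))⟩
  map_add' _ _ := rfl
  map_smul' _ _ := rfl

/-- the right adjoint -/
noncomputable def Jf (O : TransferSystem G) {O' : TransferSystem G} (A : DFun O') : DFun O where
  obj X := ModuleCat.of ℚ (Jm O A X.unop.K)
  map {X Y} h := ModuleCat.ofHom (Jres A h.unop.1 h.unop.2)
  map_id X := rfl
  map_comp f g := rfl

/-- the right adjoint on maps -/
noncomputable def Jmap (O : TransferSystem G) {O' : TransferSystem G} {A B : DFun O'}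
    (π : A ⟶ B) : Jf O A ⟶ Jf O B where
  app X := ModuleCat.ofHom
    { toFun := fun (a : Jm O A X.unop.K) => (⟨fun i => (π.app (op ⟨i.K⟩)).hom (a.1 i),
        fun i j u hu e => by rw [← res_nat, a.2 i j u hu e]⟩ : Jm O B X.unop.K)
      map_add' := fun a b => by
        apply Subtype.ext; funext i; exact map_add _ _ _
      map_smul' := fun c a => by
        apply Subtype.ext; funext i; exact map_smul _ _ _ }
  naturality X Y f := rfl

/-! ### stabilizers -/

lemma stab_le {X Y : GSet G} (f : X →[G] Y) (x : X) : stabilizer G x ≤ stabilizer G (f x) := by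
  intro s hs
  rw [mem_stabilizer_iff] at hs ⊢
  rw [← map_smul, hs]

lemma stab_eq {O : TransferSystem G} {X Y : GSet G} {f : X →[G] Y} (hd : DMap O f)
    (ha : Adm O f) (x : X) : stabilizer G x = stabilizer G (f x) :=
  (hd x).2 _ (ha x) le_rfl

lemma exists_smul {K : Subgroup G} (x y : orb K) : ∃ s : G, s • x = y := by
  haveI : IsPretransitive G (orb K) := inferInstanceAs (IsPretransitive G (G ⧸ K))
  exact exists_smul_eq G x y

lemma inj_of_stab {K : Subgroup G} {Z : GSet G} (f : orb K →[G] Z)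
    (h : ∀ x, stabilizer G x = stabilizer G (f x)) : Function.Injective f := by
  intro x y hxy
  obtain ⟨s, hs⟩ := exists_smul x y
  have h1 : s • f x = f x := by rw [← map_smul, hs, hxy]
  have h2 : s ∈ stabilizer G x := by
    rw [h x]
    exact h1
  rw [mem_stabilizer_iff] at h2
  rw [← hs, h2]

lemma dense_of_comp {O : TransferSystem G} {K P : Subgroup G} {Z : GSet G}
    (u : orb K →[G] orb P) (h : orb P →[G] Z) (hu : Function.Surjective u)
    (hd : ∀ x, Dense O (stabilizer G x) (stabilizer G (h (u x)))) : DMap O h := by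
  intro y
  obtain ⟨x, rfl⟩ := hu y
  exact ⟨stab_le h _, fun Q hQ hle => (hd x).2 Q hQ ((stab_le u x).trans hle)⟩

lemma exists_inv {O : TransferSystem G} {K P : Subgroup G} (f : orb K →[G] orb P)
    (hs : Function.Surjective f) (hst : ∀ x, stabilizer G x = stabilizer G (f x)) :
    ∃ g : orb P →[G] orb K, DMap O g ∧ (∀ x, g (f x) = x) ∧ ∀ y, f (g y) = y := by
  have hb : Function.Bijective f := ⟨inj_of_stab f hst, hs⟩
  let e := Equiv.ofBijective f hb
  have h1 : ∀ x, e.symm (f x) = x := fun x => e.symm_apply_apply x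
  have h2 : ∀ y, f (e.symm y) = y := fun y => e.apply_symm_apply y
  refine ⟨⟨fun y => e.symm y, fun s y => ?_⟩, ?_, h1, h2⟩
  · apply hb.1
    rw [h2, map_smul, h2]
    rfl
  · intro y
    obtain ⟨x, rfl⟩ := hs y
    change Dense O (stabilizer G (f x)) (stabilizer G (e.symm (f x)))
    rw [h1, ← hst x]
    exact Dense.refl _

/-! ### averaging -/

noncomputable instance fintypeDx (O : TransferSystem G) (L : Subgroup G) : Fintype (Dx O L) :=
  @Fintype.ofFinite _ (Finite.of_injective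
    (fun i : Dx O L => (⟨i.K, i.f⟩ : Σ K : Subgroup G, (orb K →[G] orb L)))
    (fun i j h => by
      obtain ⟨K, f, hf⟩ := i
      obtain ⟨L, g, hg⟩ := j
      simp only [Sigma.mk.injEq] at h
      obtain ⟨rfl, h⟩ := h
      cases h
      rfl))

/-- the `O'`-dense maps over `L` -/
def Is {O : TransferSystem G} (O' : TransferSystem G) {L : Subgroup G} (i j : Dx O L) : Type :=
  {k : orb i.K →[G] orb j.K // DMap O' k ∧ ∀ x, j.f (k x) = i.f x}

open Classical in
noncomputable instance {O O' : TransferSystem G} {L : Subgroup G} (i j : Dx O L) :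
    Fintype (Is O' i j) :=
  inferInstanceAs (Fintype {k : orb i.K →[G] orb j.K // DMap O' k ∧ ∀ x, j.f (k x) = i.f x})

variable {O O' : TransferSystem G} {L : Subgroup G}

/-- the `O'`-admissible ones -/
abbrev D0 (O O' : TransferSystem G) (L : Subgroup G) : Type := {i : Dx O L // Adm O' i.f}

noncomputable instance : Fintype (D0 O O' L) := Fintype.ofFinite _

/-- reindexing -/
lemma exists_equiv (hS : ∀ (K P : Subgroup G) (f : orb K →[G] orb P), Function.Surjective f)
    (i k : D0 O O' L) (β : Is O' i.1 k.1) (j : Dx O L) :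
    ∃ e : Is O' k.1 j ≃ Is O' i.1 j, ∀ α, ∀ x, (e α).1 x = α.1 (β.1 x) := by
  have hβa : Adm O' β.1 := i.2.of_comp β.2.2
  obtain ⟨g, hg1, hg2, hg3⟩ := exists_inv (O := O') β.1 (hS _ _ _) (stab_eq β.2.1 hβa)
  refine ⟨⟨fun α => ⟨α.1.comp β.1, β.2.1.comp α.2.1, fun x => ?_⟩,
    fun γ => ⟨γ.1.comp g, hg1.comp γ.2.1, fun x => ?_⟩, fun α => ?_, fun γ => ?_⟩,
    fun α x => rfl⟩
  · exact (α.2.2 (β.1 x)).trans (β.2.2 x)
  · refine (γ.2.2 (g x)).trans ?_
    have := β.2.2 (g x)
    rw [hg3] at this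
    exact this.symm
  · apply Subtype.ext
    apply MulActionHom.ext
    intro x
    change α.1 (β.1 (g x)) = α.1 x
    rw [hg3]
  · apply Subtype.ext
    apply MulActionHom.ext
    intro x
    change γ.1 (g (β.1 x)) = γ.1 x
    rw [hg2]

/-- the averaged lifts -/
lemma exists_avg (hS : ∀ (K P : Subgroup G) (f : orb K →[G] orb P), Function.Surjective f)
    {A B : DFun O'} (π : A ⟶ B) (hπ : ∀ K : Subgroup G,
      Function.Surjective (π.app (op ⟨K⟩)).hom) (b : Jm O B L) :
    ∃ c : ∀ i : D0 O O' L, A.obj (op ⟨i.1.K⟩),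
      (∀ i, (π.app (op ⟨i.1.K⟩)).hom (c i) = b.1 i.1) ∧
      ∀ (i k : D0 O O' L) (β : Is O' i.1 k.1), A.res β.1 β.2.1 (c k) = c i := by
  have hex : ∀ i : Dx O L, ∃ c : A.obj (op ⟨i.K⟩), (π.app (op ⟨i.K⟩)).hom c = b.1 i :=
    fun i => hπ i.K (b.1 i)
  choose c0 hc0 using hex
  let t : D0 O O' L → ℚ := fun i => ∑ j : D0 O O' L, (Fintype.card (Is O' i.1 j.1) : ℚ)
  have ht : ∀ i, t i ≠ 0 := by
    intro i
    have h1 : (0 : ℚ) < Fintype.card (Is O' i.1 i.1) := by
      have : Nonempty (Is O' i.1 i.1) := ⟨⟨MulActionHom.id G, DMap.id _, fun _ => rfl⟩⟩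
      exact_mod_cast Fintype.card_pos
    have h2 : (Fintype.card (Is O' i.1 i.1) : ℚ) ≤ t i :=
      Finset.single_le_sum (f := fun j : D0 O O' L => (Fintype.card (Is O' i.1 j.1) : ℚ))
        (fun j _ => Nat.cast_nonneg _) (Finset.mem_univ i)
    exact (lt_of_lt_of_le h1 h2).ne'
  let c : ∀ i : D0 O O' L, A.obj (op ⟨i.1.K⟩) := fun i =>
    (t i)⁻¹ • ∑ j : D0 O O' L, ∑ α : Is O' i.1 j.1, A.res α.1 α.2.1 (c0 j.1)
  refine ⟨c, fun i => ?_, fun i k β => ?_⟩
  · have h1 : ∀ (j : D0 O O' L) (α : Is O' i.1 j.1),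
        (π.app (op ⟨i.1.K⟩)).hom (A.res α.1 α.2.1 (c0 j.1)) = b.1 i.1 := by
      intro j α
      rw [res_nat, hc0]
      exact b.2 i.1 j.1 α.1 α.2.1 α.2.2
    change (π.app (op ⟨i.1.K⟩)).hom ((t i)⁻¹ • ∑ j : D0 O O' L, ∑ α : Is O' i.1 j.1,
      A.res α.1 α.2.1 (c0 j.1)) = b.1 i.1
    rw [map_smul, map_sum]
    simp only [map_sum, h1, Finset.sum_const, Finset.card_univ]
    have h2 : (∑ j : D0 O O' L, Fintype.card (Is O' i.1 j.1) • b.1 i.1) = t i • b.1 i.1 := by
      rw [Finset.sum_smul]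
      refine Finset.sum_congr rfl fun j _ => ?_
      rw [Nat.cast_smul_eq_nsmul]
    rw [h2, smul_smul, inv_mul_cancel₀ (ht i), one_smul]
  · have he := fun j => exists_equiv hS i k β j
    have htt : t k = t i := by
      refine Finset.sum_congr rfl fun j _ => ?_
      obtain ⟨e, _⟩ := he j.1
      rw [Fintype.card_congr e]
    change A.res β.1 β.2.1 ((t k)⁻¹ • ∑ j : D0 O O' L, ∑ α : Is O' k.1 j.1,
      A.res α.1 α.2.1 (c0 j.1)) = (t i)⁻¹ • ∑ j : D0 O O' L, ∑ α : Is O' i.1 j.1,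
      A.res α.1 α.2.1 (c0 j.1)
    rw [map_smul, htt, map_sum]
    congr 1
    refine Finset.sum_congr rfl fun j _ => ?_
    rw [map_sum]
    obtain ⟨e, hee⟩ := he j.1
    refine Fintype.sum_equiv e _ _ fun α => ?_
    rw [← res_comp A β.1 α.1 β.2.1 α.2.1 (β.2.1.comp α.2.1)]
    exact res_congr A _ _ (fun y => (hee α y).symm) _

/-- `J` preserves surjections -/
lemma Jmap_surj (hF : stmFac) {A B : DFun O'} (π : A ⟶ B) (hπ : ∀ K : Subgroup G,
      Function.Surjective (π.app (op ⟨K⟩)).hom) (b : Jm O B L) :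
    ∃ a : Jm O A L, ∀ i, (π.app (op ⟨i.K⟩)).hom (a.1 i) = b.1 i := by
  obtain ⟨F1, F2, F3⟩ := hF G O'
  obtain ⟨c, hc1, hc2⟩ := exists_avg F3 π hπ b
  have hq : ∀ i : Dx O L, ∃ (q : D0 O O' L) (u : orb i.K →[G] orb q.1.K), DMap O' u ∧
      ∀ x, q.1.f (u x) = i.f x := by
    intro i
    obtain ⟨P, u, h, h1, h2, h3⟩ := F1 i.K (orb L) i.f
    have hd : DMap O h := by
      refine dense_of_comp u h (F3 _ _ _) fun x => ?_
      rw [h3]
      exact i.dm x
    exact ⟨⟨⟨P, h, hd⟩, h2⟩, u, h1, h3⟩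
  choose q u hu hqu using hq
  have spec : ∀ (i : Dx O L) (k : D0 O O' L) (v : orb i.K →[G] orb k.1.K) (hv : DMap O' v),
      (∀ x, k.1.f (v x) = i.f x) → A.res (u i) (hu i) (c (q i)) = A.res v hv (c k) := by
    intro i k v hv hkv
    obtain ⟨a', ha1, ha2⟩ := F2 i.K (q i).1.K (orb k.1.K) (orb L) (u i) (q i).1.f v k.1.f
      (hu i) k.2 (fun x => (hqu i x).trans (hkv x).symm)
    have had : DMap O' a' := by
      refine dense_of_comp (u i) a' (F3 _ _ _) fun x => ?_
      rw [ha1]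
      exact hv x
    have h1 := hc2 (q i) k ⟨a', had, ha2⟩
    rw [← h1, ← res_comp A (u i) a' (hu i) had ((hu i).comp had)]
    exact res_congr A _ _ ha1 _
  refine ⟨⟨fun i => A.res (u i) (hu i) (c (q i)), fun i j v hv e => ?_⟩, fun i => ?_⟩
  · rw [← res_comp A v (u j) hv (hu j) (hv.comp (hu j))]
    refine (spec i (q j) ((u j).comp v) (hv.comp (hu j)) fun x => ?_).symm
    exact (hqu j (v x)).trans (e x)
  · change (π.app (op ⟨i.K⟩)).hom (A.res (u i) (hu i) (c (q i))) = b.1 i
    rw [res_nat, hc1]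
    exact b.2 i (q i).1 (u i) (hu i) (hqu i)

/-- components of a map from the restricted functor -/
noncomputable def fl (hO : ∀ K H, O.rel K H → O'.rel K H) {P : DFun O} {B : DFun O'}
    (f : (incO hO).op ⋙ P ⟶ B) (K : Subgroup G) : P.obj (op ⟨K⟩) →ₗ[ℚ] B.obj (op ⟨K⟩) :=
  (f.app (op ⟨K⟩)).hom

lemma fl_nat (hO : ∀ K H, O.rel K H → O'.rel K H) {P : DFun O} {B : DFun O'}
    (f : (incO hO).op ⋙ P ⟶ B) {J K : Subgroup G} (u : orb J →[G] orb K) (hu : DMap O u)
    (hu' : DMap O' u) (p : P.obj (op ⟨K⟩)) :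
    B.res u hu' (fl hO f K p) = fl hO f J (P.res u hu p) :=
  (res_nat f u hu' p).symm

/-- components of a map to the right adjoint -/
noncomputable def gl {P : DFun O} {A : DFun O'} (g : P ⟶ Jf O A) (K : Subgroup G) :
    P.obj (op ⟨K⟩) →ₗ[ℚ] Jm O A K :=
  (g.app (op ⟨K⟩)).hom

lemma gl_nat {P : DFun O} {A : DFun O'} (g : P ⟶ Jf O A) {J K : Subgroup G}
    (u : orb J →[G] orb K) (hu : DMap O u) (p : P.obj (op ⟨K⟩)) :
    gl g J (P.res u hu p) = Jres A u hu (gl g K p) :=
  res_nat g u hu p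

/-- the components of the map to the right adjoint -/
noncomputable def sharpL (hO : ∀ K H, O.rel K H → O'.rel K H) (P : DFun O) (B : DFun O')
    (f : (incO hO).op ⋙ P ⟶ B) (L : Subgroup G) : P.obj (op ⟨L⟩) →ₗ[ℚ] Jm O B L where
  toFun p := ⟨fun i => fl hO f i.K (P.res i.f i.dm p), fun i j u hu e => by
    have hud : DMap O u := fun x => (hu x).mono hO
    have k1 := fl_nat hO f u hud hu (P.res j.f j.dm p)
    have k2 := res_comp P u j.f hud j.dm (hud.comp j.dm) p
    exact k1.trans (congrArg (fl hO f i.K) (k2.symm.trans (res_congr P _ i.dm e p)))⟩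
  map_add' a b := by
    apply Subtype.ext; funext i
    change fl hO f i.K (P.res i.f i.dm (a + b)) = fl hO f i.K (P.res i.f i.dm a) +
      fl hO f i.K (P.res i.f i.dm b)
    rw [map_add, map_add]
  map_smul' c a := by
    apply Subtype.ext; funext i
    change fl hO f i.K (P.res i.f i.dm (c • a)) = c • fl hO f i.K (P.res i.f i.dm a)
    rw [map_smul, map_smul]

/-- the map to the right adjoint -/
noncomputable def sharp (hO : ∀ K H, O.rel K H → O'.rel K H) (P : DFun O) (B : DFun O')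
    (f : (incO hO).op ⋙ P ⟶ B) : P ⟶ Jf O B where
  app X := ModuleCat.ofHom (sharpL hO P B f X.unop.K)
  naturality X Y h := by
    apply ModuleCat.hom_ext
    apply LinearMap.ext
    intro p
    apply Subtype.ext
    funext i
    exact congrArg (fl hO f i.K)
      (res_comp P i.f h.unop.1 i.dm h.unop.2 (i.dm.comp h.unop.2) p).symm

/-- the components of the map back -/
noncomputable def flatL (hO : ∀ K H, O.rel K H → O'.rel K H) (P : DFun O) (A : DFun O')
    (g : P ⟶ Jf O A) (K : Subgroup G) : P.obj (op ⟨K⟩) →ₗ[ℚ] A.obj (op ⟨K⟩) where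
  toFun p := (gl g K p).1 ⟨K, MulActionHom.id G, DMap.id _⟩
  map_add' a b := by
    rw [map_add]
    rfl
  map_smul' c a := by
    rw [map_smul]
    rfl

/-- the map back -/
noncomputable def flat (hO : ∀ K H, O.rel K H → O'.rel K H) (P : DFun O) (A : DFun O')
    (g : P ⟶ Jf O A) : (incO hO).op ⋙ P ⟶ A where
  app X := ModuleCat.ofHom (flatL hO P A g X.unop.K)
  naturality X Y h := by
    apply ModuleCat.hom_ext
    apply LinearMap.ext
    intro p
    have h1 := gl_nat g (J := Y.unop.K) (K := X.unop.K) h.unop.1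
      (fun x => (h.unop.2 x).mono hO) p
    have h2 := (gl g X.unop.K p).2
      ⟨Y.unop.K, h.unop.1, fun x => (h.unop.2 x).mono hO⟩
      ⟨X.unop.K, MulActionHom.id G, DMap.id _⟩ h.unop.1 h.unop.2 (fun x => rfl)
    have h3 := congrFun (congrArg Subtype.val h1)
      ⟨Y.unop.K, MulActionHom.id G, DMap.id _⟩
    exact h3.trans h2.symm

end PJ

open PJ in
/-- piece MK-PROJ -/
theorem proj : stmProj := by
  intro hF G _ _ O O' hO P hP
  refine ⟨fun {A B} f e he => ?_⟩
  have hsurj : ∀ K : Subgroup G, Function.Surjective (f := (e.app (op ⟨K⟩)).hom) := by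
    intro K
    have h1 : Epi (e.app (op ⟨K⟩)) := inferInstance
    exact (ModuleCat.epi_iff_surjective _).1 h1
  have hJ : Epi (Jmap O e) := by
    have h2 : ∀ X, Epi ((Jmap O e).app X) := by
      intro X
      rw [ModuleCat.epi_iff_surjective]
      intro b
      obtain ⟨a, ha⟩ := Jmap_surj (L := X.unop.K) hF e hsurj b
      refine ⟨a, ?_⟩
      apply Subtype.ext
      funext i
      exact ha i
    exact NatTrans.epi_of_epi_app _
  obtain ⟨g, hg⟩ := Projective.factors (sharp hO P B f) (Jmap O e)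
  refine ⟨flat hO P A g, ?_⟩
  apply NatTrans.ext
  funext X
  apply ModuleCat.hom_ext
  apply LinearMap.ext
  intro p
  have h1 := congrArg (fun φ : P ⟶ Jf O B => gl φ X.unop.K p) hg
  have h2 := congrFun (congrArg Subtype.val h1) ⟨X.unop.K, MulActionHom.id G, DMap.id _⟩
  refine h2.trans ?_
  exact congrArg (fl hO f X.unop.K) (res_id P (DMap.id _) p)

end Pool.Agent.R722.MK
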