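import Pool.Agent.R722.MK.Stm

/-!
# MP_093cae_al (project MK), piece MK-RES: the double coset formula modulo transfers from properly
smaller stabilizers
-/

set_option autoImplicit false

namespace Pool.Agent.R722.MK

open CategoryTheory CategoryTheory.Limits MulAction

section
variable {G : Type} [Group G]

/-- the pull-back of two maps of `G`-sets -/
def resPb {X Y Z : GSet G} (f : Z →[G] Y) (p : X →[G] Y) : GSet G where
  carrier := {q : Z × X // f q.1 = p q.2}
  fin := inferInstance
  act :=
    { smul := fun g q => ⟨(g • q.1.1, g • q.1.2), by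
        show f (g • q.1.1) = p (g • q.1.2)
        rw [map_smul, map_smul, q.2]⟩
      one_smul := fun q => Subtype.ext (Prod.ext (one_smul G q.1.1) (one_smul G q.1.2))
      mul_smul := fun g h q =>
        Subtype.ext (Prod.ext (mul_smul g h q.1.1) (mul_smul g h q.1.2)) }

/-- first projection -/
def resQ1 {X Y Z : GSet G} (f : Z →[G] Y) (p : X →[G] Y) : resPb f p →[G] Z where
  toFun q := q.1.1
  map_smul' _ _ := rfl

/-- second projection -/
def resQ2 {X Y Z : GSet G} (f : Z →[G] Y) (p : X →[G] Y) : resPb f p →[G] X where
  toFun q := q.1.2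
  map_smul' _ _ := rfl

theorem res_stab_le {X Y : GSet G} (f : X →[G] Y) (x : X) : stabilizer G x ≤ stabilizer G (f x) := by
  intro s hs
  rw [mem_stabilizer_iff] at hs ⊢
  rw [← map_smul, hs]

theorem res_stab_pb {X Y Z : GSet G} (f : Z →[G] Y) (p : X →[G] Y) (q : resPb f p) :
    stabilizer G q = stabilizer G (resQ1 f p q) ⊓ stabilizer G (resQ2 f p q) := by
  apply le_antisymm
  · exact le_inf (res_stab_le _ _) (res_stab_le _ _)
  · intro s hs
    obtain ⟨h1, h2⟩ := hs
    have h1' : s • resQ1 f p q = resQ1 f p q := h1
    have h2' : s • resQ2 f p q = resQ2 f p q := h2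
    exact Subtype.ext (Prod.ext h1' h2')

/-- the part of a `G`-set on which the map `a` is proper -/
def resProp {X Z : GSet G} (a : X →[G] Z) : GSet G where
  carrier := {q : X // stabilizer G q ≠ stabilizer G (a q)}
  fin := inferInstance
  act :=
    { smul := fun g q => ⟨g • q.1, by
        intro h
        apply q.2
        rw [map_smul, stabilizer_smul_eq_stabilizer_map_conj,
          stabilizer_smul_eq_stabilizer_map_conj] at h
        exact Subgroup.map_injective (MulAut.conj g).injective h⟩
      one_smul := fun q => Subtype.ext (one_smul G q.1)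
      mul_smul := fun g h q => Subtype.ext (mul_smul g h q.1) }

/-- the inclusion of the proper part -/
def resPropIncl {X Z : GSet G} (a : X →[G] Z) : resProp a →[G] X where
  toFun q := q.1
  map_smul' _ _ := rfl

theorem res_stab_inj {X Y : GSet G} (f : X →[G] Y) (hf : Function.Injective f) (x : X) :
    stabilizer G (f x) = stabilizer G x := by
  apply le_antisymm _ (res_stab_le f x)
  intro s hs
  rw [mem_stabilizer_iff] at hs ⊢
  rw [← map_smul] at hs
  exact hf hs

theorem res_exists_map {Z X : GSet G} (hZ : ∀ y z : Z, ∃ g : G, g • y = z) (z : Z) (x : X)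
    (h : stabilizer G z ≤ stabilizer G x) : ∃ k : Z →[G] X, k z = x := by
  have hw : ∀ g g' : G, g • z = g' • z → g • x = g' • x := by
    intro g g' hg
    have h1 : g'⁻¹ * g ∈ stabilizer G z := by
      rw [mem_stabilizer_iff, mul_smul, hg, inv_smul_smul]
    have h2 := h h1
    rw [mem_stabilizer_iff, mul_smul, inv_smul_eq_iff] at h2
    exact h2
  choose g hg using hZ z
  refine ⟨⟨fun y => g y • x, ?_⟩, ?_⟩
  · intro s y
    show g (s • y) • x = s • g y • x
    rw [← mul_smul]
    apply hw
    rw [hg, mul_smul, hg]
  · show g z • x = x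
    have := hw (g z) 1 (by rw [hg, one_smul])
    rw [this, one_smul]

theorem res_push_congr {O : TransferSystem G} (M : Mackey O) {X Y : GSet G} {f g : X →[G] Y}
    (h : f = g) (hf : Adm O f) (hg : Adm O g) (m : M.M X) : M.push f hf m = M.push g hg m := by
  subst h; rfl

end

section
variable {G : Type} [Group G] [Finite G]

/-- the pieces of the pull-back -/
noncomputable def resU {K : Subgroup G} {X Y : GSet G} (p : X →[G] Y) (f : orb K →[G] Y) :
    Option (Sect p f) → GSet G
  | none => resProp (resQ1 f p)
  | some _ => orb K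

/-- the components of the decomposition of the pull-back -/
noncomputable def resC0 {K : Subgroup G} {X Y : GSet G} (p : X →[G] Y) (f : orb K →[G] Y) :
    ∀ i : Option (Sect p f), resU p f i →[G] resPb f p
  | none => resPropIncl (resQ1 f p)
  | some k => { toFun := fun z : orb K => (⟨(z, k.1 z), (k.2 z).symm⟩ : resPb f p)
                map_smul' := fun s z => Subtype.ext (Prod.ext rfl (map_smul k.1 s z)) }

/-- the decomposition of the pull-back -/
noncomputable def resC {K : Subgroup G} {X Y : GSet G} (p : X →[G] Y) (f : orb K →[G] Y) :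
    sigma (Option (Sect p f)) (resU p f) →[G] resPb f p where
  toFun u := resC0 p f u.1 u.2
  map_smul' s u := map_smul (resC0 p f u.1) s u.2

theorem res_orb_trans (K : Subgroup G) (y z : orb K) : ∃ g : G, g • y = z :=
  @MulAction.exists_smul_eq G (G ⧸ K) _ _ y z

theorem resC_bij {K : Subgroup G} {X Y : GSet G} (p : X →[G] Y) (f : orb K →[G] Y) :
    Function.Bijective (resC p f) := by
  have hsome : ∀ (k : Sect p f) (z : orb K),
      stabilizer G (resC0 p f (some k) z) = stabilizer G (resQ1 f p (resC0 p f (some k) z)) := by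
    intro k z
    rw [res_stab_pb]
    exact inf_eq_left.mpr (res_stab_le k.1 z)
  constructor
  · rintro ⟨i, u⟩ ⟨j, v⟩ h
    have h' : resC0 p f i u = resC0 p f j v := h
    rcases i with _ | k <;> rcases j with _ | l
    · have h1 : u = v := Subtype.ext h'
      rw [h1]
    · exact absurd (hsome l v) (by
        rw [← h']
        exact u.2)
    · exact absurd (hsome k u) (by
        rw [h']
        exact v.2)
    · have h1 : (u : orb K) = v := congrArg (fun q : resPb f p => q.1.1) h'
      have h2 : k.1 u = l.1 v := congrArg (fun q : resPb f p => q.1.2) h'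
      have h3 : k = l := by
        apply Subtype.ext
        apply MulActionHom.ext
        intro y
        obtain ⟨g, hg⟩ := res_orb_trans K u y
        rw [← hg]
        have h4 : k.1 (g • (u : orb K)) = g • k.1 u := map_smul k.1 g (u : orb K)
        have h5 : l.1 (g • (v : orb K)) = g • l.1 v := map_smul l.1 g (v : orb K)
        have h6 : (g • (u : orb K)) = g • (v : orb K) := congrArg (fun w : orb K => g • w) h1
        calc k.1 (g • (u : orb K)) = g • k.1 u := h4
          _ = g • l.1 v := by rw [h2]
          _ = l.1 (g • (v : orb K)) := h5.symm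
          _ = l.1 (g • (u : orb K)) := by rw [h6]
      subst h3
      have h4 : u = v := h1
      rw [h4]
  · intro q
    by_cases hq : stabilizer G q = stabilizer G (resQ1 f p q)
    · have hle : stabilizer G (resQ1 f p q) ≤ stabilizer G (resQ2 f p q) := by
        rw [res_stab_pb] at hq
        exact inf_eq_left.mp hq
      obtain ⟨k, hk⟩ := res_exists_map (res_orb_trans K) (resQ1 f p q) (resQ2 f p q) hle
      have hsec : ∀ x, p (k x) = f x := by
        intro y
        obtain ⟨g, hg⟩ := res_orb_trans K (resQ1 f p q) y
        rw [← hg, map_smul, map_smul, map_smul, hk]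
        congr 1
        exact q.2.symm
      refine ⟨⟨some ⟨k, hsec⟩, resQ1 f p q⟩, ?_⟩
      exact Subtype.ext (Prod.ext rfl hk)
    · exact ⟨⟨none, ⟨q, hq⟩⟩, rfl⟩

theorem res : stmRes := by
  intro hOrb G _ _ O M X Y p hp K f m
  obtain ⟨ha, hb, -⟩ := hOrb G O M
  -- admissibility
  have hq1 : Adm O (resQ1 f p) := by
    intro q
    have h1 := O.restrict (hp (resQ2 f p q)) (L := stabilizer G (resQ1 f p q)) (by
      have h2 := res_stab_le f (resQ1 f p q)
      have h3 : f (resQ1 f p q) = p (resQ2 f p q) := q.2
      rwa [h3] at h2)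
    rw [res_stab_pb, inf_comm]
    exact h1
  have hc : Adm O (resC p f) := by
    intro u
    rw [res_stab_inj _ (resC_bij p f).1]
    exact O.refl _
  have hpb : IsPB (resQ2 f p) (resQ1 f p) p f := by
    refine ⟨fun q => q.2.symm, fun x y h => ⟨⟨(y, x), h.symm⟩, ⟨rfl, rfl⟩, ?_⟩⟩
    rintro ⟨⟨y', x'⟩, hq⟩ ⟨h1, h2⟩
    have h1' : x' = x := h1
    have h2' : y' = y := h2
    subst h1' h2'
    rfl
  rw [M.base _ _ _ _ hpb hp hq1]
  set n := M.pull (resQ2 f p) m with hn
  have hci : ∀ i, Adm O ((resC p f).comp (incl (resU p f) i)) := by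
    intro u x
    exact O.trans (adm_incl O _ _ x) (hc _)
  have hqci : ∀ i, Adm O ((resQ1 f p).comp ((resC p f).comp (incl (resU p f) i))) := by
    intro u x
    exact O.trans (hci u x) (hq1 _)
  have h1 : n = ∑ i, M.push ((resC p f).comp (incl (resU p f) i)) (hci i)
      (M.pull ((resC p f).comp (incl (resU p f) i)) n) := by
    have h2 := (ha _ _ (resC p f) hc (resC_bij p f)).1 n
    have h3 := hb _ (resU p f) (M.pull (resC p f) n)
    rw [h3, map_sum] at h2
    rw [← h2]
    conv_lhs => rw [h2]
    conv_lhs => rw [← h2]
    apply Finset.sum_congr rfl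
    intro i _
    rw [M.push_comp _ _ (adm_incl O _ i) hc, M.pull_comp]
    rw [h2]
  have h2 : M.push (resQ1 f p) hq1 n =
      ∑ i, M.push ((resQ1 f p).comp ((resC p f).comp (incl (resU p f) i))) (hqci i)
        (M.pull ((resC p f).comp (incl (resU p f) i)) n) := by
    conv_lhs => rw [h1, map_sum]
    apply Finset.sum_congr rfl
    intro i _
    rw [M.push_comp _ _ (hci i) hq1]
  rw [h2, Fintype.sum_option]
  have h3 : ∀ k : Sect p f, M.push ((resQ1 f p).comp ((resC p f).comp (incl (resU p f) (some k))))
      (hqci (some k)) (M.pull ((resC p f).comp (incl (resU p f) (some k))) n) = M.pull k.1 m := by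
    intro k
    have h4 : (resQ1 f p).comp ((resC p f).comp (incl (resU p f) (some k))) =
        (MulActionHom.id G : orb K →[G] orb K) := by
      apply MulActionHom.ext
      intro z
      rfl
    have h5 : (resQ2 f p).comp ((resC p f).comp (incl (resU p f) (some k))) = k.1 := by
      apply MulActionHom.ext
      intro z
      rfl
    have h6 : M.pull ((resC p f).comp (incl (resU p f) (some k))) n = M.pull k.1 m := by
      rw [hn, ← M.pull_comp]
      exact congrArg (fun a : orb K →[G] X => M.pull a m) h5
    rw [h6]
    have hid : Adm O (MulActionHom.id G : orb K →[G] orb K) := fun x => O.refl _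
    exact (res_push_congr M h4 (hqci (some k)) hid _).trans (M.push_id _ hid _)
  rw [Finset.sum_congr rfl (fun k _ => h3 k), add_sub_cancel_right]
  apply Submodule.subset_span
  refine ⟨_, _, hqci none, ?_, _, rfl⟩
  intro y
  have h7 : stabilizer G y = stabilizer G (((resC p f).comp (incl (resU p f) none)) y) := by
    symm
    apply res_stab_inj
    intro a b hab
    exact Subtype.ext hab
  rw [h7]
  exact y.2

end

end Pool.Agent.R722.MK
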