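import Pool.Agent.R722.MK.Stm

/-!
# MK-SPAN (helper451): the two forms of Mackey functors are equivalent
-/

set_option autoImplicit false

namespace Pool.Agent.R722.MK

open CategoryTheory CategoryTheory.Limits MulAction

namespace SpanAux

variable {G : Type} [Group G] {O : TransferSystem G}

theorem adm_id (X : GSet G) : Adm O (MulActionHom.id G : X →[G] X) := fun _ => O.refl _

theorem adm_of_inj {X Y : GSet G} (f : X →[G] Y) (hf : Function.Injective f) : Adm O f := by
  intro x
  have h : stabilizer G x = stabilizer G (f x) := by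
    ext g
    rw [mem_stabilizer_iff, mem_stabilizer_iff, ← map_smul]
    exact hf.eq_iff.symm
  rw [h]
  exact O.refl _

/-- the base change of an admissible map is admissible -/
theorem adm_base {P X Y' Y : GSet G} {a : P →[G] X} {b : P →[G] Y'} {f : X →[G] Y}
    {g : Y' →[G] Y} (h : IsPB a b f g) (hf : Adm O f) : Adm O b := by
  intro p
  have h1 := hf (a p)
  have h2 : stabilizer G (b p) ≤ stabilizer G (f (a p)) := by
    intro s hs
    rw [mem_stabilizer_iff] at hs ⊢
    rw [h.1 p, ← map_smul, hs]
  have h3 : stabilizer G p = stabilizer G (a p) ⊓ stabilizer G (b p) := by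
    ext s
    rw [Subgroup.mem_inf, mem_stabilizer_iff, mem_stabilizer_iff, mem_stabilizer_iff]
    constructor
    · intro hs
      rw [← map_smul, ← map_smul, hs]
      exact ⟨rfl, rfl⟩
    · rintro ⟨hs1, hs2⟩
      obtain ⟨q, -, hq⟩ := h.2 (a p) (b p) (h.1 p)
      exact (hq (s • p) ⟨by rw [map_smul, hs1], by rw [map_smul, hs2]⟩).trans
        (hq p ⟨rfl, rfl⟩).symm
  rw [h3]
  exact O.restrict h1 h2

/-- the empty `G`-set -/
def E0 : GSet G := sigma Empty fun e => e.elim

/-- the map from the empty set -/
def e0 (Z : GSet G) : (E0 : GSet G) →[G] Z where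
  toFun x := x.1.elim
  map_smul' _ x := x.1.elim

theorem pb_id (U : GSet G) : IsPB (MulActionHom.id G : U →[G] U) (MulActionHom.id G)
    (MulActionHom.id G) (MulActionHom.id G) := by
  refine ⟨fun _ => rfl, fun x y h => ⟨x, ⟨rfl, h⟩, fun z hz => hz.1⟩⟩

theorem pb_incl {I : Type} [Finite I] (X : I → GSet G) (i : I) :
    IsPB (MulActionHom.id G : X i →[G] X i) (MulActionHom.id G) (incl X i) (incl X i) := by
  refine ⟨fun _ => rfl, fun x y h => ⟨x, ⟨rfl, ?_⟩, fun z hz => hz.1⟩⟩
  have h1 : (⟨i, x⟩ : Σ i, X i) = ⟨i, y⟩ := h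
  have h2 : x = y := by simpa using h1
  exact h2

theorem pb_ne {I : Type} [Finite I] (X : I → GSet G) {i j : I} (h : i ≠ j) :
    IsPB (e0 (X i)) (e0 (X j)) (incl X i) (incl X j) := by
  refine ⟨fun p => p.1.elim, fun x y hxy => ?_⟩
  have h1 : (⟨i, x⟩ : Σ i, X i) = ⟨j, y⟩ := hxy
  exact absurd (congrArg Sigma.fst h1) h

/-! ### from spans to Dress's form -/

section toM

variable (M : SpanMackey O)

theorem map_congr {X U Y : GSet G} {l l' : U →[G] X} {r r' : U →[G] Y} (hl : l = l')
    (h : r = r') (hr : Adm O r) (hr' : Adm O r') (m : M.M X) :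
    M.map l r hr m = M.map l' r' hr' m := by
  subst hl h
  rfl

theorem factor {X U Y : GSet G} (l : U →[G] X) (r : U →[G] Y) (hr : Adm O r) (m : M.M X) :
    M.map l r hr m =
      M.map (MulActionHom.id G) r hr (M.map l (MulActionHom.id G) (adm_id _) m) := by
  rw [← M.map_comp l (MulActionHom.id G) (MulActionHom.id G) r (MulActionHom.id G)
    (MulActionHom.id G) (pb_id U) (adm_id _) hr hr m]
  exact map_congr M (by ext; rfl) (by ext; rfl) _ _ m

theorem map_e0 {X Y : GSet G} (l : (E0 : GSet G) →[G] X) (r : (E0 : GSet G) →[G] Y)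
    (hr : Adm O r) (m : M.M X) : M.map l r hr m = 0 := by
  have h := M.map_add Empty (fun e => e.elim) l r hr (fun e => e.elim) m
  exact h.trans (by simp)

theorem base' {P X Y' Y : GSet G} (a : P →[G] X) (b : P →[G] Y') (f : X →[G] Y)
    (g : Y' →[G] Y) (h : IsPB a b f g) (hf : Adm O f) (hb : Adm O b) (m : M.M X) :
    M.map g (MulActionHom.id G) (adm_id _) (M.map (MulActionHom.id G) f hf m) =
      M.map (MulActionHom.id G) b hb (M.map a (MulActionHom.id G) (adm_id _) m) := by
  rw [← factor, ← M.map_comp (MulActionHom.id G) f g (MulActionHom.id G) a b h hf (adm_id _)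
    hb m]
  exact map_congr M (by ext; rfl) (by ext; rfl) _ _ m

theorem incl_same {I : Type} [Finite I] (X : I → GSet G) (i : I) (n : M.M (X i)) :
    M.map (incl X i) (MulActionHom.id G) (adm_id _)
      (M.map (MulActionHom.id G) (incl X i) (adm_incl O X i) n) = n := by
  rw [base' M _ _ _ _ (pb_incl X i) (adm_incl O X i) (adm_id _), M.map_id, M.map_id]

theorem incl_ne {I : Type} [Finite I] (X : I → GSet G) {i j : I} (h : i ≠ j) (n : M.M (X i)) :
    M.map (incl X j) (MulActionHom.id G) (adm_id _)
      (M.map (MulActionHom.id G) (incl X i) (adm_incl O X i) n) = 0 := by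
  rw [base' M _ _ _ _ (pb_ne X h) (adm_incl O X i) (adm_of_inj _ fun x => x.1.elim),
    map_e0 M (e0 (X i)) (MulActionHom.id G) (adm_id _) n, map_zero]

theorem add_id {I : Type} [Fintype I] (X : I → GSet G) (m : M.M (sigma I X)) :
    m = ∑ i, M.map (MulActionHom.id G) (incl X i) (adm_incl O X i)
      (M.map (incl X i) (MulActionHom.id G) (adm_id _) m) := by
  conv_lhs => rw [← M.map_id (sigma I X) (adm_id _) m,
    M.map_add I X (MulActionHom.id G) (MulActionHom.id G) (adm_id _)
      (fun i => adm_incl O X i) m]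
  refine Finset.sum_congr rfl fun i _ => ?_
  rw [← factor]
  exact map_congr M (by ext; rfl) (by ext; rfl) _ _ m

/-- Dress's form of a functor on spans -/
def toM : Mackey O where
  M := M.M
  pull f := M.map f (MulActionHom.id G) (adm_id _)
  push f hf := M.map (MulActionHom.id G) f hf
  pull_id X m := M.map_id X _ m
  pull_comp {X Y Z} f g m := by
    rw [← M.map_comp g (MulActionHom.id G) f (MulActionHom.id G) f (MulActionHom.id G)
      ⟨fun _ => rfl, fun x y h => ⟨y, ⟨h.symm, rfl⟩, fun z hz => hz.2⟩⟩ (adm_id _) (adm_id _)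
      (adm_id _) m]
    exact map_congr M (by ext; rfl) (by ext; rfl) _ _ m
  push_id X h m := M.map_id X h m
  push_comp {X Y Z} f g hf hg hgf m := by
    rw [← M.map_comp (MulActionHom.id G) f (MulActionHom.id G) g (MulActionHom.id G) f
      ⟨fun _ => rfl, fun x y h => ⟨x, ⟨rfl, h⟩, fun z hz => hz.1⟩⟩ hf hg hgf m]
    exact map_congr M (by ext; rfl) (by ext; rfl) _ _ m
  base a b f g h hf hb m := base' M a b f g h hf hb m
  add I _ X := by
    classical
    have : Fintype I := Fintype.ofFinite I
    constructor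
    · intro m m' h
      have h' : ∀ i, M.map (incl X i) (MulActionHom.id G) (adm_id _) m =
          M.map (incl X i) (MulActionHom.id G) (adm_id _) m' := fun i => congrFun h i
      rw [add_id M X m, add_id M X m']
      exact Finset.sum_congr rfl fun i _ => by rw [h' i]
    · intro n
      refine ⟨∑ i, M.map (MulActionHom.id G) (incl X i) (adm_incl O X i) (n i), ?_⟩
      funext j
      simp only
      rw [map_sum, Finset.sum_eq_single j]
      · exact incl_same M X j (n j)
      · intro i _ hij
        exact incl_ne M X hij (n i)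
      · intro h
        exact absurd (Finset.mem_univ j) h

end toM

/-! ### from Dress's form to spans -/

section toS

variable (N : Mackey O)

theorem push_congr {U Y : GSet G} {r r' : U →[G] Y} (h : r = r') (hr : Adm O r)
    (hr' : Adm O r') (m : N.M U) : N.push r hr m = N.push r' hr' m := by
  subst h
  rfl

theorem pull_congr {X U : GSet G} {l l' : U →[G] X} (h : l = l') (m : N.M X) :
    N.pull l m = N.pull l' m := by
  subst h
  rfl

theorem push_pull_bij {U V : GSet G} (φ : U →[G] V) (hφ : Function.Bijective φ)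
    (h : Adm O φ) (m : N.M V) : N.push φ h (N.pull φ m) = m := by
  rw [← N.base φ φ (MulActionHom.id G) (MulActionHom.id G) ⟨fun _ => rfl, fun x y hxy => ?_⟩
    (adm_id _) h m, N.push_id, N.pull_id]
  obtain ⟨p, hp⟩ := hφ.2 x
  exact ⟨p, ⟨hp, hp.trans hxy⟩, fun q hq => hφ.1 (hq.1.trans hp.symm)⟩

theorem N_incl_same {I : Type} [Finite I] (X : I → GSet G) (i : I) (n : N.M (X i)) :
    N.pull (incl X i) (N.push (incl X i) (adm_incl O X i) n) = n := by
  rw [N.base _ _ _ _ (pb_incl X i) (adm_incl O X i) (adm_id _), N.pull_id, N.push_id]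

theorem N_incl_ne {I : Type} [Finite I] (X : I → GSet G) {i j : I} (h : i ≠ j)
    (n : N.M (X i)) : N.pull (incl X j) (N.push (incl X i) (adm_incl O X i) n) = 0 := by
  rw [N.base _ _ _ _ (pb_ne X h) (adm_incl O X i) (adm_of_inj _ fun x => x.1.elim)]
  have h1 := (N.add Empty fun e => e.elim).1
  have h2 : N.pull (e0 (X i)) n = 0 := h1 (funext fun e => e.elim)
  rw [h2, map_zero]

theorem N_add {I : Type} [Fintype I] (X : I → GSet G) (m : N.M (sigma I X)) :
    m = ∑ i, N.push (incl X i) (adm_incl O X i) (N.pull (incl X i) m) := by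
  classical
  apply (N.add I X).1
  funext j
  simp only
  rw [map_sum, Finset.sum_eq_single j]
  · exact (N_incl_same N X j _).symm
  · intro i _ hij
    exact N_incl_ne N X hij _
  · intro h
    exact absurd (Finset.mem_univ j) h

/-- the functor on spans of a functor in Dress's form -/
def toS : SpanMackey O where
  M := N.M
  map l r hr := (N.push r hr).comp (N.pull l)
  map_iso {X U V Y} l r l' r' hr hr' φ hφ h1 h2 := by
    have hφa : Adm O φ := adm_of_inj φ hφ.1
    have e1 : l = l'.comp φ := by ext x; exact (h1 x).symm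
    have e2 : r = r'.comp φ := by ext x; exact (h2 x).symm
    subst e1 e2
    ext m
    simp only [LinearMap.comp_apply]
    rw [N.pull_comp, N.push_comp φ r' hφa hr' hr, push_pull_bij N φ hφ]
  map_id X h m := by
    simp only [LinearMap.comp_apply]
    rw [N.pull_id, N.push_id]
  map_comp {X U Y V Z P} l r l' r' a b h hr hr' h' m := by
    simp only [LinearMap.comp_apply]
    rw [N.pull_comp, N.push_comp b r' (adm_base h hr) hr' h',
      N.base a b r l' h hr (adm_base h hr)]
  map_add {X Y} I _ U l r hr h m := by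
    simp only [LinearMap.comp_apply]
    conv_lhs => rw [N_add N U (N.pull l m)]
    rw [map_sum]
    refine Finset.sum_congr rfl fun i _ => ?_
    rw [N.push_comp (incl U i) r (adm_incl O U i) hr (h i), N.pull_comp]

end toS

/-- the functor -/
def F (O : TransferSystem G) : SpanMackey O ⥤ Mackey O where
  obj M := toM M
  map {M N} φ := (⟨φ.app, fun f m => φ.nat f (MulActionHom.id G) (adm_id _) m,
    fun f hf m => φ.nat (MulActionHom.id G) f hf m⟩ : Mackey.Hom (toM M) (toM N))

instance : (F O).Faithful where
  map_injective {M N} φ ψ h := by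
    apply SpanMackey.Hom.ext
    exact congrArg Mackey.Hom.app h

instance : (F O).Full where
  map_surjective {M N} φ := by
    refine ⟨(⟨φ.app, fun {X U Y} l r hr m => ?_⟩ : SpanMackey.Hom M N), rfl⟩
    have h1 := φ.push r hr (M.map l (MulActionHom.id G) (adm_id _) m)
    have h2 := φ.pull l m
    have h3 : φ.app Y (M.map l r hr m) =
        φ.app Y (M.map (MulActionHom.id G) r hr (M.map l (MulActionHom.id G) (adm_id _) m)) :=
      congrArg _ (factor M l r hr m)
    have h4 : N.map (MulActionHom.id G) r hr
        (φ.app U (M.map l (MulActionHom.id G) (adm_id _) m)) =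
        N.map (MulActionHom.id G) r hr
          (N.map l (MulActionHom.id G) (adm_id _) (φ.app X m)) :=
      congrArg (N.map (MulActionHom.id G) r hr) h2
    exact h3.trans (h1.trans (h4.trans (factor N l r hr (φ.app X m)).symm))

instance : (F O).EssSurj where
  mem_essImage N := by
    refine ⟨toS N, ⟨⟨(⟨fun X => LinearMap.id, ?_, ?_⟩ : Mackey.Hom (toM (toS N)) N),
      (⟨fun X => LinearMap.id, ?_, ?_⟩ : Mackey.Hom N (toM (toS N))), ?_, ?_⟩⟩⟩
    · intro X Y f m
      exact N.push_id X _ (N.pull f m)
    · intro X Y f hf m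
      exact congrArg (N.push f hf) (N.pull_id X m)
    · intro X Y f m
      exact (N.push_id X _ (N.pull f m)).symm
    · intro X Y f hf m
      exact (congrArg (N.push f hf) (N.pull_id X m)).symm
    · rfl
    · rfl

end SpanAux

open SpanAux in
/-- piece MK-SPAN -/
theorem span_ : stmSpan := by
  intro G _ _ O
  have h : (F O).IsEquivalence := {}
  exact ⟨(F O).asEquivalence⟩

end Pool.Agent.R722.MK
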