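import Pool.Agent.R722.MK.Defs

/-!
# MP_093cae_al (project MK): statements of the pieces.  Complete proofs: `notes.md`
-/

set_option autoImplicit false

namespace Pool.Agent.R722.MK

open CategoryTheory CategoryTheory.Limits MulAction

/-- piece MK-FAC: (dense, admissible) factorizations of maps from orbits, and their uniqueness -/
def stmFac : Prop := ∀ (G : Type) [Group G] [Finite G] (O : TransferSystem G),
  (∀ (K : Subgroup G) (Z : GSet G) (f : orb K →[G] Z),
    ∃ (P : Subgroup G) (u : orb K →[G] orb P) (h : orb P →[G] Z),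
      DMap O u ∧ Adm O h ∧ ∀ x, h (u x) = f x) ∧
  (∀ (K P : Subgroup G) (Y Z : GSet G) (u : orb K →[G] orb P) (h : orb P →[G] Z)
    (u' : orb K →[G] Y) (h' : Y →[G] Z), DMap O u → Adm O h' → (∀ x, h (u x) = h' (u' x)) →
    ∃ a : orb P →[G] Y, (∀ x, a (u x) = u' x) ∧ ∀ y, h' (a y) = h y) ∧
  (∀ (K P : Subgroup G) (f : orb K →[G] orb P), Function.Surjective f)

/-- piece MK-COUNT: dense maps over `X` between admissible maps from orbits are invertible, and
there are `|G|/|K|` of them out of (into) a given one -/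
def stmCount : Prop := ∀ (G : Type) [Group G] [Finite G] (O : TransferSystem G) (X : GSet G),
  (∀ (g f : Idx O X) (k : IsoSet g f), Nat.card g.K = Nat.card f.K ∧
    ∃ k' : IsoSet f g, (∀ x, k'.1 (k.1 x) = x) ∧ ∀ y, k.1 (k'.1 y) = y) ∧
  (∀ g : Idx O X, ∑ f : Idx O X, (Fintype.card (IsoSet g f) : ℚ) * Nat.card f.K = Nat.card G) ∧
  (∀ f : Idx O X, ∑ g : Idx O X, (Fintype.card (IsoSet g f) : ℚ) * Nat.card f.K = Nat.card G)

/-- piece MK-NIL -/
def stmNil : Prop := ∀ (G : Type) [Group G] [Finite G] (O : TransferSystem G) (M : Mackey O)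
  (X Y : GSet G),
  (∀ u : X →[G] Y, DMap O u → ∀ m ∈ nil M Y, M.pull u m ∈ nil M X) ∧
  (∀ (f : X →[G] Y) (hf : Adm O f), ∀ m ∈ nil M X, M.push f hf m ∈ nil M Y)

theorem adm_incl {G : Type} [Group G] (O : TransferSystem G) {I : Type} [Finite I]
    (X : I → GSet G) (i : I) : Adm O (incl X i) := by
  intro x
  have h : stabilizer G (incl X i x) = stabilizer G x := by
    ext g
    rw [mem_stabilizer_iff, mem_stabilizer_iff, ← map_smul]
    constructor
    · intro h
      have h1 : (⟨i, g • x⟩ : Σ i, X i) = ⟨i, x⟩ := h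
      simpa using h1
    · intro h
      rw [h]
  rw [h]
  exact O.refl _

/-- piece MK-ORB: consequences of additivity -/
def stmOrb : Prop := ∀ (G : Type) [Group G] [Finite G] (O : TransferSystem G) (M : Mackey O),
  -- bijections
  (∀ (X Y : GSet G) (a : X →[G] Y) (ha : Adm O a), Function.Bijective a →
    (∀ m, M.push a ha (M.pull a m) = m) ∧ (∀ m, M.pull a (M.push a ha m) = m)) ∧
  -- additivity
  (∀ (I : Type) [Fintype I] (X : I → GSet G) (m : M.M (sigma I X)),
    m = ∑ i, M.push (incl X i) (adm_incl O X i) (M.pull (incl X i) m)) ∧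
  -- an element which vanishes on all orbits is zero
  (∀ (X : GSet G) (m : M.M X), (∀ i : Idx O X, Function.Injective i.f → M.pull i.f m = 0) →
    m = 0) ∧
  -- an element which is in `nil` on all orbits is in `nil`
  (∀ (X : GSet G) (m : M.M X), (∀ i : Idx O X, Function.Injective i.f →
    M.pull i.f m ∈ nil M (orb i.K)) → m ∈ nil M X) ∧
  -- transfers come from orbits
  (∀ (X Z : GSet G) (f : Z →[G] X) (hf : Adm O f) (n : M.M Z), M.push f hf n ∈
    Submodule.span ℚ {m | ∃ (j : Idx O X) (c : orb j.K →[G] Z), (∀ x, f (c x) = j.f x) ∧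
      Function.Injective c ∧ ∃ n', M.push j.f j.adm n' = m})

/-- piece MK-RES: double coset formula modulo transfers from properly smaller stabilizers -/
def stmRes : Prop := stmOrb → ∀ (G : Type) [Group G] [Finite G] (O : TransferSystem G) (M : Mackey O)
  (X Y : GSet G) (p : X →[G] Y) (hp : Adm O p) (K : Subgroup G) (f : orb K →[G] Y) (m : M.M X),
  M.pull f (M.push p hp m) - ∑ k : Sect p f, M.pull k.1 m ∈ nil M (orb K)

/-- piece MK-INJ -/
def stmInj : Prop := stmOrb → stmNil → stmRes → stmCount → ∀ (G : Type) [Group G] [Finite G]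
  (O : TransferSystem G) (M : Mackey O) (X : GSet G) (m : M.M X),
  (∀ i : Idx O X, M.pull i.f m ∈ nil M (orb i.K)) → m = 0

/-- piece MK-SURJ -/
def stmSurj : Prop := stmOrb → stmNil → stmRes → stmCount → ∀ (G : Type) [Group G] [Finite G]
  (O : TransferSystem G) (M : Mackey O) (X : GSet G) (v : ∀ i : Idx O X, M.M (orb i.K)),
  (∀ (i j : Idx O X) (a : orb i.K →[G] orb j.K), DMap O a → (∀ x, j.f (a x) = i.f x) →
    v i - M.pull a (v j) ∈ nil M (orb i.K)) →
  ∃ m : M.M X, ∀ i, M.pull i.f m - v i ∈ nil M (orb i.K)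

/-- the Mackey functor of `V` exists (conclusion of piece MK-MV) -/
def stmMVc : Prop := ∀ (G : Type) [Group G] [Finite G] (O : TransferSystem G) (V : DFun O),
  ∃ (N : Mackey O) (e : ∀ X, N.M X ≃ₗ[ℚ] sec V X),
    (∀ (X Y : GSet G) (h : X →[G] Y) (m : N.M Y) (i : Idx O X) (j : Idx O Y)
      (u : orb i.K →[G] orb j.K) (hu : DMap O u), (∀ x, j.f (u x) = h (i.f x)) →
      (e X (N.pull h m)).1 i = V.res u hu ((e Y m).1 j)) ∧
    (∀ (X Y : GSet G) (p : X →[G] Y) (hp : Adm O p) (m : N.M X) (j : Idx O Y),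
      (e Y (N.push p hp m)).1 j = ∑ k : Sect p j.f, (e X m).1 ⟨j.K, k.1, j.adm.of_comp k.2⟩)

/-- piece MK-MV -/
def stmMV : Prop := stmFac → stmMVc

/-- piece MK-EPS: `V` is recovered from its Mackey functor -/
def stmEps : Prop := stmFac → stmMVc → stmCount → ∀ (G : Type) [Group G] [Finite G]
  (O : TransferSystem G) (V : DFun O),
  ∃ (N : Mackey O) (π : ∀ K : Subgroup G, N.M (orb K) →ₗ[ℚ] V.obj (Opposite.op ⟨K⟩)),
    (∀ K, Function.Surjective (π K)) ∧ (∀ K, LinearMap.ker (π K) = nil N (orb K)) ∧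
    ∀ (J K : Subgroup G) (u : orb J →[G] orb K) (hu : DMap O u) (m : N.M (orb K)),
      V.res u hu (π K m) = π J (N.pull u m)

/-- piece MK-PROJ: restriction to the smaller orbit category preserves projectives -/
def stmProj : Prop := stmFac → ∀ (G : Type) [Group G] [Finite G] (O O' : TransferSystem G)
  (hO : ∀ K H, O.rel K H → O'.rel K H) (P : DFun O), Projective P →
  Projective ((incO hO).op ⋙ P)

/-- piece MK-FILT: every functor on the smaller orbit category is an iterated extension of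
restrictions of functors on the bigger one -/
def stmFilt : Prop := ∀ (G : Type) [Group G] [Finite G] (O O' : TransferSystem G)
  (hO : ∀ K H, O.rel K H → O'.rel K H) (Q : DFun O' → Prop),
  (∀ X Y : DFun O', Nonempty (X ≅ Y) → Q X → Q Y) →
  (∀ S : ShortComplex (DFun O'), S.ShortExact → Q S.X₁ → Q S.X₃ → Q S.X₂) →
  (∀ W : DFun O, Q ((incO hO).op ⋙ W)) → ∀ X, Q X

/-- piece MK-PDX: extensions in the functor category -/
def stmPdExt : Prop := ∀ (G : Type) [Group G] [Finite G] (O : TransferSystem G) (n : ℕ)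
  (S : ShortComplex (DFun O)), S.ShortExact → PdLE n S.X₁ → PdLE n S.X₃ → PdLE n S.X₂

/-- piece MK-PDM: restriction functors which preserve projectives preserve `PdLE n` -/
def stmPdMap : Prop := ∀ (G : Type) [Group G] [Finite G] (O O' : TransferSystem G)
  (hO : ∀ K H, O.rel K H → O'.rel K H),
  (∀ P : DFun O, Projective P → Projective ((incO hO).op ⋙ P)) →
  ∀ (n : ℕ) (X : DFun O), PdLE n X → PdLE n ((incO hO).op ⋙ X)

/-- piece MK-GL: global dimensions and equivalences -/
def stmGl : Prop :=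
  (∀ (C : Type 1) [Category.{0} C] [HasZeroMorphisms C] (X Y : C), Nonempty (X ≅ Y) → ∀ n,
    PdLE n X → PdLE n Y) ∧
  (∀ (C D : Type 1) [Category.{1} C] [HasZeroMorphisms C] [Category.{0} D] [HasZeroMorphisms D],
    Nonempty (C ≌ D) → gldim C = gldim D) ∧
  (∀ (C : Type 1) [Category.{0} C] [HasZeroMorphisms C] [HasZeroObject C] (n : ℕ),
    gldim C ≤ n ↔ ∀ X : C, PdLE n X)

/-- piece MK-ZERO -/
def stmZero : Prop := stmFac → ∀ (G : Type) [Group G] [Finite G] (O : TransferSystem G),
  (∀ X : DFun O, Projective X) ↔ ∀ K H : Subgroup G, K ≤ H → O.rel K H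

/-- piece MK-SPAN: the two forms of Mackey functors are equivalent -/
def stmSpan : Prop := ∀ (G : Type) [Group G] [Finite G] (O : TransferSystem G),
  Nonempty (SpanMackey O ≌ Mackey O)

end Pool.Agent.R722.MK
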