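import Pool.Agent.R722.MK.Stm

/-!
# Project MK, piece MK-SURJ: surjectivity of marks
-/

set_option autoImplicit false

namespace Pool.Agent.R722.MK

open CategoryTheory CategoryTheory.Limits MulAction

namespace Surj

variable {G : Type} [Group G] [Finite G] {O : TransferSystem G}

instance (K : Subgroup G) : IsPretransitive G (orb K) :=
  inferInstanceAs (IsPretransitive G (G ⧸ K))

theorem idx_ne {X : GSet G} (f : Idx O X) (h : ¬ DMap O f.f) (x : orb f.K) :
    stabilizer G x ≠ stabilizer G (f.f x) := by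
  intro hx
  apply h
  intro y
  obtain ⟨g, rfl⟩ := MulAction.exists_smul_eq G x y
  rw [map_smul, stabilizer_smul_eq_stabilizer_map_conj, stabilizer_smul_eq_stabilizer_map_conj, hx]
  exact Dense.refl _

theorem card_stab (K : Subgroup G) (y : orb K) : Nat.card (stabilizer G y) = Nat.card K := by
  let x0 : orb K := (QuotientGroup.mk (1 : G) : G ⧸ K)
  have hx0 : stabilizer G x0 = K := MulAction.stabilizer_quotient K
  obtain ⟨g, rfl⟩ := MulAction.exists_smul_eq G x0 y
  rw [stabilizer_smul_eq_stabilizer_map_conj, hx0]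
  exact Subgroup.card_map_of_injective (MulAut.conj g).injective

theorem card_lt (K : Subgroup G) (f : Idx O (orb K)) (h : ¬ DMap O f.f) :
    Nat.card f.K < Nat.card K := by
  let x0 : orb f.K := (QuotientGroup.mk (1 : G) : G ⧸ f.K)
  have h1 := idx_ne f h x0
  have hle : stabilizer G x0 ≤ stabilizer G (f.f x0) := by
    intro s hs
    rw [mem_stabilizer_iff] at hs ⊢
    rw [← map_smul, hs]
  have hlt : stabilizer G x0 < stabilizer G (f.f x0) := lt_of_le_of_ne hle h1
  rw [← card_stab f.K x0, ← card_stab K (f.f x0)]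
  have := Set.ncard_lt_ncard (SetLike.coe_ssubset_coe.2 hlt) (Set.toFinite _)
  exact this

/-- evaluation of a transfer, modulo `nil` -/
theorem lemC (M : Mackey O) (hOrb : stmOrb) (hRes : stmRes) {X : GSet G} (i j : Idx O X)
    (n : M.M (orb j.K))
    (hn : ∀ f : Idx O (orb j.K), ¬ DMap O f.f → M.pull f.f n ∈ nil M (orb f.K))
    (w : M.M (orb i.K)) (hw : ∀ k : IsoSet i j, M.pull k.1 n - w ∈ nil M (orb i.K)) :
    M.pull i.f (M.push j.f j.adm n) - (Fintype.card (IsoSet i j) : ℚ) • w ∈ nil M (orb i.K) := by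
  classical
  have h1 := hRes hOrb G O M (orb j.K) X j.f j.adm i.K i.f n
  have h2 : ∑ k : Sect j.f i.f, M.pull k.1 n - (Fintype.card (IsoSet i j) : ℚ) • w ∈
      nil M (orb i.K) := by
    have hcard : (Fintype.card (IsoSet i j) : ℚ) • w =
        ∑ k : Sect j.f i.f, if DMap O k.1 then w else 0 := by
      rw [← Finset.sum_filter, Finset.sum_const, Nat.cast_smul_eq_nsmul ℚ]
      congr 1
      rw [← Fintype.card_subtype]
      refine Fintype.card_congr ⟨fun k => ⟨⟨k.1, k.2.2⟩, k.2.1⟩, fun k => ⟨k.1.1, k.2, k.1.2⟩,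
        fun k => rfl, fun k => rfl⟩
    rw [hcard, ← Finset.sum_sub_distrib]
    refine Submodule.sum_mem _ (fun k _ => ?_)
    split_ifs with hk
    · exact hw ⟨k.1, hk, k.2⟩
    · rw [sub_zero]
      exact hn ⟨i.K, k.1, i.adm.of_comp k.2⟩ hk
  have := (nil M (orb i.K)).add_mem h1 h2
  rwa [sub_add_sub_cancel] at this

theorem pull_pull (M : Mackey O) {X : GSet G} (i j : Idx O X) (k : IsoSet i j) (a : M.M X) :
    M.pull k.1 (M.pull j.f a) = M.pull i.f a := by
  rw [← M.pull_comp]
  congr 2
  ext x
  exact k.2.2 x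

theorem hone (hCount : stmCount) {X : GSet G} (g : Idx O X) :
    ∑ f : Idx O X, ((Nat.card f.K : ℚ) / Nat.card G) * Fintype.card (IsoSet g f) = 1 := by
  have h := (hCount G O X).2.1 g
  have hG : (Nat.card G : ℚ) ≠ 0 := by
    exact_mod_cast Nat.card_pos.ne'
  have : ∑ f : Idx O X, ((Nat.card f.K : ℚ) / Nat.card G) * Fintype.card (IsoSet g f) =
      (∑ f : Idx O X, (Fintype.card (IsoSet g f) : ℚ) * Nat.card f.K) / Nat.card G := by
    rw [Finset.sum_div]
    refine Finset.sum_congr rfl (fun f _ => ?_)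
    ring
  rw [this, h, div_self hG]

theorem TK (hOrb : stmOrb) (hNil : stmNil) (hRes : stmRes) (hCount : stmCount) (M : Mackey O) :
    ∀ (N : ℕ) (K : Subgroup G), Nat.card K = N → ∀ a : M.M (orb K), ∃ n : M.M (orb K),
      n - a ∈ nil M (orb K) ∧
      ∀ f : Idx O (orb K), ¬ DMap O f.f → M.pull f.f n ∈ nil M (orb f.K) := by
  classical
  intro N
  induction N using Nat.strong_induction_on with
  | _ N ih =>
    intro K hK a
    have hex : ∀ f : Idx O (orb K), ∃ n : M.M (orb f.K), ¬ DMap O f.f →
        (n - M.pull f.f a ∈ nil M (orb f.K) ∧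
        ∀ g : Idx O (orb f.K), ¬ DMap O g.f → M.pull g.f n ∈ nil M (orb g.K)) := by
      intro f
      by_cases hf : DMap O f.f
      · exact ⟨0, fun h => absurd hf h⟩
      · obtain ⟨n, hn⟩ := ih (Nat.card f.K) (hK ▸ card_lt K f hf) f.K rfl (M.pull f.f a)
        exact ⟨n, fun _ => hn⟩
    choose nn hnn using hex
    refine ⟨a - ∑ f : Idx O (orb K), (if DMap O f.f then 0 else
      ((Nat.card f.K : ℚ) / Nat.card G) • M.push f.f f.adm (nn f)), ?_, ?_⟩
    · rw [sub_sub_cancel_left]
      refine Submodule.neg_mem _ (Submodule.sum_mem _ (fun f _ => ?_))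
      split_ifs with hf
      · exact Submodule.zero_mem _
      · exact Submodule.smul_mem _ _
          (Submodule.subset_span ⟨orb f.K, f.f, f.adm, idx_ne f hf, nn f, rfl⟩)
    · intro g hg
      rw [map_sub, map_sum]
      have hrep : M.pull g.f a = ∑ f : Idx O (orb K),
          (((Nat.card f.K : ℚ) / Nat.card G) * Fintype.card (IsoSet g f)) • M.pull g.f a := by
        rw [← Finset.sum_smul, hone hCount g, one_smul]
      have hmain : ∀ f : Idx O (orb K),
          (((Nat.card f.K : ℚ) / Nat.card G) * Fintype.card (IsoSet g f)) • M.pull g.f a -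
          M.pull g.f (if DMap O f.f then 0 else
            ((Nat.card f.K : ℚ) / Nat.card G) • M.push f.f f.adm (nn f)) ∈ nil M (orb g.K) := by
        intro f
        split_ifs with hf
        · have hemp : IsEmpty (IsoSet g f) := by
            refine ⟨fun k => hg ?_⟩
            have h1 : DMap O (f.f.comp k.1) := DMap.comp k.2.1 hf
            have h2 : f.f.comp k.1 = g.f := by
              ext x
              exact k.2.2 x
            rwa [h2] at h1
          rw [Fintype.card_eq_zero, map_zero]
          simp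
        · rw [map_smul, mul_smul, ← smul_sub]
          refine Submodule.smul_mem _ _ ?_
          have h1 := lemC M hOrb hRes g f (nn f) (hnn f hf).2 (M.pull g.f a) (fun k => ?_)
          · have h2 := Submodule.neg_mem _ h1
            rwa [neg_sub] at h2
          · rw [← pull_pull M g f k a, ← map_sub]
            exact (hNil G O M _ _).1 k.1 k.2.1 _ (hnn f hf).1
      have hs := Submodule.sum_mem (nil M (orb g.K)) (fun f (_ : f ∈ Finset.univ) => hmain f)
      rw [Finset.sum_sub_distrib, ← hrep] at hs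
      exact hs

end Surj

open Surj in
theorem surj : stmSurj := by
  classical
  intro hOrb hNil hRes hCount G _ _ O M X v hv
  have hT := fun j : Idx O X => TK hOrb hNil hRes hCount M (Nat.card j.K) j.K rfl (v j)
  choose nn hnn using hT
  refine ⟨∑ j : Idx O X, ((Nat.card j.K : ℚ) / Nat.card G) • M.push j.f j.adm (nn j), fun i => ?_⟩
  rw [map_sum]
  have hrep : v i = ∑ j : Idx O X,
      (((Nat.card j.K : ℚ) / Nat.card G) * Fintype.card (IsoSet i j)) • v i := by
    rw [← Finset.sum_smul, hone hCount i, one_smul]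
  have hmain : ∀ j : Idx O X,
      M.pull i.f (((Nat.card j.K : ℚ) / Nat.card G) • M.push j.f j.adm (nn j)) -
      (((Nat.card j.K : ℚ) / Nat.card G) * Fintype.card (IsoSet i j)) • v i ∈
        nil M (orb i.K) := by
    intro j
    rw [map_smul, mul_smul, ← smul_sub]
    refine Submodule.smul_mem _ _ (lemC M hOrb hRes i j (nn j) (hnn j).2 (v i) (fun k => ?_))
    have h1 : M.pull k.1 (nn j) - M.pull k.1 (v j) ∈ nil M (orb i.K) := by
      rw [← map_sub]
      exact (hNil G O M _ _).1 k.1 k.2.1 _ (hnn j).1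
    have h2 := hv i j k.1 k.2.1 k.2.2
    have h3 := Submodule.sub_mem _ h1 h2
    have e : M.pull k.1 (nn j) - M.pull k.1 (v j) - (v i - M.pull k.1 (v j)) =
        M.pull k.1 (nn j) - v i := by abel
    rwa [e] at h3
  have hs := Submodule.sum_mem (nil M (orb i.K)) (fun j (_ : j ∈ Finset.univ) => hmain j)
  rw [Finset.sum_sub_distrib, ← hrep] at hs
  exact hs

end Pool.Agent.R722.MK
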