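import Pool.Agent.R722.MK.Stm

/-!
# MP_093cae_al (project MK), piece MK-ZERO
-/

set_option autoImplicit false

namespace Pool.Agent.R722.MK

open CategoryTheory CategoryTheory.Limits MulAction Opposite

namespace ZeroAux

section groupoid

variable {C : Type} [SmallCategory C]

/-- Maschke for functors on a finite groupoid -/
theorem projective_of_iso [Finite C] (hfin : ∀ X Y : C, Finite (X ⟶ Y))
    (hiso : ∀ {X Y : C} (f : X ⟶ Y), IsIso f) (X : Cᵒᵖ ⥤ ModuleCat.{0} ℚ) : Projective X := by
  refine ⟨fun {A B} f e _ => ?_⟩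
  have hsec : ∀ c : Cᵒᵖ, ∃ s : X.obj c ⟶ A.obj c, s ≫ e.app c = f.app c := by
    intro c
    have h1 : Epi (e.app c) := inferInstance
    have h2 : Function.Surjective (e.app c).hom := (ModuleCat.epi_iff_surjective _).1 h1
    obtain ⟨s, hs⟩ := Module.projective_lifting_property (e.app c).hom (f.app c).hom h2
    exact ⟨ModuleCat.ofHom s, by ext x; exact LinearMap.congr_fun hs x⟩
  choose s hs using hsec
  have hI : ∀ c : C, Finite (Σ L : C, (c ⟶ L)) := fun c => by
    have := fun L => hfin c L
    infer_instance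
  let hF : ∀ c : C, Fintype (Σ L : C, (c ⟶ L)) := fun c => Fintype.ofFinite _
  have : ∀ {X Y : C} (f : X ⟶ Y), IsIso f := hiso
  -- the bijections
  let E : ∀ {c d : C} (u : d ⟶ c), (Σ L : C, (c ⟶ L)) ≃ (Σ L : C, (d ⟶ L)) := fun u =>
    { toFun := fun i => ⟨i.1, u ≫ i.2⟩
      invFun := fun i => ⟨i.1, inv u ≫ i.2⟩
      left_inv := fun i => by simp
      right_inv := fun i => by simp }
  let t : C → ℚ := fun c => (Fintype.card (Σ L : C, (c ⟶ L)) : ℚ)
  have ht : ∀ c, t c ≠ 0 := fun c => by
    have : Nonempty (Σ L : C, (c ⟶ L)) := ⟨⟨c, 𝟙 c⟩⟩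
    exact Nat.cast_ne_zero.2 Fintype.card_ne_zero
  let av : ∀ c : C, X.obj (op c) ⟶ A.obj (op c) := fun c =>
    (t c)⁻¹ • ∑ i : (Σ L : C, (c ⟶ L)), X.map (inv i.2).op ≫ s (op i.1) ≫ A.map i.2.op
  have hnat : ∀ {c d : C} (u : d ⟶ c), X.map u.op ≫ av d = av c ≫ A.map u.op := by
    intro c d u
    have htt : t c = t d := by
      simp only [t]
      rw [Fintype.card_congr (E u)]
    simp only [av]
    rw [Linear.comp_smul, Linear.smul_comp, Preadditive.comp_sum, Preadditive.sum_comp, htt]
    congr 1
    rw [← (E u).sum_comp]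
    refine Finset.sum_congr rfl fun i _ => ?_
    simp only [E, Equiv.coe_fn_mk, Category.assoc]
    rw [← Category.assoc, ← X.map_comp, ← op_comp, IsIso.inv_comp, Category.assoc,
      IsIso.inv_hom_id, Category.comp_id, op_comp, A.map_comp]
  refine ⟨{ app := fun c => av c.unop, naturality := fun c d u => ?_ }, ?_⟩
  · exact hnat u.unop
  · ext c : 2
    simp only [NatTrans.comp_app, av]
    rw [Linear.smul_comp, Preadditive.sum_comp]
    have h1 : ∀ i : (Σ L : C, (c.unop ⟶ L)),
        (X.map (inv i.2).op ≫ s (op i.1) ≫ A.map i.2.op) ≫ e.app c = f.app c := by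
      intro i
      have h2 : A.map i.2.op ≫ e.app c = e.app (op i.1) ≫ B.map i.2.op := e.naturality i.2.op
      have h3 : X.map i.2.op ≫ f.app c = f.app (op i.1) ≫ B.map i.2.op := f.naturality i.2.op
      rw [Category.assoc, Category.assoc, h2, ← Category.assoc (s _), hs, ← h3, ← Category.assoc,
        ← X.map_comp, ← op_comp, IsIso.hom_inv_id, op_id, X.map_id, Category.id_comp]
    rw [Finset.sum_congr rfl fun i _ => h1 i, Finset.sum_const, Finset.card_univ,
      ← Nat.cast_smul_eq_nsmul ℚ, smul_smul]
    have h4 : (t c.unop)⁻¹ * (Fintype.card (Σ L : C, (c.unop ⟶ L)) : ℚ) = 1 :=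
      inv_mul_cancel₀ (ht c.unop)
    rw [h4, one_smul]

end groupoid

variable {G : Type} [Group G] [Finite G]

theorem orb_trans (K : Subgroup G) (x y : orb K) : ∃ g : G, g • x = y :=
  MulAction.exists_smul_eq (α := G ⧸ K) G x y

instance (K : Subgroup G) : Nonempty (orb K) := ⟨((1 : G) : G ⧸ K)⟩

theorem orb_surj {K P : Subgroup G} (f : orb K →[G] orb P) : Function.Surjective f := by
  intro y
  obtain ⟨x⟩ : Nonempty (orb K) := inferInstance
  obtain ⟨g, hg⟩ := orb_trans P (f x) y
  exact ⟨g • x, by rw [map_smul, hg]⟩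

theorem orb_inj {K P : Subgroup G} (f : orb K →[G] orb P) (x : orb K)
    (h : stabilizer G (f x) ≤ stabilizer G x) : Function.Injective f := by
  have key : ∀ y z : orb K, stabilizer G (f y) ≤ stabilizer G y → f y = f z → y = z := by
    intro y z hy hyz
    obtain ⟨g, hg⟩ := orb_trans K y z
    rw [← hg, map_smul] at hyz
    have : g ∈ stabilizer G (f y) := hyz.symm
    rw [← hg]
    exact (hy this).symm
  intro y z hyz
  refine key y z ?_ hyz
  obtain ⟨g, hg⟩ := orb_trans K x y
  rw [← hg, map_smul, stabilizer_smul_eq_stabilizer_map_conj, stabilizer_smul_eq_stabilizer_map_conj]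
  exact Subgroup.map_mono h

theorem card_orb (K : Subgroup G) : Nat.card (orb K) * Nat.card K = Nat.card G := by
  rw [mul_comm]
  exact K.card_mul_index

theorem card_le {K P : Subgroup G} (f : orb K →[G] orb P) : Nat.card K ≤ Nat.card P := by
  have h1 : Nat.card (orb P) ≤ Nat.card (orb K) := Nat.card_le_card_of_surjective _ (orb_surj f)
  have h2 := card_orb K
  have h3 := card_orb P
  have h4 : 0 < Nat.card (orb K) := Nat.card_pos
  by_contra h
  push Not at h
  have h5 : Nat.card (orb P) * Nat.card P < Nat.card (orb K) * Nat.card K :=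
    Nat.mul_lt_mul_of_le_of_lt h1 h h4
  omega

theorem card_lt {K P : Subgroup G} (f : orb K →[G] orb P) (hf : ¬ Function.Injective f) :
    Nat.card K < Nat.card P := by
  rcases (card_le f).lt_or_eq with h | h
  · exact h
  · exfalso
    apply hf
    have h2 := card_orb K
    have h3 := card_orb P
    rw [h] at h2
    have h4 : 0 < Nat.card P := Nat.card_pos
    have h5 : Nat.card (orb K) = Nat.card (orb P) := Nat.eq_of_mul_eq_mul_right h4 (h2.trans h3.symm)
    exact ((Nat.bijective_iff_surjective_and_card f).2 ⟨orb_surj f, h5⟩).1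

variable {O : TransferSystem G}

instance : Finite (Orb O) :=
  Finite.of_injective (fun A : Orb O => A.K) (fun A B h => by cases A; cases B; simpa using h)

theorem homFin (A B : Orb O) : Finite (A ⟶ B) :=
  Finite.of_injective (fun f : A ⟶ B => f.1) (fun f g h => Subtype.ext h)

theorem iso_of_complete (hO : ∀ K H : Subgroup G, K ≤ H → O.rel K H) {A B : Orb O} (f : A ⟶ B) :
    IsIso f := by
  have hst : ∀ x, stabilizer G (f.1 x) = stabilizer G x := fun x =>
    ((f.2 x).2 _ (hO _ _ (f.2 x).1) le_rfl).symm
  obtain ⟨x⟩ : Nonempty (orb A.K) := inferInstance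
  have hbij : Function.Bijective f.1 := ⟨orb_inj f.1 x (hst x).le, orb_surj f.1⟩
  obtain ⟨g, hg1, hg2⟩ := Function.bijective_iff_has_inverse.1 hbij
  let k : orb B.K →[G] orb A.K :=
    { toFun := g
      map_smul' := fun r y => by
        apply hbij.1
        rw [hg2, map_smul, hg2]
        rfl }
  have hk : DMap O k := by
    intro y
    have h1 : stabilizer G (k y) = stabilizer G y := by
      rw [← hst (k y)]
      congr 1
      exact hg2 y
    rw [h1]
    exact Dense.refl _
  refine ⟨⟨(⟨k, hk⟩ : B ⟶ A), Subtype.ext ?_, Subtype.ext ?_⟩⟩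
  · ext x
    exact hg1 x
  · ext x
    exact hg2 x

/-- the submodules -/
noncomputable def F (c : ℕ) (L : Subgroup G) : Submodule ℚ ℚ := if Nat.card L < c then ⊤ else ⊥

theorem F_mono (c : ℕ) {J L : Subgroup G} (f : orb J →[G] orb L) : F c L ≤ F c J := by
  unfold F
  have h := card_le f
  split_ifs with h1 h2
  · exact le_rfl
  · omega
  · exact bot_le
  · exact le_rfl

/-- the quotient of the constant functor -/
noncomputable def Y (O : TransferSystem G) (c : ℕ) : DFun O where
  obj L := ModuleCat.of ℚ (ℚ ⧸ F c L.unop.K)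
  map {L J} u := ModuleCat.ofHom (Submodule.mapQ (F c L.unop.K) (F c J.unop.K) LinearMap.id
    (F_mono c u.unop.1))
  map_id L := by
    ext : 1
    apply Submodule.linearMap_qext
    ext
    rfl
  map_comp u v := by
    ext : 1
    apply Submodule.linearMap_qext
    ext
    rfl

/-- the projection -/
noncomputable def pr (O : TransferSystem G) (c : ℕ) :
    (Functor.const (Orb O)ᵒᵖ).obj (ModuleCat.of ℚ ℚ) ⟶ Y O c where
  app L := ModuleCat.ofHom (Submodule.mkQ _)
  naturality L J u := by
    ext
    rfl

instance (c : ℕ) : Epi (pr O c) := by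
  rw [NatTrans.epi_iff_epi_app]
  intro L
  rw [ModuleCat.epi_iff_surjective]
  exact Submodule.mkQ_surjective _

end ZeroAux

open ZeroAux

theorem zero_ : stmZero := by
  intro hFac G _ _ O
  constructor
  · intro hP K H hKH
    by_contra hrel
    -- the projection
    let f : orb K →[G] orb H :=
      { toFun := Quotient.map' id (fun a b h => by
          rw [QuotientGroup.leftRel_apply] at h ⊢
          exact hKH h)
        map_smul' := fun g x => by
          obtain ⟨a, rfl⟩ := QuotientGroup.mk_surjective x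
          rfl }
    obtain ⟨P, u, h, hu, hh, huh⟩ := (hFac G O).1 K (orb H) f
    let e : orb K := ((1 : G) : G ⧸ K)
    have he : stabilizer G e = K := MulAction.stabilizer_quotient K
    have hfe : stabilizer G (f e) = H := MulAction.stabilizer_quotient H
    have hni : ¬ Function.Injective u := by
      intro hi
      apply hrel
      have h1 : stabilizer G (u e) = K := by
        apply le_antisymm
        · intro s hs
          rw [← he, mem_stabilizer_iff]
          rw [mem_stabilizer_iff, ← map_smul] at hs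
          exact hi hs
        · exact he.symm.le.trans (hu e).1
      have h2 := hh (u e)
      rw [huh e, h1, hfe] at h2
      exact h2
    have hlt := card_lt u hni
    have hproj := hP (Y O (Nat.card P))
    obtain ⟨s, hs⟩ := hproj.factors (𝟙 (Y O (Nat.card P))) (pr O (Nat.card P))
    let U : (⟨K⟩ : Orb O) ⟶ ⟨P⟩ := ⟨u, hu⟩
    let y : ℚ ⧸ F (Nat.card P) P := Submodule.Quotient.mk 1
    have hy : y ≠ 0 := by
      intro h0
      rw [Submodule.Quotient.mk_eq_zero] at h0
      unfold F at h0
      rw [if_neg (lt_irrefl _)] at h0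
      simp at h0
    apply hy
    have h3 : (s.app (op ⟨P⟩)).hom y = (0 : ℚ) := by
      have h4 := congrArg (fun k => k.hom y) (s.naturality U.op)
      have h5 : ((Y O (Nat.card P)).map U.op).hom y = 0 := by
        have : Subsingleton (ℚ ⧸ F (Nat.card P) K) := by
          unfold F
          rw [if_pos hlt]
          exact Submodule.Quotient.subsingleton_iff.2 rfl
        exact @Subsingleton.elim (ℚ ⧸ F (Nat.card P) K) this _ _
      have h6 : (s.app (op ⟨K⟩)).hom (((Y O (Nat.card P)).map U.op).hom y)
          = (s.app (op ⟨P⟩)).hom y := h4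
      rw [h5, map_zero] at h6
      exact h6.symm
    have h7 : (((pr O (Nat.card P)).app (op ⟨P⟩)).hom ((s.app (op ⟨P⟩)).hom y)) = y :=
      congrArg (fun k => (k.app (op ⟨P⟩)).hom y) hs
    rw [← h7]
    erw [h3]
    exact map_zero _
  · intro hO X
    exact projective_of_iso homFin (fun f => iso_of_complete hO f) X

end Pool.Agent.R722.MK
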